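import Pool.Agent.Q212.LF.MTori
import Pool.Agent.Y775.SN.Unr
import Pool.Agent.Y797.IV.Unr
set_option autoImplicit false

/-!
The symbols on the hypersurfaces `W(z) = Φ(x)` are unramified, if those on the base have a property
with respect to `Φ`; this property for the symbols of the bases of arbitrary arrangements of
hyperplanes.
-/

namespace Pool.Agent.Q212.LF

open scoped WithZero

open Pool.Agent.TH826.MK (KQ symb Unramified unitPart)

open Pool.Agent.TH826.EF (onePart onePart_le mem_onePart_of_sum_lt)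

open Pool.Agent.TH690.SF (mem_onePart_of_comp)

open Pool.Agent.TH826.GA (cm vtx)

open Pool.Agent.TH577.UA (hi kap kap_ne)

open Pool.Agent.Y797.IV (Clears fx x_le entry_one)

section general

variable {K : Type*} [Field K] {n q : ℕ} {W : Lau K (q + 1)} {Φ : MvPolynomial (Fin (n + 1)) K}
  {L : Type*} [Field L]

theorem symb_mem_unitPart (hW : Tempered W) (f : HOpen W Φ →+* L) (v : Valuation L ℤᵐ⁰)
    (B : Fin (n + 1) → (HOpen W Φ)ˣ)
    (hB : symb (fun k => Units.map (f : HOpen W Φ →* L) (B k)) ∈ onePart v (n + 1) ∨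
      (v (MvPolynomial.eval₂ (ptK f) (ptx f) Φ) ≤ 1 ∧
        (v (MvPolynomial.eval₂ (ptK f) (ptx f) Φ) = 1 → ∀ k, v (f (B k : HOpen W Φ)) = 1))) :
    symb (fun l => Units.map (f : HOpen W Φ →* L) (hent B l)) ∈ unitPart v (n + 1 + q + 1) := by
  have hcomp1 : ∀ k : Fin (n + 1), Units.map (f : HOpen W Φ →* L)
      (hent B (Fin.castAdd (q + 1) k)) = Units.map (f : HOpen W Φ →* L) (B k) := fun k => by
    rw [hent_castAdd]
  have hcomp2 : ∀ l : Fin (q + 1), Units.map (f : HOpen W Φ →* L)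
      (hent B (Fin.natAdd (n + 1) l)) = ptz f l := fun l => by
    rw [hent_natAdd]
    rfl
  rcases hB with hB | ⟨hB1, hB2⟩
  · refine onePart_le v (mem_onePart_of_comp v
      (fun l => Units.map (f : HOpen W Φ →* L) (hent B l))
      (ι := (Fin.castAdd (q + 1) : Fin (n + 1) → Fin (n + 1 + (q + 1))))
      (Fin.castAdd_injective _ _) ?_)
    simp only [hcomp1]
    exact hB
  · rw [pt_eq f] at hB1 hB2
    rcases hW.cases (Nat.succ_ne_zero q) (ptK f) (ptz f) v hB1 with h1 | ⟨h1, h2⟩
    · refine onePart_le v (mem_onePart_of_comp v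
        (fun l => Units.map (f : HOpen W Φ →* L) (hent B l))
        (ι := (Fin.natAdd (n + 1) : Fin (q + 1) → Fin (n + 1 + (q + 1))))
        (Fin.natAdd_injective _ _) ?_)
      simp only [hcomp2]
      exact h1
    · have h3 := hB2 h2
      refine Submodule.subset_span ⟨_, fun l => ?_, rfl⟩
      have key : ∀ l : Fin (n + 1 + (q + 1)),
          v ((Units.map (f : HOpen W Φ →* L) (hent B l) : Lˣ) : L) = 1 := by
        intro l
        refine Fin.addCases (fun k => ?_) (fun k => ?_) l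
        · rw [hcomp1]
          exact h3 k
        · rw [hcomp2]
          exact h1 k
      exact key l

theorem unramAt_of.{u, w} {K : Type u} [Field K] {n q : ℕ} {W : Lau K (q + 1)}
    {Φ : MvPolynomial (Fin (n + 1)) K} (hW : Tempered W) (B : Fin (n + 1) → (HOpen W Φ)ˣ)
    (hB : ∀ (L : Type w) [Field L] (f : HOpen W Φ →+* L) (v : Valuation L ℤᵐ⁰),
      symb (fun k => Units.map (f : HOpen W Φ →* L) (B k)) ∈ onePart v (n + 1) ∨
      (v (MvPolynomial.eval₂ (ptK f) (ptx f) Φ) ≤ 1 ∧
        (v (MvPolynomial.eval₂ (ptK f) (ptx f) Φ) = 1 → ∀ k, v (f (B k : HOpen W Φ)) = 1))) :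
    UnramAt.{u, w} B := by
  intro L _ f
  rw [KQ.map_symb]
  unfold Unramified
  simp only [Submodule.mem_iInf]
  intro v _
  exact symb_mem_unitPart hW f v B (hB L f v)

end general

section block

variable {L : Type*} [Field L] {n : ℕ}

/-- If the entries on `J` are `z_k / z_0`, and `z_0 - ∑_{k ∈ J} z_k` is of smaller order than one of
the `z_k`, then the symbol lies in `onePart`. -/
theorem mem_onePart_of_block (v : Valuation L ℤᵐ⁰) (a : Fin n → Lˣ) (J : Finset (Fin n))
    (z : Fin n → Lˣ) (z0 : Lˣ) (ha : ∀ k ∈ J, a k = z k / z0) {l : Fin n} (hl : l ∈ J)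
    (hlt : v ((z0 : L) - ∑ k ∈ J, (z k : L)) < v (z l : L)) : symb a ∈ onePart v n := by
  classical
  set κ : Fin J.card → Fin n := fun i => J.orderEmbOfFin rfl i with hκ
  have hκi : Function.Injective κ := (J.orderEmbOfFin rfl).injective
  have hκJ : ∀ i, κ i ∈ J := fun i => Finset.orderEmbOfFin_mem J rfl i
  have hsum : ∀ f : Fin n → L, ∑ i, f (κ i) = ∑ k ∈ J, f k := by
    intro f
    have h1 : Finset.univ.map ⟨κ, hκi⟩ = J := by
      ext k
      simp only [Finset.mem_map, Finset.mem_univ, true_and, Function.Embedding.coeFn_mk]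
      constructor
      · rintro ⟨i, rfl⟩
        exact hκJ i
      · intro hk
        have h2 : k ∈ Set.range (J.orderEmbOfFin rfl) := by
          rw [Finset.range_orderEmbOfFin]
          exact hk
        obtain ⟨i, hi⟩ := h2
        exact ⟨i, hi⟩
    conv_rhs => rw [← h1]
    rw [Finset.sum_map]
    rfl
  set Z : Fin (J.card + 1) → Lˣ := Fin.cons z0 fun i => -z (κ i) with hZ
  have hZsum : ∑ i, (Z i : L) = (z0 : L) - ∑ k ∈ J, (z k : L) := by
    rw [Fin.sum_univ_succ, ← hsum fun k => (z k : L), sub_eq_add_neg, ← Finset.sum_neg_distrib]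
    rfl
  obtain ⟨l', -, hl'⟩ := Finset.exists_max_image Finset.univ (fun k => v (Z k : L))
    ⟨0, Finset.mem_univ _⟩
  obtain ⟨i, hi⟩ : ∃ i, κ i = l := by
    have h2 : l ∈ Set.range (J.orderEmbOfFin rfl) := by
      rw [Finset.range_orderEmbOfFin]
      exact hl
    exact h2
  have hvl : v (z l : L) ≤ v (Z l' : L) := by
    have h1 := hl' i.succ (Finset.mem_univ _)
    have h2 : (Z i.succ : L) = -(z l : L) := by
      rw [← hi]
      rfl
    rwa [h2, Valuation.map_neg] at h1
  have h1 : symb (fun k : Fin J.card => Z k.succ / Z 0) ∈ onePart v J.card :=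
    mem_onePart_of_sum_lt v Z l' (fun k => hl' k (Finset.mem_univ k)) (by
      rw [hZsum]
      exact hlt.trans_le hvl)
  have h2 : (fun k : Fin J.card => Z k.succ / Z 0) = fun k => (-1 : Lˣ) * a (κ k) := by
    funext k
    rw [ha _ (hκJ k), neg_one_mul, ← neg_div]
    rfl
  rw [h2, symb_mul_torsion (fun k => a (κ k)) (fun _ => -1) (two_ne_zero)
    (fun _ => by rw [neg_sq, one_pow])] at h1
  exact mem_onePart_of_comp v a hκi h1

end block

section arr

variable {K : Type*} [Field K] {n m : ℕ} {c : Fin (m + 1) → Fin (n + 1) → K}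
  {a : Fin (m + 1) → K} {g : MvPolynomial (Fin (n + 1)) K} {L : Type*} [Field L]
  (φ : K →+* L) (x : Fin (n + 1) → L)

theorem val_poly_le (v : Valuation L ℤᵐ⁰) (hg : ∀ k, IsIntegral ℤ (g.coeff k)) {B : ℤᵐ⁰}
    (hB : 1 ≤ B) (hx : ∀ j, v (x j) ≤ B) :
    v (MvPolynomial.eval₂ φ x g) ≤ B ^ g.totalDegree := by
  have hc : ∀ x : K, IsIntegral ℤ x → v (φ x) ≤ 1 := fun x hx =>
    Pool.Agent.TH826.MK.val_le_one_of_integral v (map_isIntegral_int _ hx)
  rw [MvPolynomial.eval₂_eq']
  refine Valuation.map_sum_le v fun k hk => ?_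
  rw [map_mul, map_prod]
  have h1 : ∏ j, v (x j ^ k j) ≤ B ^ g.totalDegree := by
    calc ∏ j, v (x j ^ k j) ≤ ∏ j, B ^ k j := by
          refine Finset.prod_le_prod' fun j _ => ?_
          rw [map_pow]
          exact pow_le_pow_left' (hx j) _
      _ = B ^ (∑ j, k j) := (Finset.prod_pow_eq_pow_sum _ _ _)
      _ ≤ B ^ g.totalDegree := by
          refine pow_le_pow_right' hB ?_
          have h2 := MvPolynomial.le_totalDegree hk
          rwa [Finsupp.sum_fintype _ _ (fun _ => rfl)] at h2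
  calc v (φ (g.coeff k)) * ∏ j, v (x j ^ k j) ≤ 1 * B ^ g.totalDegree :=
        mul_le_mul' (hc _ (hg k)) h1
    _ = B ^ g.totalDegree := one_mul _

/-- The symbol of a basis of the arrangement lies in `onePart`, or the value of
`μ D ^ (m + 1 + deg g) g ∏_e L_e` is at most `1` and the entries are units if it is `1`. -/
theorem arr_cases (hc : ∀ e j, IsIntegral ℤ (c e j))
    (ha : ∀ e, IsIntegral ℤ (a e)) (hg : ∀ k, IsIntegral ℤ (g.coeff k)) {D mu : K}
    (hD : Clears c a D) (hmu : IsIntegral ℤ mu)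
    (v : Valuation L ℤᵐ⁰) {T : Fin (n + 1) → Fin (m + 1)} (hT : (cm c T).det ≠ 0)
    (z : Fin (n + 1) → Lˣ) (hzv : ∀ k, (z k : L) = φ (kap c T k) * fx φ x c a (T k))
    (b : Fin (m + 1) → Lˣ) (hbv : ∀ e, (b e : L) = fx φ x c a e) :
    symb (fun k : Fin (n + 1) => z k / b (hi c T k)) ∈ onePart v (n + 1) ∨
      (v (φ (mu * D ^ (m + 1 + g.totalDegree)) *
        (MvPolynomial.eval₂ φ x g * ∏ e, fx φ x c a e)) ≤ 1 ∧
        (v (φ (mu * D ^ (m + 1 + g.totalDegree)) *
          (MvPolynomial.eval₂ φ x g * ∏ e, fx φ x c a e)) = 1 →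
          ∀ k : Fin (n + 1), v ((z k / b (hi c T k) : Lˣ) : L) = 1)) := by
  classical
  obtain ⟨hD0, hDi, hDv⟩ := hD
  have hci : ∀ x : K, IsIntegral ℤ x → v (φ x) ≤ 1 := fun x hx =>
    Pool.Agent.TH826.MK.val_le_one_of_integral v (map_isIntegral_int _ hx)
  by_cases hB : ∃ k0, v (fx φ x c a (hi c T k0) -
      ∑ k ∈ Finset.univ.filter (fun k => hi c T k = hi c T k0),
        φ (kap c T k) * fx φ x c a (T k)) <
      v (φ (kap c T k0) * fx φ x c a (T k0))
  · obtain ⟨k0, hk0⟩ := hB
    refine Or.inl (mem_onePart_of_block v _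
      (Finset.univ.filter fun k => hi c T k = hi c T k0) z
      (b (hi c T k0)) (fun k hk => ?_) (l := k0)
      (Finset.mem_filter.2 ⟨Finset.mem_univ _, rfl⟩) ?_)
    · rw [(Finset.mem_filter.1 hk).2]
    · simp only [hzv, hbv]
      exact hk0
  · refine Or.inr ?_
    push Not at hB
    have hDL : v (φ D) ≠ 0 := by
      rw [Valuation.ne_zero_iff]
      exact (map_ne_zero _).2 hD0
    have hDle : v (φ D) ≤ 1 := hci _ hDi
    set B : ℤᵐ⁰ := (v (φ D))⁻¹ with hBdef
    have hB0 : B ≠ 0 := inv_ne_zero hDL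
    have hB1 : 1 ≤ B := (one_le_inv₀ (zero_lt_iff.2 hDL)).2 hDle
    have hDB : v (φ D) * B = 1 := mul_inv_cancel₀ hDL
    have hvt : ∀ T' : Fin (n + 1) → Fin (m + 1), (cm c T').det ≠ 0 → ∀ j,
        v (φ (vtx c a T' j)) ≤ B := by
      intro T' hT' j
      have h1 := hci _ (hDv T' hT' j)
      rw [map_mul, map_mul, mul_comm] at h1
      exact (le_mul_inv_iff₀ (zero_lt_iff.2 hDL)).2 (by simpa using h1) |>.trans_eq (one_mul _)
    have hft : ∀ T' : Fin (n + 1) → Fin (m + 1), (cm c T').det ≠ 0 → ∀ e,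
        v (φ (∑ j, c e j * vtx c a T' j - a e)) ≤ B := by
      intro T' hT' e
      rw [map_sub, map_sum]
      refine (v.map_sub _ _).trans (max_le ?_ ((hci _ (ha e)).trans hB1))
      refine Valuation.map_sum_le v fun j _ => ?_
      rw [map_mul, map_mul]
      exact (mul_le_mul' (hci _ (hc e j)) (hvt T' hT' j)).trans_eq (one_mul _)
    have hx : ∀ j, v (x j) ≤ B := fun j => x_le v hT hB hvt j
    have hle : ∀ e, v (fx φ x c a e) ≤ B := by
      intro e
      refine (v.map_sub _ _).trans (max_le ?_ ((hci _ (ha e)).trans hB1))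
      refine Valuation.map_sum_le v fun j _ => ?_
      rw [map_mul]
      exact (mul_le_mul' (hci _ (hc e j)) (hx j)).trans_eq (one_mul _)
    have hle1 : ∀ e, v (φ D) * v (fx φ x c a e) ≤ 1 := fun e =>
      (mul_le_mul' le_rfl (hle e)).trans_eq hDB
    have hgle : v (φ D) ^ g.totalDegree * v (MvPolynomial.eval₂ φ x g) ≤ 1 := by
      refine (mul_le_mul' le_rfl (val_poly_le φ x v hg hB1 hx)).trans_eq ?_
      rw [← mul_pow, hDB, one_pow]
    have hPeq : v (φ (mu * D ^ (m + 1 + g.totalDegree)) *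
        (MvPolynomial.eval₂ φ x g * ∏ e, fx φ x c a e)) =
        (v (φ mu) * (v (φ D) ^ g.totalDegree * v (MvPolynomial.eval₂ φ x g))) *
          ∏ e, (v (φ D) * v (fx φ x c a e)) := by
      simp only [map_mul, map_pow, map_prod]
      rw [Finset.prod_mul_distrib, Finset.prod_const, Finset.card_univ, Fintype.card_fin,
        pow_add]
      have e : ∀ a b c d e : ℤᵐ⁰, a * (b * c) * (d * e) = a * (c * d) * (b * e) :=
        fun a b c d e => by
          simp only [mul_assoc]
          rw [mul_left_comm b c, mul_left_comm b d]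
      exact e _ _ _ _ _
    have hmg : v (φ mu) * (v (φ D) ^ g.totalDegree * v (MvPolynomial.eval₂ φ x g)) ≤ 1 :=
      mul_le_one' (hci _ hmu) hgle
    refine ⟨?_, fun hone k => ?_⟩
    · rw [hPeq]
      exact mul_le_one' hmg (Finset.prod_le_one' fun e _ => hle1 e)
    · rw [hPeq] at hone
      obtain ⟨-, hl1⟩ := Pool.Agent.TH333.CY.all_one hle1 hmg hone
      have hall : ∀ e, v (fx φ x c a e) = B := by
        intro e
        rw [hBdef]
        exact eq_inv_of_mul_eq_one_right (hl1 e)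
      rw [Units.val_div_eq_div_val, map_div₀, hzv, hbv, entry_one v hT hB hft hall k, div_self]
      rw [hall]
      exact hB0

end arr

end Pool.Agent.Q212.LF
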