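import Pool.Agent.Q212.LF.ADef
import Pool.Agent.Q212.LF.AUnr
import Pool.Agent.TH577.UA.Final
set_option autoImplicit false

/-!
The hypersurfaces `W(z) = λ g(x) ∏_e L_e(x)` for arrangements of distinct hyperplanes.
-/

namespace Pool.Agent.Q212.LF

open scoped WithZero

open Pool.Agent.TH826.MK (KQ symb Unramified unitPart Torus)

open Pool.Agent.TH826.EF (onePart)

open Pool.Agent.TH826.GA (cm vtx al al_T be be_T lf lc eval_lf ku coe_ku xv contDiff_xv)

open Pool.Agent.TH577.UA (hi kap kap_ne Distinct Nbc psi contDiff_psi psi_zero xv_zero mmon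
  stp top top_T eq_T_zero exists_fac det_ne_zero_of_tri lead lead_same lead_other)

open Pool.Agent.Y797.IV (Clears fx)

section copies

variable {K : Type*} [Field K] {n m : ℕ} {c : Fin (m + 1) → Fin (n + 1) → K}
  {a : Fin (m + 1) → K}

theorem hiT_eq (T : Fin (n + 1) → Fin (m + 1)) (i : Fin (n + 1)) : hiT c T i = hi c T i := rfl

theorem kapT_eq (T : Fin (n + 1) → Fin (m + 1)) (i : Fin (n + 1)) : kapT c T i = kap c T i := rfl

theorem nbcT_iff (T : Fin (n + 1) → Fin (m + 1)) : NbcT c a T ↔ Nbc c a T := Iff.rfl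

theorem kapT_ne {T : Fin (n + 1) → Fin (m + 1)} (hT : (cm c T).det ≠ 0) (i : Fin (n + 1)) :
    kapT c T i ≠ 0 := kap_ne hT i

end copies

section unram

variable {K : Type*} [Field K] {n m q : ℕ} {W : Lau K (q + 1)} {lam : K}
  {g : MvPolynomial (Fin (n + 1)) K} {c : Fin (m + 1) → Fin (n + 1) → K} {a : Fin (m + 1) → K}

theorem ev_lf {L : Type*} [Field L] (φ : K →+* L) (x : Fin (n + 1) → L) (e : Fin (m + 1)) :
    MvPolynomial.eval₂ φ x (lf c a e) = fx φ x c a e := by
  unfold lf fx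
  rw [MvPolynomial.eval₂_sub, MvPolynomial.eval₂_sum, MvPolynomial.eval₂_C]
  simp only [MvPolynomial.eval₂_mul, MvPolynomial.eval₂_C, MvPolynomial.eval₂_X]

theorem unramAt_bent.{u, w} {K : Type u} [Field K] {n m q : ℕ} {W : Lau K (q + 1)}
    {g : MvPolynomial (Fin (n + 1)) K} {c : Fin (m + 1) → Fin (n + 1) → K} {a : Fin (m + 1) → K}
    (hW : Tempered W) (hc : ∀ e j, IsIntegral ℤ (c e j))
    (ha : ∀ e, IsIntegral ℤ (a e)) (hg : ∀ k, IsIntegral ℤ (g.coeff k)) {D mu : K}
    (hD : Clears c a D) (hmu : IsIntegral ℤ mu) {lam : K}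
    (hlam : lam = mu * D ^ (m + 1 + g.totalDegree)) {T : Fin (n + 1) → Fin (m + 1)}
    (hT : (cm c T).det ≠ 0) : UnramAt.{u, w} (bent W lam g c a T) := by
  refine unramAt_of hW _ fun L _ f v => ?_
  set z : Fin (n + 1) → Lˣ := fun k =>
    Units.map (f : HOpen W (gPhi lam g c a) →* L)
      (oc W (gPhi lam g c a) (ku (kapT c T k)) * uL W lam g c a (T k)) with hz
  set b : Fin (m + 1) → Lˣ := fun e =>
    Units.map (f : HOpen W (gPhi lam g c a) →* L) (uL W lam g c a e) with hb
  have hbv : ∀ e, (b e : L) = fx (ptK f) (ptx f) c a e := fun e => by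
    show f (uL W lam g c a e : HOpen W (gPhi lam g c a)) = _
    unfold uL
    rw [map_ou, ev_lf]
  have hzv : ∀ k, (z k : L) = ptK f (kapT c T k) * fx (ptK f) (ptx f) c a (T k) := fun k => by
    show f ((oc W (gPhi lam g c a) (ku (kapT c T k)) * uL W lam g c a (T k) :
      (HOpen W (gPhi lam g c a))ˣ) : HOpen W (gPhi lam g c a)) = _
    unfold uL
    rw [Units.val_mul, map_mul, map_oc, map_ou, ev_lf, coe_ku (kapT_ne hT k)]
  have h1 := arr_cases (ptK f) (ptx f) hc ha hg hD hmu v hT z hzv b hbv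
  rw [← hlam] at h1
  have h2 : ∀ k, Units.map (f : HOpen W (gPhi lam g c a) →* L) (bent W lam g c a T k) =
      z k / b (hiT c T k) := fun k => map_div _ _ _
  have h3 : MvPolynomial.eval₂ (ptK f) (ptx f) (gPhi lam g c a) =
      ptK f lam * (MvPolynomial.eval₂ (ptK f) (ptx f) g *
        ∏ e, fx (ptK f) (ptx f) c a e) := by
    unfold gPhi
    rw [MvPolynomial.eval₂_mul, MvPolynomial.eval₂_mul, MvPolynomial.eval₂_C,
      MvPolynomial.eval₂_prod]
    simp only [ev_lf]
  have h4 : (fun k => Units.map (f : HOpen W (gPhi lam g c a) →* L) (bent W lam g c a T k)) =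
      fun k => z k / b (hiT c T k) := funext h2
  rw [h3, h4]
  refine h1.imp id fun h5 => ⟨h5.1, fun h6 k => ?_⟩
  have h7 : v ((z k / b (hiT c T k) : Lˣ) : L) = 1 := h5.2 h6 k
  rw [← h2 k] at h7
  exact h7

end unram

section chart

variable {K : Type*} [Field K] {n m : ℕ} {g : MvPolynomial (Fin (n + 1)) K}
  {c : Fin (m + 1) → Fin (n + 1) → K} {a : Fin (m + 1) → K}

/-- the factors `g` and `L_e` -/
noncomputable def afun (g : MvPolynomial (Fin (n + 1)) K) (c : Fin (m + 1) → Fin (n + 1) → K)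
    (a : Fin (m + 1) → K) (e : Option (Fin (m + 1))) : MvPolynomial (Fin (n + 1)) K :=
  e.elim g (lf c a)

/-- the exponents of the factors -/
noncomputable def amu (c : Fin (m + 1) → Fin (n + 1) → K) (a : Fin (m + 1) → K)
    (T : Fin (n + 1) → Fin (m + 1)) (e : Option (Fin (m + 1))) : Fin (n + 1) → ℕ :=
  e.elim 0 (Pool.Agent.TH577.UA.mu c a T)

/-- the pair of the coordinates -/
noncomputable def prw (w : Fin (n + 1) → ℂ) : (Fin n → ℂ) × ℂ := (fun k => w k.succ, w 0)

theorem contDiff_prw : ContDiff ℂ 2 (prw (n := n)) :=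
  (contDiff_pi.2 fun k : Fin n => contDiff_apply ℂ ℂ k.succ).prodMk (contDiff_apply ℂ ℂ 0)

theorem mmon_prw (μ : Fin (n + 1) → ℕ) (w : Fin (n + 1) → ℂ) :
    mmon μ (prw w) = ∏ j, w j ^ μ j := by
  unfold mmon prw
  rw [Fin.prod_univ_succ]

theorem prw_zero : prw (0 : Fin (n + 1) → ℂ) = 0 := rfl

theorem exists_mchart (σ : K →+* ℂ) {T : Fin (n + 1) → Fin (m + 1)} (hT : (cm c T).det ≠ 0)
    (hD : Dist c a) (hg : MvPolynomial.eval (vtx c a T) g ≠ 0) :
    ∃ h X, MChart σ (afun g c a) (amu c a T) h X := by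
  classical
  choose hf hf1 hf2 hf3 using exists_fac (c := c) (a := a) σ hT hD
  have hX : ContDiff ℂ 2 fun w : Fin (n + 1) → ℂ => xv σ c a T (psi (prw w)) :=
    (contDiff_xv σ T).comp (contDiff_psi.comp contDiff_prw)
  refine ⟨fun e w => e.elim (MvPolynomial.eval₂ σ (xv σ c a T (psi (prw w))) g)
    fun e => hf e (prw w), fun w => xv σ c a T (psi (prw w)), hX.restrict_scalars ℝ, ?_, ?_, ?_, ?_⟩
  · rintro (_ | e) w
    · show MvPolynomial.eval₂ σ (xv σ c a T (psi (prw w))) g =
        (∏ j, w j ^ (0 : ℕ)) * MvPolynomial.eval₂ σ (xv σ c a T (psi (prw w))) g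
      simp
    · show MvPolynomial.eval₂ σ (xv σ c a T (psi (prw w))) (lf c a e) =
        (∏ j, w j ^ Pool.Agent.TH577.UA.mu c a T e j) * hf e (prw w)
      rw [eval_lf, hf1, mmon_prw]
  · rintro (_ | e)
    · exact (contDiff_ev σ g).comp (hX.restrict_scalars ℝ)
    · exact ((hf2 e).comp contDiff_prw).restrict_scalars ℝ
  · rintro (_ | e)
    · show MvPolynomial.eval₂ σ (xv σ c a T (psi (prw 0))) g ≠ 0
      rw [prw_zero, psi_zero, xv_zero]
      have h2 : MvPolynomial.eval₂ σ (fun j => σ (vtx c a T j)) g =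
          σ (MvPolynomial.eval (vtx c a T) g) := by
        rw [MvPolynomial.eval, MvPolynomial.coe_eval₂Hom, MvPolynomial.hom_eval₂,
          RingHom.comp_id]
      rw [h2]
      exact (map_ne_zero σ).2 hg
    · show hf e (prw 0) ≠ 0
      rw [prw_zero]
      exact hf3 e
  · rw [Fintype.sum_option]
    show 0 + ∑ e, Pool.Agent.TH577.UA.mu c a T e 0 = 1
    rw [zero_add, Finset.sum_eq_single (T 0)]
    · unfold Pool.Agent.TH577.UA.mu
      rw [if_pos (be_T T hT 0), top_T hT]
      unfold stp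
      rw [if_pos le_rfl]
    · intro e _ he
      unfold Pool.Agent.TH577.UA.mu
      by_cases hbe : be c a T e = 0
      · rw [if_pos hbe]
        unfold stp
        rw [if_neg]
        intro h1
        exact he (eq_T_zero hT hD hbe (Fin.le_zero_iff.1 h1))
      · rw [if_neg hbe]
        rfl
    · intro h
      exact absurd (Finset.mem_univ _) h

theorem exists_indepReg {q : ℕ} (σ : K →+* ℂ) {W : Lau K (q + 1)} (hW : Tempered W)
    (hd : Dist c a) (hg : ∀ T : Fin (n + 1) → Fin (m + 1), (cm c T).det ≠ 0 →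
      MvPolynomial.eval (vtx c a T) g ≠ 0) :
    ∃ C : ℝ, 1 ≤ C ∧ ∀ lam : K, C ≤ ‖σ lam‖ → IndepReg σ W lam g c a := by
  classical
  obtain ⟨v, hv, hmax, hvd⟩ := exists_ztorus W (hW.ne_zero (Nat.succ_ne_zero q)) σ
  have hv0 : v ≠ 0 := by
    rintro rfl
    obtain ⟨e, he, hpos⟩ := hW.interior (fun _ => 1) (by
      intro h0
      exact one_ne_zero (congrFun h0 0))
    have h1 := hmax e he
    simp only [Pi.zero_apply, mul_zero, Finset.sum_const_zero] at h1
    have h2 : ∀ l, e l = 0 := by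
      intro l
      have h3 : 0 ≤ ∑ l, e l * e l := Finset.sum_nonneg fun l _ => mul_self_nonneg _
      have h4 := (Finset.sum_eq_zero_iff_of_nonneg (fun l _ => mul_self_nonneg (e l))).1
        (le_antisymm h1 h3) l (Finset.mem_univ l)
      exact mul_self_eq_zero.1 h4
    simp only [h2, mul_zero, Finset.sum_const_zero] at hpos
    exact lt_irrefl _ hpos
  have hM : (Matrix.of fun T T' : IxT c a =>
      (Mb (fun k => amu c a T.1 (some (T'.1 k)))
        fun k => amu c a T.1 (some (hiT c T'.1 k))).det).det ≠ 0 := by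
    refine det_ne_zero_of_tri (fun T : IxT c a => ∑ l, (T.1 l : ℕ)) _ (fun T => ?_)
      (fun T T' h => ?_)
    · rw [Matrix.of_apply]
      exact lead_same T.2
    · rw [Matrix.of_apply] at h
      rcases lead_other T.2 T'.2 h with h1 | h1
      · exact Or.inl (Subtype.ext h1)
      · exact Or.inr h1
  obtain ⟨C, hC1, hC⟩ := exists_tori (σ := σ) (p := afun g c a) (W := W) hv0 hvd
    (fun T : IxT c a => amu c a T.1)
    (fun T => exists_mchart σ T.2.2.1 hd (hg T.1 T.2.2.1))
    (fun T k => some (T.1 k)) (fun T k => some (hiT c T.1 k))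
    (fun T k => kapT c T.1 k) (fun T k => kapT_ne T.2.2.1 k) hM
  refine ⟨C, hC1, fun lam hlam => ?_⟩
  obtain ⟨Γ, h1, h2, h3⟩ := hC lam hlam (gPhi lam g c a) (by
    unfold gPhi
    rw [Fintype.prod_option]
    rfl)
  refine ⟨Γ, h1, h2, h3 (fun T => bent W lam g c a T.1) fun T k => ?_⟩
  have e1 : (bent W lam g c a T.1 k : HOpen W (gPhi lam g c a)) *
      (uL W lam g c a (hiT c T.1 k) : HOpen W (gPhi lam g c a)) =
      (oc W (gPhi lam g c a) (ku (kapT c T.1 k)) : HOpen W (gPhi lam g c a)) *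
        uL W lam g c a (T.1 k) := by
    unfold bent
    rw [← Units.val_mul, ← Units.val_mul, div_mul_cancel]
  have e2 : (oc W (gPhi lam g c a) (ku (kapT c T.1 k)) : HOpen W (gPhi lam g c a)) =
      ocst W (gPhi lam g c a) (kapT c T.1 k) := by
    show ocst W (gPhi lam g c a) (ku (kapT c T.1 k) : K) = _
    rw [coe_ku (kapT_ne T.2.2.1 k)]
  rw [e2] at e1
  exact e1

end chart

end Pool.Agent.Q212.LF
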