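import Pool.Agent.Q212.LF.Def
import Pool.Agent.TH826.GA.Smooth
set_option autoImplicit false

/-!
Arrangements of hyperplanes `L_e = ∑_j c_{e,j} x_j - a_e`, the hypersurfaces
`W(z) = λ g(x) ∏_e L_e(x)`, and the symbols of the bases of the arrangement.
-/

namespace Pool.Agent.Q212.LF

open Pool.Agent.TH826.MK (symb Torus)

open Pool.Agent.TH826.GA (cm vtx lf ku)

section comb

variable {K : Type*} [Field K] {n m : ℕ}

/-- No form is a multiple of another one. -/
def Dist (c : Fin (m + 1) → Fin (n + 1) → K) (a : Fin (m + 1) → K) : Prop :=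
  ∀ e e', e ≠ e' → ∀ κ : K, ¬ ((∀ j, c e j = κ * c e' j) ∧ a e = κ * a e')

/-- The largest index `e` of the forms by which `L_{T i}` can be replaced, such that the linear
parts of the forms `T` stay linearly independent. -/
noncomputable def hiT (c : Fin (m + 1) → Fin (n + 1) → K) (T : Fin (n + 1) → Fin (m + 1))
    (i : Fin (n + 1)) : Fin (m + 1) :=
  open Classical in
    (Finset.univ.filter fun e => (cm c (Function.update T i e)).det ≠ 0).sup id

/-- The quotient of the determinants of the forms `T` with and without the replacement of `T i` by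
`hiT c T i`. -/
noncomputable def kapT (c : Fin (m + 1) → Fin (n + 1) → K) (T : Fin (n + 1) → Fin (m + 1))
    (i : Fin (n + 1)) : K :=
  (cm c (Function.update T i (hiT c T i))).det / (cm c T).det

/-- The bases `T_0 < ... < T_n` (the linear parts of the forms `T` are linearly independent) such
that every form of `T` can be replaced by a later form, and every other form through the vertex of
`T` can replace a later form of `T`. -/
def NbcT (c : Fin (m + 1) → Fin (n + 1) → K) (a : Fin (m + 1) → K)
    (T : Fin (n + 1) → Fin (m + 1)) : Prop :=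
  StrictMono T ∧ (cm c T).det ≠ 0 ∧
  (∀ i, ∃ e, T i < e ∧ (cm c (Function.update T i e)).det ≠ 0) ∧
  ∀ e, (∀ j, T j ≠ e) → ∑ j, c e j * vtx c a T j = a e →
    ∃ i, e < T i ∧ (cm c (Function.update T i e)).det ≠ 0

/-- The index set. -/
def IxT (c : Fin (m + 1) → Fin (n + 1) → K) (a : Fin (m + 1) → K) : Type :=
  {T : Fin (n + 1) → Fin (m + 1) // NbcT c a T}

noncomputable instance (c : Fin (m + 1) → Fin (n + 1) → K) (a : Fin (m + 1) → K) :
    Fintype (IxT c a) := by
  classical
  exact inferInstanceAs (Fintype {T : Fin (n + 1) → Fin (m + 1) // NbcT c a T})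

noncomputable instance (c : Fin (m + 1) → Fin (n + 1) → K) (a : Fin (m + 1) → K) :
    DecidableEq (IxT c a) := Classical.decEq _

end comb

section defs

variable {K : Type*} [Field K] {n m : ℕ}

/-- The polynomial `λ g ∏_e L_e`, where `L_e = ∑_j c_{e,j} x_j - a_e`. -/
noncomputable def gPhi (lam : K) (g : MvPolynomial (Fin (n + 1)) K)
    (c : Fin (m + 1) → Fin (n + 1) → K) (a : Fin (m + 1) → K) : MvPolynomial (Fin (n + 1)) K :=
  MvPolynomial.C lam * (g * ∏ e, lf c a e)

theorem lf_dvd (lam : K) (g : MvPolynomial (Fin (n + 1)) K)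
    (c : Fin (m + 1) → Fin (n + 1) → K) (a : Fin (m + 1) → K) (e : Fin (m + 1)) :
    lf c a e ∣ gPhi lam g c a :=
  Dvd.dvd.mul_left (Dvd.dvd.mul_left (Finset.dvd_prod_of_mem _ (Finset.mem_univ e)) _) _

variable {q : ℕ} (W : Lau K (q + 1)) (lam : K) (g : MvPolynomial (Fin (n + 1)) K)
    (c : Fin (m + 1) → Fin (n + 1) → K) (a : Fin (m + 1) → K)

/-- The unit `L_e` on the open part of the hypersurface `W(z) = λ g ∏_e L_e`. -/
noncomputable def uL (e : Fin (m + 1)) : (HOpen W (gPhi lam g c a))ˣ :=
  ou W (gPhi lam g c a) (lf c a e) (lf_dvd lam g c a e)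

/-- The entries `κ_k L_{T k} / L_{hi k}` of the symbol of the basis `T`, `k = 0, ..., n`. -/
noncomputable def bent (T : Fin (n + 1) → Fin (m + 1)) (k : Fin (n + 1)) :
    (HOpen W (gPhi lam g c a))ˣ :=
  oc W (gPhi lam g c a) (ku (kapT c T k)) * uL W lam g c a (T k) / uL W lam g c a (hiT c T k)

end defs

/-- There are tori of dimension `n + 1 + q` in the complex points over `σ` of the open part of the
hypersurface `W(z) = λ g ∏_e L_e`, indexed by the bases of the arrangement without broken circuits,
such that at each point of the tori some partial derivative `∂Φ/∂x_j` does not vanish, where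
`Φ = λ g ∏_e L_e`, and the determinant of the regulators on the tori of the symbols of these bases
does not vanish. -/
def IndepReg {K : Type*} [Field K] {n m q : ℕ} (σ : K →+* ℂ) (W : Lau K (q + 1)) (lam : K)
    (g : MvPolynomial (Fin (n + 1)) K) (c : Fin (m + 1) → Fin (n + 1) → K)
    (a : Fin (m + 1) → K) : Prop :=
  ∃ Γ : IxT c a → Torus (HOpen W (gPhi lam g c a)) (n + 1 + q),
    (∀ T θ (x : K), (Γ T).e θ (ocst W (gPhi lam g c a) x) = σ x) ∧
    (∀ T θ, ∃ j, (Γ T).e θ (opol W (gPhi lam g c a)
      (MvPolynomial.pderiv j (gPhi lam g c a))) ≠ 0) ∧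
    (Matrix.of fun T T' : IxT c a =>
      (Γ T).reg (symb (hent (bent W lam g c a T'.1)))).det ≠ 0

end Pool.Agent.Q212.LF
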