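import Pool.Agent.Q212.LF.Ring
set_option autoImplicit false

/-!
Irreducibility of the hypersurfaces `W(z) = Φ(x)`.
-/

namespace Pool.Agent.Q212.LF

section contraction

variable {R k : Type*} [CommRing R] [Field k] [Algebra R k] [IsFractionRing R k]
  {n : ℕ}

open MvPolynomial in
theorem dvd_of_map_dvd {F a : MvPolynomial (Fin n) R}
    (hF : IsUnit (MonomialOrder.lex.leadingCoeff F))
    (h : map (algebraMap R k) F ∣ map (algebraMap R k) a) : F ∣ a := by
  have hinj : Function.Injective (algebraMap R k) := IsFractionRing.injective R k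
  have hdeg : ∀ p : MvPolynomial (Fin n) R,
      MonomialOrder.lex.degree (map (algebraMap R k) p) = MonomialOrder.lex.degree p := by
    intro p
    unfold MonomialOrder.degree
    rw [support_map_of_injective _ hinj]
  obtain ⟨g, r, hgr, -, hr⟩ := MonomialOrder.div_single hF a
  have hr0 : r = 0 := by
    by_contra hne
    obtain ⟨b, hb⟩ := h
    have h1 : map (algebraMap R k) r = map (algebraMap R k) F *
        (b - map (algebraMap R k) g) := by
      rw [mul_sub, ← hb, hgr, map_add, map_mul]
      ring
    have hmr : map (algebraMap R k) r ≠ 0 := by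
      intro h0
      exact hne (map_injective _ hinj (by rw [h0, map_zero]))
    have hF0 : map (algebraMap R k) F ≠ 0 := by
      intro h0
      rw [h0, zero_mul] at h1
      exact hmr h1
    have hb0 : b - map (algebraMap R k) g ≠ 0 := by
      intro h0
      rw [h0, mul_zero] at h1
      exact hmr h1
    have h2 := MonomialOrder.lex.degree_mul hF0 hb0
    rw [← h1, hdeg, hdeg] at h2
    have h3 := (MonomialOrder.lex.degree_mem_support_iff r).2 hne
    exact hr _ h3 (by rw [h2]; exact le_self_add)
  rw [hgr, hr0, add_zero]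
  exact dvd_mul_left _ _

open MvPolynomial in
theorem prime_of_map_irreducible {F : MvPolynomial (Fin n) R}
    (hF : IsUnit (MonomialOrder.lex.leadingCoeff F))
    (h : Irreducible (map (algebraMap R k) F)) : Prime F := by
  have hp : Prime (map (algebraMap R k) F) := h.prime
  refine ⟨?_, fun hu => hp.not_isUnit (hu.map _), fun a b hab => ?_⟩
  · rintro rfl
    exact hp.ne_zero (map_zero _)
  · have h1 := map_dvd (map (algebraMap R k)) hab
    rw [map_mul] at h1
    rcases hp.dvd_or_dvd h1 with h2 | h2
    · exact Or.inl (dvd_of_map_dvd hF h2)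
    · exact Or.inr (dvd_of_map_dvd hF h2)

end contraction

section irr

variable {k : Type*} [Field k] {n : ℕ} {ι : Type*} [Fintype ι]

open MvPolynomial in
/-- A product of primes, modulo each of which the units are constant, such that any two of them
have common zeros with a third one, minus a nonzero constant, is irreducible. -/
theorem irreducible_sub_C (p : ι → MvPolynomial (Fin n) k)
    (r : ι → (MvPolynomial (Fin n) k →ₐ[k] MvPolynomial (Fin n) k))
    (h1 : ∀ e, r e (p e) = 0) (h2 : ∀ e f, p e ∣ f - r e f)
    (h3 : ∀ e, 0 < (p e).totalDegree) (h4 : ∀ e e', e ≠ e' → ¬ p e ∣ p e')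
    (h5 : ∀ e e', ∃ f, (∃ x : Fin n → k, eval x (p e) = 0 ∧ eval x (p f) = 0) ∧
      ∃ x : Fin n → k, eval x (p f) = 0 ∧ eval x (p e') = 0) (e0 : ι)
    {h : MvPolynomial (Fin n) k} (hh0 : h ≠ 0) (hdeg : h.totalDegree < (∏ e, p e).totalDegree)
    {t : k} (ht : t ≠ 0) : Irreducible (h * ∏ e, p e - C t) := by
  classical
  have hp0 : ∀ e, p e ≠ 0 := by
    intro e he
    have := h3 e
    rw [he, totalDegree_zero] at this
    exact lt_irrefl _ this
  have hprime : ∀ e, ∀ a b, p e ∣ a * b → p e ∣ a ∨ p e ∣ b := by
    intro e a b hab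
    obtain ⟨c, hc⟩ := hab
    have h6 : r e a * r e b = 0 := by
      rw [← map_mul, hc, map_mul, h1, zero_mul]
    rcases mul_eq_zero.1 h6 with h7 | h7
    · left
      have := h2 e a
      rwa [h7, sub_zero] at this
    · right
      have := h2 e b
      rwa [h7, sub_zero] at this
  have hnu : ∀ e, ¬ IsUnit (p e) := by
    intro e hu
    have := hu.map (r e)
    rw [h1] at this
    exact not_isUnit_zero this
  set P : MvPolynomial (Fin n) k := ∏ e, p e with hP
  have hP0 : P ≠ 0 := Finset.prod_ne_zero_iff.2 fun e _ => hp0 e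
  have hPpos : 0 < P.totalDegree := lt_of_le_of_lt (Nat.zero_le _) hdeg
  have hrP : ∀ e, r e P = 0 := by
    intro e
    rw [hP, map_prod]
    exact Finset.prod_eq_zero (Finset.mem_univ e) (h1 e)
  have hprod : ∀ X : MvPolynomial (Fin n) k, (∀ e, p e ∣ X) → P ∣ X := by
    intro X hX
    have key : ∀ s : Finset ι, ∏ e ∈ s, p e ∣ X := by
      intro s
      induction s using Finset.induction_on with
      | empty => rw [Finset.prod_empty]; exact one_dvd _
      | insert e s he ih =>
        obtain ⟨Y, hY⟩ := ih
        have hd := hX e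
        rw [hY] at hd
        rcases hprime e _ _ hd with h6 | h6
        · exfalso
          have key2 : ∀ s' : Finset ι, e ∉ s' → ¬ p e ∣ ∏ e ∈ s', p e := by
            intro s'
            induction s' using Finset.induction_on with
            | empty =>
              intro _ h7
              rw [Finset.prod_empty] at h7
              exact hnu e (isUnit_of_dvd_one h7)
            | insert e' s' he' ih' =>
              intro hes h7
              rw [Finset.prod_insert he'] at h7
              rcases hprime e _ _ h7 with h8 | h8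
              · exact h4 e e' (fun h9 => hes (h9 ▸ Finset.mem_insert_self _ _)) h8
              · exact ih' (fun h9 => hes (Finset.mem_insert_of_mem h9)) h8
          exact key2 s he h6
        · obtain ⟨Z, hZ⟩ := h6
          refine ⟨Z, ?_⟩
          rw [Finset.prod_insert he, hY, hZ]
          ring
    exact key Finset.univ
  have hconst : ∀ G H : MvPolynomial (Fin n) k, h * P - C t = G * H →
      ∃ c d : k, ∃ a b : MvPolynomial (Fin n) k, c * d = -t ∧ G = C c + P * a ∧
        H = C d + P * b := by
    intro G H hGH
    have hunit : ∀ e, r e G * r e H = C (-t) := by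
      intro e
      rw [← map_mul, ← hGH, map_sub, map_mul, hrP, mul_zero, zero_sub]
      have h6 : r e (C t) = C t := (r e).commutes t
      rw [h6, C_neg]
    have hu : IsUnit (C (-t) : MvPolynomial (Fin n) k) :=
      (IsUnit.mk0 (-t) (neg_ne_zero.2 ht)).map C
    have hG : ∀ e, ∃ c : k, r e G = C c := by
      intro e
      have h6 : IsUnit (r e G) := isUnit_of_dvd_unit ⟨r e H, (hunit e).symm⟩ hu
      obtain ⟨c, -, hc⟩ := isUnit_iff_eq_C_of_isReduced.1 h6
      exact ⟨c, hc⟩
    have hH : ∀ e, ∃ c : k, r e H = C c := by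
      intro e
      have h6 : IsUnit (r e H) :=
        isUnit_of_dvd_unit ⟨r e G, by rw [mul_comm, hunit e]⟩ hu
      obtain ⟨c, -, hc⟩ := isUnit_iff_eq_C_of_isReduced.1 h6
      exact ⟨c, hc⟩
    choose c hc using hG
    choose d hd using hH
    have heq : ∀ (X : MvPolynomial (Fin n) k) (c : ι → k), (∀ e, r e X = C (c e)) → ∀ e,
        c e = c e0 := by
      intro X c hX e
      obtain ⟨f, ⟨x, hx1, hx2⟩, y, hy1, hy2⟩ := h5 e e0
      have h6 : ∀ x e', eval x (p e') = 0 → eval x X = c e' := by
        intro x e' he'
        obtain ⟨Y, hY⟩ := h2 e' X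
        have h7 := congrArg (eval x) hY
        rw [hX, map_sub, eval_C, map_mul, he', zero_mul, sub_eq_zero] at h7
        exact h7
      rw [← h6 x e hx1, h6 x f hx2, ← h6 y f hy1, h6 y e0 hy2]
    have hdG : P ∣ G - C (c e0) := hprod _ fun e => by
      have := h2 e G
      rwa [hc e, heq G c hc e] at this
    have hdH : P ∣ H - C (d e0) := hprod _ fun e => by
      have := h2 e H
      rwa [hd e, heq H d hd e] at this
    obtain ⟨a, ha⟩ := hdG
    obtain ⟨b, hb⟩ := hdH
    refine ⟨c e0, d e0, a, b, ?_, by rw [← ha]; ring, by rw [← hb]; ring⟩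
    have h6 := hunit e0
    rw [hc, hd, ← C_mul] at h6
    exact C_injective _ _ h6
  have htd : ∀ a b : MvPolynomial (Fin n) k, a ≠ 0 → b ≠ 0 →
      (a * b).totalDegree = a.totalDegree + b.totalDegree := fun a b ha hb =>
    totalDegree_mul_of_isDomain ha hb
  refine ⟨fun hu => ?_, fun G H hGH => ?_⟩
  · obtain ⟨c, -, hc⟩ := isUnit_iff_eq_C_of_isReduced.1 hu
    have h6 : h * P = C (c + t) := by
      rw [C_add, ← hc]
      ring
    have h7 := htd h P hh0 hP0
    rw [h6, totalDegree_C] at h7
    omega
  · obtain ⟨c, d, a, b, hcd, hG, hH⟩ := hconst G H hGH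
    have hc0 : c ≠ 0 := by
      rintro rfl
      rw [zero_mul] at hcd
      exact ht (neg_eq_zero.1 hcd.symm)
    have hd0 : d ≠ 0 := by
      rintro rfl
      rw [mul_zero] at hcd
      exact ht (neg_eq_zero.1 hcd.symm)
    by_cases ha : a = 0
    · left
      rw [hG, ha, mul_zero, add_zero]
      exact (IsUnit.mk0 c hc0).map C
    by_cases hb : b = 0
    · right
      rw [hH, hb, mul_zero, add_zero]
      exact (IsUnit.mk0 d hd0).map C
    exfalso
    have h6 : h = (C c * b + C d * a) + P * (a * b) := by
      refine mul_right_cancel₀ hP0 ?_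
      have h7 : (C c * C d : MvPolynomial (Fin n) k) = - C t := by
        rw [← C_mul, hcd, C_neg]
      rw [hG, hH] at hGH
      linear_combination hGH + h7
    have hab : (P * (a * b)).totalDegree = P.totalDegree + (a.totalDegree + b.totalDegree) := by
      rw [htd _ _ hP0 (mul_ne_zero ha hb), htd _ _ ha hb]
    have hlt : (C c * b + C d * a).totalDegree < (P * (a * b)).totalDegree := by
      rw [hab]
      refine (totalDegree_add _ _).trans_lt (max_lt ?_ ?_)
      · refine (totalDegree_mul _ _).trans_lt ?_
        rw [totalDegree_C]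
        omega
      · refine (totalDegree_mul _ _).trans_lt ?_
        rw [totalDegree_C]
        omega
    have h8 := totalDegree_add_eq_right_of_totalDegree_lt hlt
    rw [← h6, hab] at h8
    omega

end irr

section domain

instance {K : Type*} [Field K] {q : ℕ} : IsDomain (Lau K q) :=
  inferInstanceAs (IsDomain (AddMonoidAlgebra K (Fin q → ℤ)))

open MvPolynomial in
theorem isDomain_HRing {K : Type*} [Field K] {n q : ℕ} {W : Lau K q}
    {Φ : MvPolynomial (Fin n) K} (hΦ : Φ.totalDegree ≠ 0)
    (hirr : Irreducible (map ((algebraMap (Lau K q) (FractionRing (Lau K q))).comp lcst) Φ -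
      C (algebraMap (Lau K q) (FractionRing (Lau K q)) W))) : IsDomain (HRing W Φ) := by
  have hinj : Function.Injective (lcst : K →+* Lau K q) := (lcst : K →+* Lau K q).injective
  have hdeg0 : MonomialOrder.lex.degree Φ ≠ 0 := fun h =>
    hΦ (MonomialOrder.degree_eq_zero_iff_totalDegree_eq_zero.1 h)
  have hdeg : MonomialOrder.lex.degree (map (lcst : K →+* Lau K q) Φ) =
      MonomialOrder.lex.degree Φ := by
    unfold MonomialOrder.degree
    rw [support_map_of_injective _ hinj]
  have hF : heqn W Φ = map lcst Φ + C (-W) := by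
    unfold heqn
    rw [C_neg, sub_eq_add_neg]
  have hlc : IsUnit (MonomialOrder.lex.leadingCoeff (heqn W Φ)) := by
    have hlt : (MonomialOrder.lex).toSyn (MonomialOrder.lex.degree
        (C (-W) : MvPolynomial (Fin n) (Lau K q))) <
        (MonomialOrder.lex).toSyn (MonomialOrder.lex.degree
          (map (lcst : K →+* Lau K q) Φ)) := by
      rw [MonomialOrder.degree_C, hdeg, map_zero]
      refine lt_of_le_of_ne (MonomialOrder.zero_le _ _) fun h0 => hdeg0 ?_
      rwa [eq_comm, map_eq_zero_iff _ (MonomialOrder.lex).toSyn.injective] at h0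
    rw [hF, MonomialOrder.leadingCoeff_add_of_lt hlt]
    unfold MonomialOrder.leadingCoeff
    rw [hdeg, coeff_map]
    refine IsUnit.map _ (IsUnit.mk0 _ ?_)
    rw [MonomialOrder.coeff_degree_ne_zero_iff]
    rintro rfl
    exact hΦ totalDegree_zero
  have hprime : Prime (heqn W Φ) := by
    refine prime_of_map_irreducible (k := FractionRing (Lau K q)) hlc ?_
    unfold heqn
    rw [map_sub, map_C, map_map]
    exact hirr
  have hp : (Ideal.span {heqn W Φ}).IsPrime :=
    (Ideal.span_singleton_prime hprime.ne_zero).2 hprime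
  exact Ideal.Quotient.isDomain _

end domain

end Pool.Agent.Q212.LF
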