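import Pool.Agent.Q212.LF.AArr
import Pool.Agent.Q212.LF.Dom
import Pool.Agent.TH577.UA.Dom
set_option autoImplicit false

/-!
The hypersurfaces `W(z) = λ g(x) ∏_e L_e(x)` are irreducible if there are at least two variables `x`
and the degree of `g` is less than the number of the forms.
-/

namespace Pool.Agent.Q212.LF

open Pool.Agent.TH826.GA (cm lf al)

open Pool.Agent.TH577.UA (sum_al det_update exists_basis)

section irr

variable {k : Type*} [Field k] {n m : ℕ} {c : Fin (m + 1) → Fin (n + 1) → k}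
  {a : Fin (m + 1) → k}

theorem eval_lf' (x : Fin (n + 1) → k) (e : Fin (m + 1)) :
    MvPolynomial.eval x (lf c a e) = ∑ j, c e j * x j - a e := by
  unfold lf
  rw [map_sub, map_sum, MvPolynomial.eval_C]
  simp only [map_mul, MvPolynomial.eval_C, MvPolynomial.eval_X]

theorem exists_solution {T : Fin (n + 1) → Fin (m + 1)} (hT : (cm c T).det ≠ 0)
    (w : Fin (n + 1) → k) : ∃ x : Fin (n + 1) → k, ∀ p,
      MvPolynomial.eval x (lf c a (T p)) = w p := by
  refine ⟨(cm c T)⁻¹.mulVec (fun p => w p + a (T p)), fun p => ?_⟩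
  have h1 : (cm c T).mulVec ((cm c T)⁻¹.mulVec fun p => w p + a (T p)) =
      fun p => w p + a (T p) := by
    rw [Matrix.mulVec_mulVec, Matrix.mul_nonsing_inv _ (isUnit_iff_ne_zero.2 hT),
      Matrix.one_mulVec]
  have h2 := congrFun h1 p
  set x := (cm c T)⁻¹.mulVec (fun p => w p + a (T p)) with hx
  have h3 : (cm c T).mulVec x p = ∑ j, c (T p) j * x j := rfl
  rw [h3] at h2
  rw [eval_lf', h2, add_sub_cancel_right]

theorem totalDegree_lf_le (e : Fin (m + 1)) : (lf c a e).totalDegree ≤ 1 := by
  unfold lf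
  refine (MvPolynomial.totalDegree_sub _ _).trans (max_le ?_ ?_)
  · refine MvPolynomial.totalDegree_finsetSum_le fun j _ => ?_
    refine (MvPolynomial.totalDegree_mul _ _).trans ?_
    rw [MvPolynomial.totalDegree_C, MvPolynomial.totalDegree_X]
  · rw [MvPolynomial.totalDegree_C]
    exact Nat.zero_le _

theorem lf_ne_C' {e : Fin (m + 1)} (he : ∃ j, c e j ≠ 0) (y : k) :
    lf c a e ≠ MvPolynomial.C y := by
  intro h
  obtain ⟨j, hj⟩ := he
  have h1 := congrArg (MvPolynomial.eval 0) h
  have h2 := congrArg (MvPolynomial.eval (Pi.single j 1)) h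
  rw [eval_lf', MvPolynomial.eval_C] at h1 h2
  simp only [Pi.zero_apply, mul_zero, Finset.sum_const_zero, zero_sub] at h1
  rw [Finset.sum_eq_single j] at h2
  · rw [Pi.single_eq_same, mul_one] at h2
    apply hj
    linear_combination h2 - h1
  · intro i _ hi
    rw [Pi.single_eq_of_ne hi, mul_zero]
  · intro h
    exact absurd (Finset.mem_univ _) h

theorem not_lf_dvd (hD : Dist c a) (hne : ∀ e, ∃ j, c e j ≠ 0) {e e' : Fin (m + 1)}
    (hee : e ≠ e') : ¬ lf c a e ∣ lf c a e' := by
  rintro ⟨y, hy⟩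
  have hp0 : ∀ e, lf c a e ≠ 0 := fun e h0 => lf_ne_C' (hne e) 0 (by rw [h0, map_zero])
  have hy0 : y ≠ 0 := by
    rintro rfl
    rw [mul_zero] at hy
    exact hp0 e' hy
  have h1 := congrArg MvPolynomial.totalDegree hy
  rw [MvPolynomial.totalDegree_mul_of_isDomain (hp0 e) hy0] at h1
  have h2 := totalDegree_lf_le (c := c) (a := a) e'
  have h3 : 0 < (lf c a e).totalDegree := by
    rw [Nat.pos_iff_ne_zero]
    intro h0
    exact lf_ne_C' (hne e) _ (MvPolynomial.totalDegree_eq_zero_iff_eq_C.1 h0)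
  have h4 := MvPolynomial.totalDegree_eq_zero_iff_eq_C.1 (show y.totalDegree = 0 by omega)
  set κ := y.coeff 0 with hκ
  rw [h4] at hy
  have h5 : a e' = κ * a e := by
    have h6 := congrArg (MvPolynomial.eval 0) hy
    rw [map_mul, eval_lf', eval_lf', MvPolynomial.eval_C] at h6
    simp only [Pi.zero_apply, mul_zero, Finset.sum_const_zero, zero_sub] at h6
    linear_combination -h6
  refine hD e' e hee.symm κ ⟨fun j => ?_, h5⟩
  have h6 := congrArg (MvPolynomial.eval (Pi.single j 1)) hy
  have h7 : ∀ e, ∑ i, c e i * (Pi.single j 1 : Fin (n + 1) → k) i = c e j := by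
    intro e
    rw [Finset.sum_eq_single j]
    · rw [Pi.single_eq_same, mul_one]
    · intro i _ hi
      rw [Pi.single_eq_of_ne hi, mul_zero]
    · intro h
      exact absurd (Finset.mem_univ _) h
  rw [map_mul, eval_lf', eval_lf', MvPolynomial.eval_C, h7, h7] at h6
  linear_combination h6 + h5

theorem exists_link (hR : ∃ T : Fin (n + 1) → Fin (m + 1), (cm c T).det ≠ 0) (hn : 1 ≤ n)
    (hne : ∀ e, ∃ j, c e j ≠ 0) (e e' : Fin (m + 1)) :
    ∃ f, (∃ x : Fin (n + 1) → k, MvPolynomial.eval x (lf c a e) = 0 ∧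
        MvPolynomial.eval x (lf c a f) = 0) ∧
      ∃ x : Fin (n + 1) → k, MvPolynomial.eval x (lf c a f) = 0 ∧
        MvPolynomial.eval x (lf c a e') = 0 := by
  classical
  obtain ⟨T, hT, hT0⟩ := exists_basis hR (hne e) 0
  set i1 : Fin (n + 1) := ⟨1, by omega⟩ with hi1
  have h01 : (0 : Fin (n + 1)) ≠ i1 := by
    intro h
    have := congrArg Fin.val h
    simp [hi1] at this
  by_cases hal : al c T e' i1 = 0
  · obtain ⟨i, hi⟩ : ∃ i, al c T e' i ≠ 0 := by
      by_contra hcon
      push Not at hcon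
      obtain ⟨j, hj⟩ := hne e'
      apply hj
      rw [sum_al hT e' j]
      exact Finset.sum_eq_zero fun l _ => by rw [hcon l, zero_mul]
    have hii : i ≠ i1 := by
      rintro rfl
      exact hi hal
    refine ⟨T i1, ?_, ?_⟩
    · obtain ⟨x, hx⟩ := exists_solution (a := a) hT 0
      have h1 := hx 0
      rw [hT0] at h1
      exact ⟨x, h1, hx i1⟩
    · have hT' : (cm c (Function.update T i e')).det ≠ 0 := by
        rw [det_update hT]
        exact mul_ne_zero hi hT
      obtain ⟨x, hx⟩ := exists_solution (a := a) hT' 0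
      have h1 := hx i1
      have h2 := hx i
      rw [Function.update_of_ne hii.symm] at h1
      rw [Function.update_self] at h2
      exact ⟨x, h1, h2⟩
  · have hT' : (cm c (Function.update T i1 e')).det ≠ 0 := by
      rw [det_update hT]
      exact mul_ne_zero hal hT
    obtain ⟨x, hx⟩ := exists_solution (a := a) hT' 0
    have h1 := hx 0
    have h2 := hx i1
    rw [Function.update_of_ne h01, hT0] at h1
    rw [Function.update_self] at h2
    exact ⟨e', ⟨x, h1, h2⟩, x, h2, h2⟩

theorem irreducible_arr (hR : ∃ T : Fin (n + 1) → Fin (m + 1), (cm c T).det ≠ 0)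
    (hD : Dist c a) (hrow : ∀ e, ∃ j, c e j ≠ 0)
    (hn : 1 ≤ n) {h : MvPolynomial (Fin (n + 1)) k} (hh0 : h ≠ 0)
    (hdeg : h.totalDegree ≤ m) {t : k} (ht : t ≠ 0) :
    Irreducible (h * ∏ e, lf c a e - MvPolynomial.C t) := by
  classical
  have hne := hrow
  choose j hj using hrow
  set rX : Fin (m + 1) → Fin (n + 1) → MvPolynomial (Fin (n + 1)) k := fun e i =>
    if i = j e then MvPolynomial.X (j e) - MvPolynomial.C (c e (j e))⁻¹ * lf c a e
      else MvPolynomial.X i with hrX
  set r : Fin (m + 1) → (MvPolynomial (Fin (n + 1)) k →ₐ[k] MvPolynomial (Fin (n + 1)) k) :=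
    fun e => MvPolynomial.aeval (rX e) with hr
  have hrXe : ∀ e i, MvPolynomial.X i - rX e i =
      (if i = j e then MvPolynomial.C (c e (j e))⁻¹ else 0) * lf c a e := by
    intro e i
    simp only [hrX]
    split_ifs with hi
    · rw [hi]
      ring
    · ring
  have hrC : ∀ e y, r e (MvPolynomial.C y) = MvPolynomial.C y := fun e y => (r e).commutes y
  have hrXX : ∀ e i, r e (MvPolynomial.X i) = rX e i := fun e i => MvPolynomial.aeval_X _ _
  have h1 : ∀ e, r e (lf c a e) = 0 := by
    intro e
    have h2 : r e (lf c a e) = lf c a e -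
        ∑ i, MvPolynomial.C (c e i) * (MvPolynomial.X i - rX e i) := by
      conv_lhs => unfold lf
      conv_rhs => unfold lf
      rw [map_sub, map_sum, hrC]
      simp only [map_mul, hrC, hrXX, mul_sub, Finset.sum_sub_distrib]
      ring
    rw [h2]
    simp only [hrXe]
    rw [Finset.sum_eq_single (j e)]
    · rw [if_pos rfl, ← mul_assoc, ← MvPolynomial.C_mul, mul_inv_cancel₀ (hj e),
        MvPolynomial.C_1, one_mul, sub_self]
    · intro i _ hi
      rw [if_neg hi, zero_mul, mul_zero]
    · intro hi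
      exact absurd (Finset.mem_univ _) hi
  have h2 : ∀ e f, lf c a e ∣ f - r e f := by
    intro e f
    induction f using MvPolynomial.induction_on with
    | C y =>
      rw [hrC, sub_self]
      exact dvd_zero _
    | add p q hp hq =>
      rw [map_add]
      have e1 : p + q - (r e p + r e q) = (p - r e p) + (q - r e q) := by ring
      rw [e1]
      exact dvd_add hp hq
    | mul_X p i hp =>
      rw [map_mul, hrXX]
      have e1 : p * MvPolynomial.X i - r e p * rX e i =
          (p - r e p) * MvPolynomial.X i + r e p * (MvPolynomial.X i - rX e i) := by ring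
      rw [e1, hrXe]
      exact dvd_add (hp.mul_right _) ((dvd_mul_left _ _).mul_left _)
  have h3 : ∀ e, 0 < (lf c a e).totalDegree := by
    intro e
    rw [Nat.pos_iff_ne_zero]
    intro h0
    exact lf_ne_C' ⟨j e, hj e⟩ _ (MvPolynomial.totalDegree_eq_zero_iff_eq_C.1 h0)
  have hp0 : ∀ e, lf c a e ≠ 0 := fun e h0 => lf_ne_C' ⟨j e, hj e⟩ 0 (by rw [h0, map_zero])
  have hprod : ∀ s : Finset (Fin (m + 1)), s.card ≤ (∏ e ∈ s, lf c a e).totalDegree := by
    intro s
    induction s using Finset.induction_on with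
    | empty => simp
    | insert e s he ih =>
      rw [Finset.card_insert_of_notMem he, Finset.prod_insert he,
        MvPolynomial.totalDegree_mul_of_isDomain (hp0 e)
          (Finset.prod_ne_zero_iff.2 fun e _ => hp0 e)]
      have := h3 e
      omega
  have h6 := hprod Finset.univ
  rw [Finset.card_univ, Fintype.card_fin] at h6
  exact irreducible_sub_C (lf c a) r h1 h2 h3 (fun e e' hee => not_lf_dvd hD hne hee)
    (fun e e' => exists_link hR hn hne e e') 0 hh0 (by omega) ht

end irr

section dom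

variable {K : Type*} [Field K] {n m q : ℕ}

theorem map_lf {k : Type*} [Field k] (φ : K →+* k) (c : Fin (m + 1) → Fin (n + 1) → K)
    (a : Fin (m + 1) → K) (e : Fin (m + 1)) : MvPolynomial.map φ (lf c a e) =
      lf (fun e j => φ (c e j)) (fun e => φ (a e)) e := by
  unfold lf
  rw [map_sub, map_sum]
  simp only [map_mul, MvPolynomial.map_C, MvPolynomial.map_X]

theorem distinct_map {k : Type*} [Field k] (φ : K →+* k) {c : Fin (m + 1) → Fin (n + 1) → K}
    {a : Fin (m + 1) → K} (hD : Dist c a) (hne : ∀ e, ∃ j, c e j ≠ 0) :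
    Dist (fun e j => φ (c e j)) (fun e => φ (a e)) := by
  rintro e e' hee κ ⟨h1, h2⟩
  obtain ⟨j, hj⟩ := hne e'
  have hj' : φ (c e' j) ≠ 0 := (map_ne_zero φ).2 hj
  have hκ : κ = φ (c e j / c e' j) := by
    rw [map_div₀]
    exact eq_div_of_mul_eq hj' (h1 j).symm
  refine hD e e' hee (c e j / c e' j) ⟨fun i => φ.injective ?_, φ.injective ?_⟩
  · rw [map_mul, ← hκ]
    exact h1 i
  · rw [map_mul, ← hκ]
    exact h2

theorem isDomain_arr {W : Lau K q} (hW : W ≠ 0) {lam : K} (hlam : lam ≠ 0)
    {c : Fin (m + 1) → Fin (n + 1) → K} {a : Fin (m + 1) → K}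
    (hR : ∃ T : Fin (n + 1) → Fin (m + 1), (cm c T).det ≠ 0)
    (hD : Dist c a) (hne : ∀ e, ∃ j, c e j ≠ 0) (hn : 1 ≤ n)
    {g : MvPolynomial (Fin (n + 1)) K} (hg0 : g ≠ 0) (hgd : g.totalDegree ≤ m) :
    IsDomain (HRing W (gPhi lam g c a)) := by
  have hirr := irreducible_arr hR hD hne hn (h := MvPolynomial.C lam * g)
    (mul_ne_zero (fun h0 => hlam (MvPolynomial.C_injective _ _ (by rw [h0, map_zero]))) hg0)
    ((MvPolynomial.totalDegree_mul _ _).trans (by rw [MvPolynomial.totalDegree_C]; omega))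
    one_ne_zero
  refine isDomain_HRing ?_ ?_
  · intro h0
    refine hirr.not_isUnit ?_
    rw [MvPolynomial.totalDegree_eq_zero_iff_eq_C] at h0
    have h1 : MvPolynomial.C lam * g * ∏ e, lf c a e = gPhi lam g c a := by
      unfold gPhi
      rw [mul_assoc]
    rw [h1, h0, ← map_sub]
    refine IsUnit.map _ (IsUnit.mk0 _ fun h2 => ?_)
    have h3 := hirr.ne_zero
    rw [h1, h0, ← map_sub, h2, map_zero] at h3
    exact h3 rfl
  · set φ : K →+* FractionRing (Lau K q) :=
      (algebraMap (Lau K q) (FractionRing (Lau K q))).comp lcst with hφ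
    have h1 : MvPolynomial.map φ (gPhi lam g c a) =
        (MvPolynomial.C (φ lam) * MvPolynomial.map φ g) *
          ∏ e, lf (fun e j => φ (c e j)) (fun e => φ (a e)) e := by
      unfold gPhi
      rw [map_mul, map_mul, map_prod, MvPolynomial.map_C]
      simp only [map_lf]
      ring
    rw [h1]
    have hlam' : φ lam ≠ 0 := (map_ne_zero φ).2 hlam
    refine irreducible_arr ?_ (distinct_map φ hD hne) ?_ hn (mul_ne_zero
      (fun h0 => hlam' (MvPolynomial.C_injective _ _ (by rw [h0, map_zero]))) fun h0 => hg0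
        (MvPolynomial.map_injective _ φ.injective (by rw [h0, map_zero]))) ?_ ?_
    · obtain ⟨T, hT⟩ := hR
      refine ⟨T, ?_⟩
      have h2 : cm (fun e j => φ (c e j)) T = (cm c T).map φ := rfl
      have h3 : ((cm c T).map φ).det = φ (cm c T).det := (RingHom.map_det φ _).symm
      rw [h2, h3]
      exact (map_ne_zero φ).2 hT
    · intro e
      obtain ⟨j, hj⟩ := hne e
      exact ⟨j, (map_ne_zero φ).2 hj⟩
    · refine (MvPolynomial.totalDegree_mul _ _).trans ?_
      rw [MvPolynomial.totalDegree_C, zero_add]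
      refine le_trans ?_ hgd
      unfold MvPolynomial.totalDegree
      exact Finset.sup_mono (MvPolynomial.support_map_subset _ _)
    · intro h0
      exact hW (IsFractionRing.injective (Lau K q) (FractionRing (Lau K q))
        (by rw [h0, map_zero]))

end dom

end Pool.Agent.Q212.LF
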