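import Pool.Agent.Q212.LF.AArr
set_option autoImplicit false

/-!
The bases without broken circuits of the arrangements in general position.
-/

namespace Pool.Agent.Q212.LF

open Pool.Agent.TH826.GA (cm vtx be be_ne eval_vtx)

open Pool.Agent.Y797.IV (GenPos)

theorem nbc_iff {K : Type*} [Field K] {n m : ℕ} {c : Fin (m + 1) → Fin (n + 1) → K}
    {a : Fin (m + 1) → K} (hG : GenPos c a) (T : Fin (n + 1) → Fin (m + 1)) :
    NbcT c a T ↔ StrictMono T ∧ ∀ i, T i < Fin.last m := by
  classical
  constructor
  · intro h
    refine ⟨h.1, fun i => ?_⟩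
    obtain ⟨e, he, -⟩ := h.2.2.1 i
    exact he.trans_le (Fin.le_last e)
  · rintro ⟨hT, hl⟩
    refine ⟨hT, hG.1 T hT.injective, fun i => ⟨Fin.last m, hl i, hG.1 _ ?_⟩, fun e he h => ?_⟩
    · intro k l hkl
      by_cases hk : k = i
      · by_cases hl' : l = i
        · rw [hk, hl']
        · rw [hk, Function.update_self, Function.update_of_ne hl'] at hkl
          exact absurd hkl.symm (hl l).ne
      · by_cases hl' : l = i
        · rw [hl', Function.update_self, Function.update_of_ne hk] at hkl
          exact absurd hkl (hl k).ne
        · rw [Function.update_of_ne hk, Function.update_of_ne hl'] at hkl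
          exact hT.injective hkl
    · exfalso
      refine be_ne hG.1 hG.2 hT.injective he ?_
      rw [eval_vtx] at h
      show _ - a e = 0
      exact sub_eq_zero.2 h

end Pool.Agent.Q212.LF
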