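import Pool.Agent.TH690.SF.Milnor
set_option autoImplicit false

/-!
Symbols of monomials, and symbols `{z_0, ..., z_(q-1)}` for which a sum of monomials with affinely
independent exponents is of smaller order than its largest summand.
-/

namespace Pool.Agent.Q212.LF

open scoped WithZero

open Pool.Agent.TH826.MK

open Pool.Agent.TH826.SX (symb_self)

open Pool.Agent.TH826.EF (onePart onePart_le mem_onePart_of_sum_lt)

open Pool.Agent.TH690.SF (mem_onePart_of_comp)

section det

variable {L : Type*} [Field L] {q : ℕ}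

theorem update_toMul (a : Fin q → Additive Lˣ) (i : Fin q) (w : Additive Lˣ) :
    (fun j => (Function.update a i w j).toMul) =
        Function.update (fun j => (a j).toMul) i w.toMul := by
  funext j
  by_cases h : j = i
  · subst h; simp
  · simp [Function.update_of_ne h]

/-- The symbol as an alternating map. -/
noncomputable def symbAlt (L : Type*) [Field L] (q : ℕ) :
    AlternatingMap ℤ (Additive Lˣ) (KQ L q) (Fin q) where
  toFun a := symb fun i => (a i).toMul
  map_update_add' := by
    intro inst a i x y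
    obtain rfl : inst = instDecidableEqFin q := Subsingleton.elim _ _
    rw [update_toMul, update_toMul, update_toMul, toMul_add, symb_update_mul]
  map_update_smul' := by
    intro inst a i k x
    obtain rfl : inst = instDecidableEqFin q := Subsingleton.elim _ _
    rw [update_toMul, update_toMul, toMul_zsmul, symb_update_zpow, Int.cast_smul_eq_zsmul]
  map_eq_zero_of_eq' a i j h hij := symb_self _ hij (congrArg Additive.toMul h.symm)

theorem symbAlt_apply (a : Fin q → Additive Lˣ) :
    symbAlt L q a = symb fun i => (a i).toMul := rfl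

end det

section mo

variable {G : Type*} [CommGroup G] {q : ℕ}

/-- the monomial of exponent `v` -/
def mo (z : Fin q → G) (v : Fin q → ℤ) : G := ∏ l, z l ^ v l

theorem mo_add (z : Fin q → G) (v w : Fin q → ℤ) : mo z (v + w) = mo z v * mo z w := by
  unfold mo
  rw [← Finset.prod_mul_distrib]
  exact Finset.prod_congr rfl fun l _ => zpow_add _ _ _

theorem mo_zero (z : Fin q → G) : mo z 0 = 1 := by
  unfold mo
  simp

theorem mo_neg (z : Fin q → G) (v : Fin q → ℤ) : mo z (-v) = (mo z v)⁻¹ := by
  rw [eq_inv_iff_mul_eq_one, ← mo_add, neg_add_cancel, mo_zero]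

theorem mo_sub (z : Fin q → G) (v w : Fin q → ℤ) : mo z (v - w) = mo z v / mo z w := by
  rw [sub_eq_add_neg, mo_add, mo_neg, div_eq_mul_inv]

theorem mo_smul (z : Fin q → G) (k : ℤ) (v : Fin q → ℤ) : mo z (k • v) = mo z v ^ k := by
  unfold mo
  rw [← Finset.prod_zpow]
  refine Finset.prod_congr rfl fun l _ => ?_
  rw [Pi.smul_apply, smul_eq_mul, mul_comm, zpow_mul]

theorem mo_single (z : Fin q → G) (l : Fin q) : mo z (Pi.single l 1) = z l := by
  unfold mo
  rw [Finset.prod_eq_single l]
  · simp
  · intro j _ hj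
    rw [Pi.single_eq_of_ne hj, zpow_zero]
  · intro h
    exact absurd (Finset.mem_univ l) h

theorem map_mo {H : Type*} [CommGroup H] (f : G →* H) (z : Fin q → G) (v : Fin q → ℤ) :
    f (mo z v) = mo (fun l => f (z l)) v := by
  unfold mo
  rw [map_prod]
  exact Finset.prod_congr rfl fun l _ => map_zpow f _ _

/-- The exponents as a linear map. -/
def moLin (z : Fin q → G) : (Fin q → ℤ) →ₗ[ℤ] Additive G where
  toFun v := Additive.ofMul (mo z v)
  map_add' v w := by rw [mo_add, ofMul_mul]
  map_smul' k v := by rw [mo_smul, ofMul_zpow, eq_intCast, Int.cast_id]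

end mo

section symb

variable {L : Type*} [Field L] {q : ℕ}

/-- The symbol of monomials. -/
theorem symb_mo (z : Fin q → Lˣ) (M : Matrix (Fin q) (Fin q) ℤ) :
    symb (fun i => mo z (M i)) = (M.det : ℚ) • symb z := by
  have h : (symbAlt L q).compLinearMap (moLin z) =
      ((LinearMap.toSpanSingleton ℤ (KQ L q) (symb z)).compAlternatingMap
        (Matrix.detRowAlternating : AlternatingMap ℤ (Fin q → ℤ) ℤ (Fin q))) := by
    refine Module.Basis.ext_alternating (Pi.basisFun ℤ (Fin q)) fun v hv => ?_
    set σ : Equiv.Perm (Fin q) := Equiv.ofBijective v (Finite.injective_iff_bijective.1 hv) with hσ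
    have e : (fun i => Pi.basisFun ℤ (Fin q) (v i)) = (Pi.basisFun ℤ (Fin q)) ∘ σ := rfl
    rw [e, AlternatingMap.map_perm, AlternatingMap.map_perm]
    congr 1
    rw [AlternatingMap.compLinearMap_apply, symbAlt_apply,
      LinearMap.compAlternatingMap_apply, LinearMap.toSpanSingleton_apply]
    have e1 : (Matrix.detRowAlternating : AlternatingMap ℤ (Fin q → ℤ) ℤ (Fin q))
        (Pi.basisFun ℤ (Fin q)) = 1 := by
      have : (Matrix.detRowAlternating : AlternatingMap ℤ (Fin q → ℤ) ℤ (Fin q))
        (Pi.basisFun ℤ (Fin q)) = (1 : Matrix (Fin q) (Fin q) ℤ).det := by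
        show Matrix.det _ = _
        congr 1
        ext i j
        simp [Matrix.one_apply, Pi.single_apply, eq_comm]
      rw [this, Matrix.det_one]
    rw [e1, one_smul]
    congr 1
    funext i
    show mo z (Pi.basisFun ℤ (Fin q) i) = z i
    rw [Pi.basisFun_apply, mo_single]
  have h2 := congrArg (fun f : AlternatingMap ℤ (Fin q → ℤ) (KQ L q) (Fin q) =>
    f fun i => M i) h
  rw [Int.cast_smul_eq_zsmul]
  exact h2

/-- Roots of unity as factors of the entries do not matter. -/
theorem symb_mul_torsion (a τ : Fin q → Lˣ) {N : ℕ} (hN : N ≠ 0) (hτ : ∀ i, τ i ^ N = 1) :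
    symb (fun i => τ i * a i) = symb a := by
  have key : ∀ b : Fin q → Lˣ, symb (fun i => b i ^ N) = ((N : ℚ) ^ q) • symb b := by
    intro b
    have h := (symbAlt L q).toMultilinearMap.map_smul_univ (fun _ => (N : ℤ))
      fun i => Additive.ofMul (b i)
    simp only [AlternatingMap.coe_multilinearMap, symbAlt_apply, Finset.prod_const,
      Finset.card_univ, Fintype.card_fin] at h
    have e : (fun i => ((N : ℤ) • Additive.ofMul (b i)).toMul) = fun i => b i ^ N := by
      funext i
      rw [toMul_zsmul, toMul_ofMul, zpow_natCast]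
    rw [e] at h
    rw [h, ← Int.cast_smul_eq_zsmul ℚ]
    push_cast
    rfl
  have h1 := key (fun i => τ i * a i)
  have h2 : (fun i => (τ i * a i) ^ N) = fun i => a i ^ N := by
    funext i
    rw [mul_pow, hτ, one_mul]
  rw [h2, key a] at h1
  have hN' : ((N : ℚ) ^ q) ≠ 0 := pow_ne_zero _ (Nat.cast_ne_zero.2 hN)
  exact (smul_right_injective _ hN' h1).symm

end symb

section ext

theorem exists_snoc_extension {q : ℕ} : ∀ (k r : ℕ) (d : Fin r → Fin q → ℤ),
    LinearIndependent ℤ d → r + k = q →
      ∃ (κ : Fin r → Fin q) (M : Matrix (Fin q) (Fin q) ℤ), Function.Injective κ ∧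
        (∀ i, M (κ i) = d i) ∧ M.det ≠ 0 := by
  intro k
  induction k with
  | zero =>
    intro r d hd hr
    have hr' : r = q := by omega
    subst hr'
    refine ⟨id, Matrix.of d, Function.injective_id, fun i => rfl, ?_⟩
    intro h0
    obtain ⟨v, hv, hv2⟩ := Matrix.exists_vecMul_eq_zero_iff.2 h0
    apply hv
    have h1 : ∑ i, v i • d i = 0 := by
      funext j
      have h2 := congrFun hv2 j
      rw [Matrix.vecMul, dotProduct] at h2
      rw [Finset.sum_apply]
      simpa using h2
    exact funext fun i => Fintype.linearIndependent_iff.1 hd v h1 i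
  | succ k ih =>
    intro r d hd hr
    have hlt : r < Module.finrank ℤ (Fin q → ℤ) := by
      rw [Module.finrank_fin_fun]
      omega
    obtain ⟨x, hx⟩ := exists_linearIndependent_snoc_of_lt_finrank hd hlt
    obtain ⟨κ, M, hκ, hM, hdet⟩ := ih (r + 1) (Fin.snoc d x) hx (by omega)
    refine ⟨fun i => κ i.castSucc, M, fun i j h => Fin.castSucc_injective _ (hκ h), fun i => ?_,
      hdet⟩
    rw [hM, Fin.snoc_castSucc]

theorem exists_extension {q r : ℕ} (d : Fin r → Fin q → ℤ) (hd : LinearIndependent ℤ d) :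
    ∃ (κ : Fin r → Fin q) (M : Matrix (Fin q) (Fin q) ℤ), Function.Injective κ ∧
      (∀ i, M (κ i) = d i) ∧ M.det ≠ 0 := by
  have h := hd.fintype_card_le_finrank
  rw [Module.finrank_fin_fun, Fintype.card_fin] at h
  exact exists_snoc_extension (q - r) r d hd (by omega)

end ext

section kill

variable {L : Type*} [Field L] {q : ℕ}

theorem val_torsion (v : Valuation L ℤᵐ⁰) {x : L} {N : ℕ} (hN : N ≠ 0) (h : x ^ N = 1) :
    v x = 1 := by
  have h1 : v x ^ N = 1 := by rw [← map_pow, h, map_one]
  rcases lt_trichotomy (v x) 1 with h2 | h2 | h2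
  · exact absurd h1 (pow_lt_one₀ zero_le h2 hN).ne
  · exact h2
  · exact absurd h1 (one_lt_pow₀ h2 hN).ne'

theorem linearIndependent_of_affine {r : ℕ} {e : Fin (r + 1) → Fin q → ℤ}
    (he : AffineIndependent ℤ e) : LinearIndependent ℤ fun i : Fin r => e i.succ - e 0 := by
  have h := (affineIndependent_iff_linearIndependent_vsub ℤ e 0).1 he
  have h2 := h.comp (fun i : Fin r => (⟨i.succ, Fin.succ_ne_zero i⟩ : {x : Fin (r + 1) // x ≠ 0}))
    (fun i j hij => Fin.succ_injective _ (congrArg Subtype.val hij))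
  exact h2

/-- If a sum of monomials with affinely independent exponents and roots of unity as coefficients is
of smaller order than one of the monomials, the symbol of the variables lies in `onePart`. -/
theorem kill_affine (v : Valuation L ℤᵐ⁰) (z : Fin q → Lˣ) {r : ℕ}
    (e : Fin (r + 1) → Fin q → ℤ) (he : AffineIndependent ℤ e) (ε : Fin (r + 1) → Lˣ) {N : ℕ}
    (hN : N ≠ 0) (hε : ∀ i, ε i ^ N = 1) (l : Fin (r + 1))
    (h : v (∑ i, ((ε i * mo z (e i) : Lˣ) : L)) < v ((mo z (e l) : Lˣ) : L)) :
    symb z ∈ onePart v q := by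
  classical
  have hvε : ∀ i, v (ε i : L) = 1 := fun i => val_torsion v hN (by
    rw [← Units.val_pow_eq_pow_val, hε, Units.val_one])
  set m : Fin (r + 1) → Lˣ := fun i => ε i * mo z (e i) with hm
  have hvm : ∀ i, v (m i : L) = v ((mo z (e i) : Lˣ) : L) := by
    intro i
    rw [hm, Units.val_mul, map_mul, hvε, one_mul]
  obtain ⟨l', -, hl'⟩ := Finset.exists_max_image Finset.univ (fun k => v (m k : L))
    ⟨l, Finset.mem_univ l⟩
  have h1 : symb (fun k : Fin r => m k.succ / m 0) ∈ onePart v r :=
    mem_onePart_of_sum_lt v m l' (fun k => hl' k (Finset.mem_univ k)) (by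
      refine h.trans_le ?_
      rw [← hvm]
      exact hl' l (Finset.mem_univ l))
  obtain ⟨κ, M, hκ, hM, hdet⟩ := exists_extension _ (linearIndependent_of_affine he)
  set τ : Fin q → Lˣ := fun k => if hk : ∃ i, κ i = k then ε (hk.choose).succ / ε 0 else 1 with hτ
  have hτκ : ∀ i, τ (κ i) = ε i.succ / ε 0 := by
    intro i
    have hk : ∃ j, κ j = κ i := ⟨i, rfl⟩
    have h2 : hk.choose = i := hκ hk.choose_spec
    simp only [hτ]
    rw [dif_pos hk, h2]
  have hτN : ∀ k, τ k ^ N = 1 := by
    intro k
    simp only [hτ]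
    split_ifs with hk
    · rw [div_pow, hε, hε, div_one]
    · rw [one_pow]
  have h2 : symb (fun k => τ k * mo z (M k)) ∈ onePart v q := by
    refine mem_onePart_of_comp v _ hκ ?_
    have e1 : (fun i : Fin r => τ (κ i) * mo z (M (κ i))) = fun k : Fin r => m k.succ / m 0 := by
      funext i
      rw [hτκ, hM, mo_sub, hm, mul_div_mul_comm]
    rw [e1]
    exact h1
  rw [symb_mul_torsion _ τ hN hτN, symb_mo] at h2
  have h3 := (onePart v q).smul_mem ((M.det : ℚ)⁻¹) h2
  rwa [smul_smul, inv_mul_cancel₀ (Int.cast_ne_zero.2 hdet), one_smul] at h3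

/-- If some power of a monomial different from `1` is a one-unit, the symbol of the variables lies
in `onePart`. -/
theorem kill_pow (v : Valuation L ℤᵐ⁰) (z : Fin q → Lˣ) {u : Fin q → ℤ} (hu : u ≠ 0) {N : ℕ}
    (hN : N ≠ 0) (h : v (((mo z u : Lˣ) : L) ^ N - 1) < 1) : symb z ∈ onePart v q := by
  classical
  obtain ⟨l, hl⟩ := Function.ne_iff.1 hu
  have hlin : LinearIndependent ℤ (fun _ : Fin 1 => (N : ℤ) • u) := by
    refine Fintype.linearIndependent_iff.2 fun g hg i => ?_
    rw [Fin.sum_univ_one] at hg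
    have h1 := congrFun hg l
    simp only [Pi.smul_apply, smul_eq_mul, Pi.zero_apply, mul_eq_zero] at h1
    rcases h1 with h1 | h1 | h1
    · rwa [Subsingleton.elim i 0]
    · exact absurd h1 (Nat.cast_ne_zero.2 hN)
    · exact absurd h1 hl
  obtain ⟨κ, M, hκ, hM, hdet⟩ := exists_extension _ hlin
  have h2 : symb (fun k => mo z (M k)) ∈ onePart v q := by
    refine Submodule.subset_span ⟨_, κ 0, ?_, rfl⟩
    rw [hM, mo_smul, zpow_natCast, Units.val_pow_eq_pow_val]
    exact h
  rw [symb_mo] at h2
  have h3 := (onePart v q).smul_mem ((M.det : ℚ)⁻¹) h2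
  rwa [smul_smul, inv_mul_cancel₀ (Int.cast_ne_zero.2 hdet), one_smul] at h3

end kill

end Pool.Agent.Q212.LF
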