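import Pool.Agent.TH826.MK.Torus
set_option autoImplicit false

/-!
Laurent polynomials which are products of sums of monomials with affinely independent exponents and
of cyclotomic polynomials in a monomial, and the hypersurfaces `W(z) = Φ(x)` in the product of a
torus with the coordinates `z_0, ..., z_{q-1}` and an affine space with the coordinates
`x_0, ..., x_{n-1}`.
-/

namespace Pool.Agent.Q212.LF

open Pool.Agent.TH826.MK (KQ symb Unramified)

/-- The ring of the Laurent polynomials in the variables `z_0, ..., z_{q-1}` over `K`. -/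
def Lau (K : Type*) [Field K] (q : ℕ) : Type _ := AddMonoidAlgebra K (Fin q → ℤ)

section defs

variable {K : Type*} [Field K] {q : ℕ}

noncomputable instance : CommRing (Lau K q) := AddMonoidAlgebra.commRing

/-- The monomial `r z^e`. -/
noncomputable def lmon (e : Fin q → ℤ) (r : K) : Lau K q := AddMonoidAlgebra.single e r

/-- The constants. -/
noncomputable def lcst : K →+* Lau K q := algebraMap K (AddMonoidAlgebra K (Fin q → ℤ))

/-- The exponents of the monomials of `f`. -/
def lsupp (f : Lau K q) : Finset (Fin q → ℤ) := (AddMonoidAlgebra.coeff f).support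

/-- `f = ∑_i ε_i z^(e_i)`, where the exponents `e_0, ..., e_r` are affinely independent and the
coefficients `ε_i` are roots of unity. -/
def Simplicial (f : Lau K q) : Prop :=
  ∃ (r N : ℕ) (e : Fin (r + 1) → Fin q → ℤ) (ε : Fin (r + 1) → K), N ≠ 0 ∧ (∀ i, ε i ^ N = 1) ∧
    AffineIndependent ℤ e ∧ f = ∑ i, lmon (e i) (ε i)

/-- `f = g(z^u)`, where `u ≠ 0` and `g` is a monic polynomial in one variable which divides
`X^N - 1` for some `N > 0`. -/
def Cyclotomic (f : Lau K q) : Prop :=
  ∃ (N : ℕ) (u : Fin q → ℤ) (g : Polynomial K), N ≠ 0 ∧ u ≠ 0 ∧ g.Monic ∧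
    g ∣ Polynomial.X ^ N - 1 ∧ f = g.eval₂ lcst (lmon u 1)

/-- `W` is a product of polynomials as above, and `0` lies in the interior of its Newton
polytope. -/
structure Tempered (W : Lau K q) : Prop where
  prod : W ∈ Submonoid.closure {f : Lau K q | Simplicial f ∨ Cyclotomic f}
  interior : ∀ w : Fin q → ℤ, w ≠ 0 → ∃ e ∈ lsupp W, 0 < ∑ l, w l * e l

theorem lmon_mul (e e' : Fin q → ℤ) (r r' : K) :
    lmon e r * lmon e' r' = lmon (e + e') (r * r') := AddMonoidAlgebra.single_mul_single _ _ _ _

theorem lmon_one : (lmon 0 1 : Lau K q) = 1 := rfl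

/-- The monomials are units. -/
noncomputable def mu (K : Type*) [Field K] {q : ℕ} (e : Fin q → ℤ) : (Lau K q)ˣ where
  val := lmon e 1
  inv := lmon (-e) 1
  val_inv := by rw [lmon_mul, add_neg_cancel, mul_one, lmon_one]
  inv_val := by rw [lmon_mul, neg_add_cancel, mul_one, lmon_one]

end defs

section Ring

variable {K : Type*} [Field K] {n q : ℕ} (W : Lau K q) (Φ : MvPolynomial (Fin n) K)

/-- The equation `Φ(x) - W(z)`, a polynomial in `x_0, ..., x_{n-1}` whose coefficients are Laurent
polynomials in `z_0, ..., z_{q-1}`. -/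
noncomputable def heqn : MvPolynomial (Fin n) (Lau K q) :=
  MvPolynomial.map lcst Φ - MvPolynomial.C W

/-- The coordinate ring of the hypersurface `W(z) = Φ(x)`. -/
def HRing : Type _ := MvPolynomial (Fin n) (Lau K q) ⧸ Ideal.span {heqn W Φ}

noncomputable instance : CommRing (HRing W Φ) := Ideal.Quotient.commRing _

/-- The restriction of functions to the hypersurface. -/
noncomputable def toH : MvPolynomial (Fin n) (Lau K q) →+* HRing W Φ := Ideal.Quotient.mk _

/-- The polynomials in `x_0, ..., x_{n-1}` as functions on the hypersurface. -/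
noncomputable def hpol : MvPolynomial (Fin n) K →+* HRing W Φ :=
  (toH W Φ).comp (MvPolynomial.map lcst)

/-- The Laurent polynomials in `z_0, ..., z_{q-1}` as functions on the hypersurface. -/
noncomputable def hlau : Lau K q →+* HRing W Φ := (toH W Φ).comp MvPolynomial.C

/-- The coordinate ring of the open part `Φ ≠ 0` of the hypersurface. -/
def HOpen : Type _ := Localization.Away (hpol W Φ Φ)

noncomputable instance : CommRing (HOpen W Φ) := OreLocalization.instCommRing

/-- The restriction of functions to the open part. -/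
noncomputable def toO : HRing W Φ →+* HOpen W Φ :=
  algebraMap (HRing W Φ) (Localization.Away (hpol W Φ Φ))

/-- The polynomials in `x_0, ..., x_{n-1}` as functions on the open part. -/
noncomputable def opol : MvPolynomial (Fin n) K →+* HOpen W Φ := (toO W Φ).comp (hpol W Φ)

/-- The Laurent polynomials in `z_0, ..., z_{q-1}` as functions on the open part. -/
noncomputable def olau : Lau K q →+* HOpen W Φ := (toO W Φ).comp (hlau W Φ)

/-- The constants. -/
noncomputable def ocst : K →+* HOpen W Φ := (opol W Φ).comp MvPolynomial.C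

theorem isUnit_opol : IsUnit (opol W Φ Φ) :=
  IsLocalization.Away.algebraMap_isUnit (S := Localization.Away (hpol W Φ Φ)) (hpol W Φ Φ)

theorem isUnit_opol_of_dvd {p : MvPolynomial (Fin n) K} (h : p ∣ Φ) : IsUnit (opol W Φ p) :=
  isUnit_of_dvd_unit (map_dvd _ h) (isUnit_opol W Φ)

/-- The unit `z_l` on the open part. -/
noncomputable def oz (l : Fin q) : (HOpen W Φ)ˣ :=
  Units.map (olau W Φ : Lau K q →* HOpen W Φ) (mu K (Pi.single l 1))

/-- A polynomial in `x_0, ..., x_{n-1}`, which divides `Φ`, as a unit on the open part. -/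
noncomputable def ou (p : MvPolynomial (Fin n) K) (h : p ∣ Φ) : (HOpen W Φ)ˣ :=
  (isUnit_opol_of_dvd W Φ h).unit

/-- A nonzero constant as a unit on the open part. -/
noncomputable def oc (c : Kˣ) : (HOpen W Φ)ˣ := Units.map (ocst W Φ : K →* HOpen W Φ) c

end Ring

section hent

variable {K : Type*} [Field K] {n q : ℕ} {W : Lau K (q + 1)} {Φ : MvPolynomial (Fin (n + 1)) K}

/-- The entries `B_0, ..., B_n, z_0, ..., z_q`. -/
noncomputable def hent (B : Fin (n + 1) → (HOpen W Φ)ˣ) : Fin (n + 1 + q + 1) → (HOpen W Φ)ˣ :=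
  (Fin.append B (oz W Φ) : Fin (n + 1 + (q + 1)) → (HOpen W Φ)ˣ)

end hent

/-- The symbol `{B_0, ..., B_n, z_0, ..., z_q}` is unramified at all discrete valuations of all
fields in which the ring of the open part maps. -/
def UnramAt.{u, w} {K : Type u} [Field K] {n q : ℕ} {W : Lau K (q + 1)}
    {Φ : MvPolynomial (Fin (n + 1)) K} (B : Fin (n + 1) → (HOpen W Φ)ˣ) : Prop :=
  ∀ (L : Type w) [Field L] (f : HOpen W Φ →+* L),
    KQ.map (n + 1 + q + 1) f (symb (hent B)) ∈ Unramified L (n + 1 + q + 1)

end Pool.Agent.Q212.LF
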