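import Pool.Agent.Q212.LF.Def
import Pool.Agent.Q212.LF.Alg
import Pool.Agent.TH826.MK.Variety
set_option autoImplicit false

/-!
Laurent polynomials which are products of sums of monomials with affinely independent exponents and
of cyclotomic polynomials in a monomial, and their values at points of valued fields.
-/

namespace Pool.Agent.Q212.LF

open scoped WithZero

open Pool.Agent.TH826.MK (KQ symb Unramified unitPart val_le_one_of_integral)

open Pool.Agent.TH826.EF (onePart onePart_le)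

section defs

variable {K : Type*} [Field K] {q : ℕ}

/-- The coefficient of `z^e`. -/
def lcf (f : Lau K q) (e : Fin q → ℤ) : K := AddMonoidAlgebra.coeff f e

theorem mem_lsupp {f : Lau K q} {e : Fin q → ℤ} : e ∈ lsupp f ↔ lcf f e ≠ 0 :=
  Finsupp.mem_support_iff

theorem lcf_sum {ι : Type*} (s : Finset ι) (f : ι → Lau K q) (e : Fin q → ℤ) :
    lcf (∑ i ∈ s, f i) e = ∑ i ∈ s, lcf (f i) e := by
  have h : AddMonoidAlgebra.coeff (∑ i ∈ s, f i : AddMonoidAlgebra K (Fin q → ℤ)) =
    ∑ i ∈ s, AddMonoidAlgebra.coeff (f i) := AddMonoidAlgebra.coeff_sum _ _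
  have h2 := DFunLike.congr_fun h e
  rw [Finsupp.finsetSum_apply] at h2
  exact h2

theorem lcf_lmon (e e' : Fin q → ℤ) (r : K) :
    lcf (lmon e r) e' = if e = e' then r else 0 := by
  classical
  show (AddMonoidAlgebra.coeff (AddMonoidAlgebra.single e r : AddMonoidAlgebra K (Fin q → ℤ)) :
    (Fin q → ℤ) →₀ K) e' = _
  rw [AddMonoidAlgebra.coeff_single, Finsupp.single_apply]

theorem lcst_eq (r : K) : (lcst r : Lau K q) = lmon 0 r := rfl

theorem lmon_pow (e : Fin q → ℤ) (i : ℕ) : (lmon e 1 : Lau K q) ^ i = lmon (i • e) (1 : K) := by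
  induction i with
  | zero => rw [pow_zero, zero_smul, lmon_one]
  | succ i ih => rw [pow_succ, ih, lmon_mul, mul_one, succ_nsmul]

theorem lsum_eq (f : Lau K q) : ∑ e ∈ lsupp f, lmon e (lcf f e) = f :=
  AddMonoidAlgebra.sum_coeff_single f

end defs

section eval

variable {K : Type*} [Field K] {q : ℕ} {S : Type*} [Field S]

/-- The monomials as a homomorphism. -/
def mhom (z : Fin q → Sˣ) : Multiplicative (Fin q → ℤ) →* S where
  toFun v := ((mo z v.toAdd : Sˣ) : S)
  map_one' := by
    rw [toAdd_one, mo_zero, Units.val_one]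
  map_mul' v w := by
    rw [toAdd_mul, mo_add, Units.val_mul]

/-- The value of a Laurent polynomial. -/
noncomputable def evL (φ : K →+* S) (z : Fin q → Sˣ) : Lau K q →+* S :=
  AddMonoidAlgebra.liftNCRingHom φ (mhom z) fun _ _ => Commute.all _ _

theorem evL_single (φ : K →+* S) (z : Fin q → Sˣ) (e : Fin q → ℤ) (r : K) :
    evL φ z (lmon e r) = φ r * ((mo z e : Sˣ) : S) :=
  AddMonoidAlgebra.liftNCRingHom_single _ _ _ _ _

theorem evL_eq (φ : K →+* S) (z : Fin q → Sˣ) (f : Lau K q) :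
    evL φ z f = ∑ e ∈ lsupp f, φ (lcf f e) * ((mo z e : Sˣ) : S) := by
  conv_lhs => rw [← lsum_eq f]
  rw [map_sum]
  exact Finset.sum_congr rfl fun e _ => evL_single _ _ _ _

theorem evL_lcst (φ : K →+* S) (z : Fin q → Sˣ) (r : K) : evL φ z (lcst r) = φ r := by
  rw [lcst_eq, evL_single, mo_zero, Units.val_one, mul_one]

end eval

section kill

variable {K : Type*} [Field K] {q : ℕ}

/-- At all valuations the symbol of the variables lies in `onePart`, or all monomials of `f` are at
most of the order of the value of `f`. -/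
def Kill.{u, v} {K : Type u} [Field K] {q : ℕ} (f : Lau K q) : Prop :=
  ∀ (L : Type v) [Field L] (φ : K →+* L) (z : Fin q → Lˣ) (v : Valuation L ℤᵐ⁰),
    symb z ∈ onePart v q ∨ ∀ e ∈ lsupp f, v ((mo z e : Lˣ) : L) ≤ v (evL φ z f)

theorem kill_one.{u, v} {K : Type u} [Field K] {q : ℕ} : Kill.{u, v} (1 : Lau K q) := by
  intro L _ φ z v
  refine Or.inr fun e he => ?_
  rw [map_one, map_one]
  have h := AddMonoidAlgebra.support_coeff_one_subset he
  rw [Finset.mem_zero] at h
  rw [h, mo_zero, Units.val_one, map_one]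

theorem Kill.mul.{u, v} {K : Type u} [Field K] {q : ℕ} {f g : Lau K q} (hf : Kill.{u, v} f)
    (hg : Kill.{u, v} g) : Kill.{u, v} (f * g) := by
  classical
  intro L _ φ z v
  rcases hf L φ z v with h1 | h1
  · exact Or.inl h1
  rcases hg L φ z v with h2 | h2
  · exact Or.inl h2
  refine Or.inr fun e he => ?_
  obtain ⟨e1, he1, e2, he2, rfl⟩ :=
    Finset.mem_add.1 (AddMonoidAlgebra.support_coeff_mul_subset
      (f : AddMonoidAlgebra K (Fin q → ℤ)) (g : AddMonoidAlgebra K (Fin q → ℤ)) he)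
  rw [mo_add, Units.val_mul, map_mul, map_mul, map_mul]
  exact mul_le_mul' (h1 e1 he1) (h2 e2 he2)

theorem kill_simplicial.{u, v} {K : Type u} [Field K] {q : ℕ} {f : Lau K q}
    (hf : Simplicial f) : Kill.{u, v} f := by
  classical
  obtain ⟨r, N, e, ε, hN, hε, he, rfl⟩ := hf
  intro L _ φ z v
  have hε0 : ∀ i, ε i ≠ 0 := by
    intro i h0
    have h1 := hε i
    rw [h0, zero_pow hN] at h1
    exact zero_ne_one h1
  set η : Fin (r + 1) → Lˣ := fun i => Units.mk0 (φ (ε i)) ((map_ne_zero φ).2 (hε0 i)) with hη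
  have hηN : ∀ i, η i ^ N = 1 := by
    intro i
    refine Units.ext ?_
    rw [Units.val_pow_eq_pow_val, hη, Units.val_mk0, ← map_pow, hε, map_one, Units.val_one]
  have hev : evL φ z (∑ i, lmon (e i) (ε i)) =
      ∑ i, ((η i * mo z (e i) : Lˣ) : L) := by
    rw [map_sum]
    refine Finset.sum_congr rfl fun i _ => ?_
    rw [evL_single, Units.val_mul, hη, Units.val_mk0]
  by_cases h : ∃ l, v (∑ i, ((η i * mo z (e i) : Lˣ) : L)) < v ((mo z (e l) : Lˣ) : L)
  · obtain ⟨l, hl⟩ := h
    exact Or.inl (kill_affine v z e he η hN hηN l hl)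
  · push Not at h
    refine Or.inr fun x hx => ?_
    rw [hev]
    obtain ⟨i, rfl⟩ : ∃ i, e i = x := by
      by_contra hcon
      push Not at hcon
      rw [mem_lsupp] at hx
      apply hx
      rw [lcf_sum]
      refine Finset.sum_eq_zero fun i _ => ?_
      rw [lcf_lmon, if_neg (hcon i)]
    exact h i

theorem isIntegral_of_dvd {K : Type*} [Field K] {g : Polynomial K} {N : ℕ} (hN : N ≠ 0)
    (hg : g.Monic) (h : g ∣ Polynomial.X ^ N - 1) (i : ℕ) : IsIntegral ℤ (g.coeff i) := by
  have h1 : (Polynomial.X ^ N - 1 : Polynomial ℤ).Monic := by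
    have := Polynomial.monic_X_pow_sub_C (1 : ℤ) hN
    rwa [Polynomial.C_1] at this
  have h2 : g ∣ (Polynomial.X ^ N - 1 : Polynomial ℤ).map (algebraMap ℤ K) := by
    simpa using h
  have h3 := integralClosure.mem_lifts_of_monic_of_dvd_map K h1 hg h2
  obtain ⟨y, hy⟩ := (Polynomial.lifts_iff_coeff_lifts _).1 h3 i
  rw [← hy]
  exact y.2

theorem kill_cyclotomic.{u, v} {K : Type u} [Field K] {q : ℕ} {f : Lau K q}
    (hf : Cyclotomic f) : Kill.{u, v} f := by
  classical
  obtain ⟨N, u, g, hN, hu, hg, hdvd, rfl⟩ := hf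
  intro L _ φ z v
  set t : Lˣ := mo z u with ht
  have hev : evL φ z (g.eval₂ lcst (lmon u 1)) = g.eval₂ φ (t : L) := by
    rw [Polynomial.hom_eval₂, evL_single, map_one, one_mul]
    congr 1
    ext x
    exact evL_lcst φ z x
  have hsupp : ∀ e ∈ lsupp (g.eval₂ (lcst : K →+* Lau K q) (lmon u 1)),
      ∃ i ≤ g.natDegree, ((mo z e : Lˣ) : L) = (t : L) ^ i := by
    intro e he
    rw [Polynomial.eval₂_eq_sum_range] at he
    have h1 : ∃ i ∈ Finset.range (g.natDegree + 1), i • u = e := by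
      by_contra hcon
      push Not at hcon
      rw [mem_lsupp] at he
      apply he
      rw [lcf_sum]
      refine Finset.sum_eq_zero fun i hi => ?_
      rw [lmon_pow, lcst_eq, lmon_mul, lcf_lmon, zero_add, if_neg (hcon i hi)]
    obtain ⟨i, hi, rfl⟩ := h1
    refine ⟨i, by simpa [Nat.lt_succ_iff] using hi, ?_⟩
    rw [← natCast_zsmul, mo_smul, zpow_natCast, Units.val_pow_eq_pow_val]
  obtain ⟨h, hh⟩ := hdvd
  have hhm : h.Monic := by
    have h1 : (Polynomial.X ^ N - 1 : Polynomial K).Monic := by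
      have := Polynomial.monic_X_pow_sub_C (1 : K) hN
      rwa [Polynomial.C_1] at this
    rw [hh] at h1
    exact hg.of_mul_monic_left h1
  have hci : ∀ p : Polynomial K, p.Monic → p ∣ Polynomial.X ^ N - 1 → ∀ i,
      v (φ (p.coeff i)) ≤ 1 := by
    intro p hp hd i
    have h1 := (isIntegral_of_dvd hN hp hd i).map (φ.toIntAlgHom)
    exact val_le_one_of_integral v h1
  have hgi := hci g hg ⟨h, hh⟩
  have hhi := hci h hhm ⟨g, by rw [hh, mul_comm]⟩
  have hle : ∀ p : Polynomial K, (∀ i, v (φ (p.coeff i)) ≤ 1) → v (t : L) ≤ 1 →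
      v (p.eval₂ φ (t : L)) ≤ 1 := by
    intro p hp ht1
    rw [Polynomial.eval₂_eq_sum_range]
    refine Valuation.map_sum_le v fun i _ => ?_
    rw [map_mul, map_pow]
    exact mul_le_one' (hp i) (pow_le_one' ht1 i)
  have hprod : g.eval₂ φ (t : L) * h.eval₂ φ (t : L) = (t : L) ^ N - 1 := by
    rw [← Polynomial.eval₂_mul, ← hh]
    simp
  have ht0 : v (t : L) ≠ 0 := (Valuation.ne_zero_iff v).2 t.ne_zero
  rcases lt_trichotomy (v (t : L)) 1 with h1 | h1 | h1
  · -- `v t < 1`
    refine Or.inr fun e he => ?_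
    obtain ⟨i, -, hi⟩ := hsupp e he
    rw [hev, hi, map_pow]
    have h2 : v (g.eval₂ φ (t : L)) * v (h.eval₂ φ (t : L)) = 1 := by
      rw [← map_mul, hprod, Valuation.map_sub_swap]
      refine Valuation.map_one_sub_of_lt v ?_
      rw [map_pow]
      exact pow_lt_one₀ zero_le h1 hN
    have h3 := hle g hgi h1.le
    have h4 := hle h hhi h1.le
    have h5 : v (g.eval₂ φ (t : L)) = 1 := by
      refine le_antisymm h3 ?_
      calc (1 : ℤᵐ⁰) = v (g.eval₂ φ (t : L)) * v (h.eval₂ φ (t : L)) := h2.symm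
        _ ≤ v (g.eval₂ φ (t : L)) * 1 := mul_le_mul' le_rfl h4
        _ = _ := mul_one _
    rw [h5]
    exact pow_le_one' h1.le i
  · -- `v t = 1`
    by_cases h2 : v (g.eval₂ φ (t : L)) < 1
    · refine Or.inl (kill_pow v z hu hN ?_)
      rw [← ht, ← hprod, map_mul]
      have h4 := hle h hhi h1.le
      calc v (g.eval₂ φ (t : L)) * v (h.eval₂ φ (t : L)) ≤ v (g.eval₂ φ (t : L)) * 1 :=
            mul_le_mul' le_rfl h4
        _ = v (g.eval₂ φ (t : L)) := mul_one _
        _ < 1 := h2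
    · refine Or.inr fun e he => ?_
      obtain ⟨i, -, hi⟩ := hsupp e he
      rw [hev, hi, map_pow, h1, one_pow]
      exact not_lt.1 h2
  · -- `v t > 1`
    refine Or.inr fun e he => ?_
    obtain ⟨i, hid, hi⟩ := hsupp e he
    rw [hev, hi, map_pow]
    have h5 : v (g.eval₂ φ (t : L)) = v (t : L) ^ g.natDegree := by
      rw [Polynomial.eval₂_eq_sum_range, Finset.sum_range_succ, hg.coeff_natDegree, map_one,
        one_mul]
      have h6 : v (∑ x ∈ Finset.range g.natDegree, φ (g.coeff x) * (t : L) ^ x) <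
          v ((t : L) ^ g.natDegree) := by
        refine Valuation.map_sum_lt v ?_ fun j hj => ?_
        · rw [map_pow]
          exact pow_ne_zero _ ht0
        · rw [map_mul, map_pow, map_pow]
          calc v (φ (g.coeff j)) * v (t : L) ^ j ≤ 1 * v (t : L) ^ j :=
                mul_le_mul' (hgi j) le_rfl
            _ = v (t : L) ^ j := one_mul _
            _ < v (t : L) ^ g.natDegree := pow_lt_pow_right₀ h1 (Finset.mem_range.1 hj)
      rw [Valuation.map_add_eq_of_lt_right v h6, map_pow]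
    rw [h5]
    exact pow_le_pow_right₀ h1.le hid

theorem exp_sum' {ι : Type*} (s : Finset ι) (f : ι → ℤ) :
    WithZero.exp (∑ i ∈ s, f i) = ∏ i ∈ s, WithZero.exp (f i) := by
  classical
  induction s using Finset.induction_on with
  | empty => rw [Finset.sum_empty, Finset.prod_empty, WithZero.exp_zero]
  | insert i s hi ih => rw [Finset.sum_insert hi, Finset.prod_insert hi, WithZero.exp_add, ih]

theorem Tempered.kill.{u, v} {K : Type u} [Field K] {q : ℕ} {W : Lau K q} (hW : Tempered W) :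
    Kill.{u, v} W := by
  refine Submonoid.closure_induction (motive := fun f _ => Kill.{u, v} f) (fun f hf => ?_)
    kill_one (fun f g _ _ hf hg => Kill.mul hf hg) hW.prod
  rcases hf with hf | hf
  · exact kill_simplicial hf
  · exact kill_cyclotomic hf

/-- The symbol lies in `onePart`, or `v (W z) > 1`, or all `z_l` are units and `v (W z) ≥ 1`. -/
theorem Tempered.cases.{u, v} {K : Type u} [Field K] {q : ℕ} {W : Lau K q} (hW : Tempered W)
    (hq : q ≠ 0) {L : Type v} [Field L] (φ : K →+* L) (z : Fin q → Lˣ) (v : Valuation L ℤᵐ⁰)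
    (h1 : v (evL φ z W) ≤ 1) :
    symb z ∈ onePart v q ∨ ((∀ l, v (z l : L) = 1) ∧ v (evL φ z W) = 1) := by
  rcases hW.kill L φ z v with h | h
  · exact Or.inl h
  refine Or.inr ?_
  choose o ho using fun l => Pool.Agent.TH826.MK.exists_ord v (z l)
  have hmo : ∀ e : Fin q → ℤ, v ((mo z e : Lˣ) : L) = WithZero.exp (∑ l, o l * e l) := by
    intro e
    unfold mo
    rw [Units.coe_prod, map_prod, exp_sum']
    refine Finset.prod_congr rfl fun l _ => ?_
    rw [Units.val_zpow_eq_zpow_val, map_zpow₀, ho, ← WithZero.exp_zsmul, smul_eq_mul, mul_comm]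
  have ho0 : o = 0 := by
    by_contra hne
    obtain ⟨e, he, hpos⟩ := hW.interior o hne
    have h2 := (h e he).trans h1
    rw [hmo, ← WithZero.exp_zero, WithZero.exp_le_exp] at h2
    omega
  refine ⟨fun l => ?_, le_antisymm h1 ?_⟩
  · rw [ho, ho0, Pi.zero_apply, WithZero.exp_zero]
  · obtain ⟨e, he, -⟩ := hW.interior (fun _ => 1) (by
      intro h0
      exact one_ne_zero (congrFun h0 ⟨0, Nat.pos_of_ne_zero hq⟩))
    refine le_trans (le_of_eq ?_) (h e he)
    rw [hmo, ho0]
    simp

theorem Tempered.ne_zero {K : Type*} [Field K] {q : ℕ} {W : Lau K q} (hW : Tempered W)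
    (hq : q ≠ 0) : W ≠ 0 := by
  rintro rfl
  obtain ⟨e, he, -⟩ := hW.interior (fun _ => 1) (by
    intro h0
    exact one_ne_zero (congrFun h0 ⟨0, Nat.pos_of_ne_zero hq⟩))
  rw [mem_lsupp] at he
  exact he rfl

end kill

end Pool.Agent.Q212.LF
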