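import Pool.Agent.Q212.LF.Near
import Pool.Agent.Q212.LF.Lau
import Pool.Agent.TH826.SX.Final
set_option autoImplicit false

/-!
Tori on which a Laurent polynomial is almost a monomial.
-/

namespace Pool.Agent.Q212.LF

open Filter Topology

open Pool.Agent.TH826.MK

open Pool.Agent.TH690.SF (good_pow lw_pow)

open Pool.Agent.TH826.SX (good_circ lw_circ circ_ne_zero)

section zpow

variable {d : ℕ} {f : (Fin d → ℝ) → ℂ}

theorem good_zpow (hf : Good f) (k : ℤ) : Good fun θ => f θ ^ k := by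
  rcases k with k | k
  · simp only [Int.ofNat_eq_natCast, zpow_natCast]
    exact good_pow hf k
  · simp only [zpow_negSucc]
    exact good_inv (good_pow hf (k + 1))

theorem lw_zpow (hf : Good f) (k : ℤ) (j : Fin d) (θ : Fin d → ℝ) :
    lw (fun θ => f θ ^ k) j θ = k * lw f j θ := by
  rcases k with k | k
  · simp only [Int.ofNat_eq_natCast, zpow_natCast]
    rw [lw_pow hf]
    push_cast
    rfl
  · simp only [zpow_negSucc]
    rw [lw_inv (good_pow hf (k + 1)), lw_pow hf, Int.cast_negSucc]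
    push_cast
    ring

end zpow

section torus

variable {q : ℕ}

/-- the points of the torus `|z_l| = R_l` -/
noncomputable def zc (R : Fin q → ℝ) (hR : ∀ l, 0 < R l) (θ : Fin q → ℝ) : Fin q → ℂˣ :=
  fun l => Units.mk0 (circ (R l) (θ l)) (circ_ne_zero (hR l) _)

theorem coe_zc (R : Fin q → ℝ) (hR : ∀ l, 0 < R l) (θ : Fin q → ℝ) (l : Fin q) :
    (zc R hR θ l : ℂ) = circ (R l) (θ l) := rfl

theorem coe_mo_zc (R : Fin q → ℝ) (hR : ∀ l, 0 < R l) (θ : Fin q → ℝ) (e : Fin q → ℤ) :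
    ((mo (zc R hR θ) e : ℂˣ) : ℂ) = ∏ l, circ (R l) (θ l) ^ e l := by
  unfold mo
  rw [Units.coe_prod]
  exact Finset.prod_congr rfl fun l _ => Units.val_zpow_eq_zpow_val _ _

theorem good_mo_zc (R : Fin q → ℝ) (hR : ∀ l, 0 < R l) (e : Fin q → ℤ) :
    Good fun θ : Fin q → ℝ => ((mo (zc R hR θ) e : ℂˣ) : ℂ) := by
  simp only [coe_mo_zc]
  exact good_prod _ fun l => good_zpow (good_circ (hR l) l) _

theorem lw_mo_zc (R : Fin q → ℝ) (hR : ∀ l, 0 < R l) (e : Fin q → ℤ) (j : Fin q)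
    (θ : Fin q → ℝ) : lw (fun θ : Fin q → ℝ => ((mo (zc R hR θ) e : ℂˣ) : ℂ)) j θ =
      2 * Real.pi * Complex.I * e j := by
  classical
  simp only [coe_mo_zc]
  rw [lw_prod Finset.univ fun l => good_zpow (good_circ (hR l) l) _]
  simp only [lw_zpow (good_circ (hR _) _), lw_circ (hR _)]
  rw [Finset.sum_eq_single j]
  · rw [if_pos rfl]
    ring
  · intro l _ hl
    rw [if_neg (Ne.symm hl), mul_zero]
  · intro h
    exact absurd (Finset.mem_univ j) h

/-- `exp (2πi ∑ e_l θ_l)` -/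
noncomputable def ch (e : Fin q → ℤ) (θ : Fin q → ℝ) : ℂ :=
  Complex.exp (2 * Real.pi * Complex.I * ∑ l, (e l : ℂ) * θ l)

theorem ch_add_single (e : Fin q → ℤ) (θ : Fin q → ℝ) (i : Fin q) :
    ch e (θ + Pi.single i 1) = ch e θ := by
  unfold ch
  have h1 : ∑ l, (e l : ℂ) * ((θ + Pi.single i 1 : Fin q → ℝ) l : ℂ) =
      ∑ l, (e l : ℂ) * θ l + e i := by
    have h2 : ∀ l, (e l : ℂ) * ((θ + Pi.single i 1 : Fin q → ℝ) l : ℂ) =
        (e l : ℂ) * θ l + (e l : ℂ) * ((Pi.single i 1 : Fin q → ℝ) l : ℂ) := by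
      intro l
      rw [Pi.add_apply]
      push_cast
      ring
    simp only [h2, Finset.sum_add_distrib]
    congr 1
    rw [Finset.sum_eq_single i]
    · rw [Pi.single_eq_same]
      push_cast
      ring
    · intro l _ hl
      rw [Pi.single_eq_of_ne hl]
      push_cast
      ring
    · intro h
      exact absurd (Finset.mem_univ i) h
  rw [h1, mul_add, Complex.exp_add]
  have h2 : 2 * (Real.pi : ℂ) * Complex.I * (e i : ℂ) = (e i : ℂ) * (2 * Real.pi * Complex.I) := by
    ring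
  rw [h2, Complex.exp_int_mul_two_pi_mul_I, mul_one]

theorem contDiff_ch (e : Fin q → ℤ) {m : WithTop ℕ∞} : ContDiff ℝ m (ch e) := by
  unfold ch
  refine (contDiff_const.mul (ContDiff.sum fun l _ => contDiff_const.mul ?_)).cexp
  exact Complex.ofRealCLM.contDiff.comp (contDiff_apply ℝ ℝ l)

theorem mo_zc_eq (t : ℝ) (ht : 0 < t) (v e : Fin q → ℤ) (θ : Fin q → ℝ) :
    ((mo (zc (fun l => t ^ (-v l)) (fun l => zpow_pos ht _) θ) e : ℂˣ) : ℂ) =
      (t : ℂ) ^ (-∑ l, v l * e l) * ch e θ := by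
  have ht0 : (t : ℂ) ≠ 0 := by exact_mod_cast ht.ne'
  rw [coe_mo_zc]
  unfold circ ch
  have h1 : ∀ l, (((t ^ (-v l) : ℝ) : ℂ) * Complex.exp (2 * Real.pi * Complex.I * θ l)) ^ e l =
      (t : ℂ) ^ (-(v l * e l)) * Complex.exp (2 * Real.pi * Complex.I * ((e l : ℂ) * θ l)) := by
    intro l
    rw [mul_zpow, ← Complex.exp_int_mul]
    push_cast
    rw [← zpow_mul]
    congr 2
    · ring
    · ring
  simp only [h1]
  rw [Finset.prod_mul_distrib, ← Complex.exp_sum, ← Finset.mul_sum]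
  congr 1
  rw [← Finset.sum_neg_distrib]
  have key : ∀ (s : Finset (Fin q)) (g : Fin q → ℤ), ∏ l ∈ s, (t : ℂ) ^ g l =
      (t : ℂ) ^ ∑ l ∈ s, g l := by
    intro s g
    classical
    induction s using Finset.induction_on with
    | empty => simp
    | insert i s hi ih => rw [Finset.prod_insert hi, Finset.sum_insert hi, ih, zpow_add₀ ht0]
  exact key _ _

end torus

section fibre

variable {K : Type*} [Field K] {q : ℕ}

/-- There is a monomial of `W`, to which `W` is close on suitable tori. -/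
theorem exists_ztorus (W : Lau K q) (hW : W ≠ 0) (σ : K →+* ℂ) :
    ∃ v ∈ lsupp W, (∀ e ∈ lsupp W, ∑ l, e l * e l ≤ ∑ l, v l * v l) ∧
      ∀ δ : ℝ, 0 < δ → ∃ (R : Fin q → ℝ) (hR : ∀ l, 0 < R l),
        Good (fun θ => evL σ (zc R hR θ) W) ∧
        ∀ θ j, ‖lw (fun θ => evL σ (zc R hR θ) W) j θ - 2 * Real.pi * Complex.I * v j‖ ≤ δ := by
  classical
  have hsupp : (lsupp W).Nonempty := by
    rw [Finset.nonempty_iff_ne_empty]
    intro h
    apply hW
    rw [← lsum_eq W, h, Finset.sum_empty]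
  obtain ⟨v, hv, hmax⟩ := Finset.exists_max_image (lsupp W) (fun e => ∑ l, e l * e l) hsupp
  refine ⟨v, hv, hmax, fun δ hδ => ?_⟩
  set N : ℤ := ∑ l, v l * v l with hN
  have hlt : ∀ e ∈ lsupp W, e ≠ v → ∑ l, v l * e l < N := by
    intro e he hev
    have h1 := hmax e he
    have h2 : 0 < ∑ l, (v l - e l) * (v l - e l) := by
      obtain ⟨l, hl⟩ := Function.ne_iff.1 hev
      refine Finset.sum_pos' (fun l _ => mul_self_nonneg _) ⟨l, Finset.mem_univ l, ?_⟩
      exact mul_self_pos.2 (sub_ne_zero.2 (Ne.symm hl))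
    have h3 : ∑ l, (v l - e l) * (v l - e l) = N - 2 * ∑ l, v l * e l + ∑ l, e l * e l := by
      rw [hN, Finset.mul_sum, ← Finset.sum_sub_distrib, ← Finset.sum_add_distrib]
      refine Finset.sum_congr rfl fun l _ => ?_
      ring
    rw [h3] at h2
    have h4 : ∑ l, e l * e l ≤ N := h1
    omega
  set k : (Fin q → ℤ) → ℕ := fun e => (N - ∑ l, v l * e l).toNat with hk
  have hkv : k v = 0 := by
    simp only [hk]
    rw [← hN, sub_self]
    rfl
  have hke : ∀ e ∈ lsupp W, e ≠ v → k e ≠ 0 := by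
    intro e he hev
    have := hlt e he hev
    simp only [hk]
    omega
  have hkz : ∀ e ∈ lsupp W, ((k e : ℕ) : ℤ) = N - ∑ l, v l * e l := by
    intro e he
    simp only [hk]
    refine Int.toNat_of_nonneg ?_
    by_cases hev : e = v
    · rw [hev, ← hN, sub_self]
    · have := hlt e he hev
      omega
  have hc0 : σ (lcf W v) ≠ 0 := (map_ne_zero σ).2 (mem_lsupp.1 hv)
  set f : ℂ × (Fin q → ℝ) → ℂ := fun z =>
    ∑ e ∈ lsupp W, σ (lcf W e) / σ (lcf W v) * z.1 ^ k e * ch (e - v) z.2 with hf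
  have hfc : ContDiff ℝ 2 f := by
    refine ContDiff.sum fun e _ => ?_
    exact (contDiff_const.mul (contDiff_fst.pow _)).mul ((contDiff_ch _).comp contDiff_snd)
  have hfF : Fam f := by
    refine ⟨Eventually.of_forall fun ε θ => hfc.contDiffAt, Eventually.of_forall fun ε θ i => ?_⟩
    simp only [hf, ch_add_single]
  have hf0 : ∀ θ, f (0, θ) = 1 := by
    intro θ
    simp only [hf]
    rw [Finset.sum_eq_single v]
    · rw [hkv, pow_zero, div_self hc0, sub_self]
      unfold ch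
      simp
    · intro e he hev
      rw [zero_pow (hke e he hev)]
      ring
    · intro h
      exact absurd hv h
  have hclose := hfF.close (fun θ => by rw [hf0]; exact one_ne_zero) hδ
  obtain ⟨r, hr, hr'⟩ := Metric.eventually_nhds_iff.1 hclose
  set t : ℝ := r / 2 with ht
  have htpos : 0 < t := by positivity
  have ht0 : (t : ℂ) ≠ 0 := by exact_mod_cast htpos.ne'
  obtain ⟨h1, -, h3⟩ := hr' (y := (t : ℂ)) (by
    rw [dist_zero_right, Complex.norm_real, Real.norm_eq_abs, abs_of_pos htpos]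
    linarith)
  set R : Fin q → ℝ := fun l => t ^ (-v l) with hR
  have hRpos : ∀ l, 0 < R l := fun l => zpow_pos htpos _
  have hmain : (fun θ => evL σ (zc R hRpos θ) W) = fun θ => (σ (lcf W v) *
      ((mo (zc R hRpos θ) v : ℂˣ) : ℂ)) * f ((t : ℂ), θ) := by
    funext θ
    rw [evL_eq]
    simp only [hf]
    rw [Finset.mul_sum]
    refine Finset.sum_congr rfl fun e he => ?_
    have h4 := mo_zc_eq t htpos v e θ
    have h5 := mo_zc_eq t htpos v v θ
    have h6 : ch e θ = ch v θ * ch (e - v) θ := by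
      unfold ch
      rw [← Complex.exp_add, ← mul_add, ← Finset.sum_add_distrib]
      congr 2
      refine Finset.sum_congr rfl fun l _ => ?_
      rw [Pi.sub_apply]
      push_cast
      ring
    have h7 : (t : ℂ) ^ (-∑ l, v l * e l) = (t : ℂ) ^ (-∑ l, v l * v l) * (t : ℂ) ^ k e := by
      rw [← zpow_natCast, ← zpow_add₀ ht0, hkz e he, hN]
      congr 1
      ring
    rw [h4, h5, h6, h7]
    field_simp
  refine ⟨R, hRpos, ?_⟩
  rw [hmain]
  have hg1 : Good fun θ : Fin q → ℝ => σ (lcf W v) * ((mo (zc R hRpos θ) v : ℂˣ) : ℂ) :=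
    (good_const hc0).mul (good_mo_zc R hRpos v)
  refine ⟨hg1.mul h1, fun θ j => ?_⟩
  rw [lw_mul hg1 h1, lw_mul (good_const hc0) (good_mo_zc R hRpos v), lw_const, lw_mo_zc, zero_add]
  have h8 := h3 θ j
  have h9 : lw (fun θ => f (0, θ)) j θ = 0 := by
    have : (fun θ => f (0, θ)) = fun _ => 1 := funext hf0
    rw [this, lw_const]
  rw [h9, sub_zero] at h8
  rwa [add_sub_cancel_left]

end fibre

end Pool.Agent.Q212.LF
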