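import Mathlib
set_option autoImplicit false

/-!
The solution `u` of `u Γ(u, θ) = ε B(θ)` for small `ε`, with periodic `Γ` and `B`.
-/

namespace Pool.Agent.Q212.LF

open Filter Topology

section per

variable {d : ℕ} {X : Type*}

theorem per_int {g : (Fin d → ℝ) → X} (hg : ∀ θ i, g (θ + Pi.single i 1) = g θ) (i : Fin d)
    (k : ℤ) (θ : Fin d → ℝ) : g (θ + Pi.single i (k : ℝ)) = g θ := by
  induction k using Int.induction_on generalizing θ with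
  | zero => simp
  | succ k ih =>
    have e : θ + Pi.single i (((k : ℤ) + 1 : ℤ) : ℝ) =
        (θ + Pi.single i ((k : ℤ) : ℝ)) + Pi.single i 1 := by
      rw [add_assoc, ← Pi.single_add]
      push_cast
      rfl
    rw [e, hg, ih]
  | pred k ih =>
    have e : θ + Pi.single i ((-(k : ℤ) : ℤ) : ℝ) =
        (θ + Pi.single i ((-(k : ℤ) - 1 : ℤ) : ℝ)) + Pi.single i 1 := by
      rw [add_assoc, ← Pi.single_add]
      push_cast
      congr 2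
      ring
    rw [← ih θ, e, hg]

/-- Periodic functions are determined by their values on the unit cube. -/
theorem per_cube {g : (Fin d → ℝ) → X} (hg : ∀ θ i, g (θ + Pi.single i 1) = g θ)
    (θ : Fin d → ℝ) : ∃ θ' ∈ Set.Icc (0 : Fin d → ℝ) 1, g θ = g θ' := by
  classical
  have key : ∀ s : Finset (Fin d), ∃ θ' : Fin d → ℝ, g θ = g θ' ∧
      ∀ j ∈ s, 0 ≤ θ' j ∧ θ' j ≤ 1 := by
    intro s
    induction s using Finset.induction_on with
    | empty => exact ⟨θ, rfl, by simp⟩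
    | insert i s hi ih =>
      obtain ⟨θ', h1, h2⟩ := ih
      refine ⟨θ' + Pi.single i ((-⌊θ' i⌋ : ℤ) : ℝ), ?_, fun j hj => ?_⟩
      · rw [per_int hg, h1]
      · by_cases hji : j = i
        · subst hji
          rw [Pi.add_apply, Pi.single_eq_same]
          have h3 := Int.floor_le (θ' j)
          have h4 := Int.lt_floor_add_one (θ' j)
          push_cast
          constructor <;> linarith
        · rw [Pi.add_apply, Pi.single_eq_of_ne hji, add_zero]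
          exact h2 j (Finset.mem_of_mem_insert_of_ne hj hji)
  obtain ⟨θ', h1, h2⟩ := key Finset.univ
  exact ⟨θ', ⟨fun j => (h2 j (Finset.mem_univ j)).1, fun j => (h2 j (Finset.mem_univ j)).2⟩, h1⟩

/-- A periodic property which holds near all points `(x₀, θ)` holds for all `x` near `x₀` and all
`θ`. -/
theorem eventually_forall_of_per {Y : Type*} [TopologicalSpace Y] {x₀ : Y}
    {P : Y → (Fin d → ℝ) → Prop} (hP : ∀ x θ i, P x (θ + Pi.single i 1) ↔ P x θ)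
    (h : ∀ θ, ∀ᶠ z : Y × (Fin d → ℝ) in 𝓝 (x₀, θ), P z.1 z.2) :
    ∀ᶠ x in 𝓝 x₀, ∀ θ, P x θ := by
  have h1 : ∀ᶠ x in 𝓝 x₀, ∀ θ ∈ Set.Icc (0 : Fin d → ℝ) 1, P x θ :=
    (isCompact_Icc).eventually_forall_of_forall_eventually fun θ _ => h θ
  filter_upwards [h1] with x hx θ
  obtain ⟨θ', hθ', he⟩ := per_cube (g := fun θ => P x θ) (fun θ i => propext (hP x θ i)) θ
  have := hx θ' hθ'
  rwa [← he] at this

end per

section imp

variable {d : ℕ} {Γ : ℂ × (Fin d → ℝ) → ℂ} {B : (Fin d → ℝ) → ℂ}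

/-- the equation -/
noncomputable def ieq (Γ : ℂ × (Fin d → ℝ) → ℂ) (B : (Fin d → ℝ) → ℂ)
    (v : (ℂ × (Fin d → ℝ)) × ℂ) : ℂ := v.2 * Γ (v.2, v.1.2) - v.1.1 * B v.1.2

theorem contDiff_ieq (hΓ : ContDiff ℝ 2 Γ) (hB : ContDiff ℝ 2 B) : ContDiff ℝ 2 (ieq Γ B) := by
  unfold ieq
  refine (contDiff_snd.mul (hΓ.comp (contDiff_snd.prodMk (contDiff_snd.comp contDiff_fst)))).sub
    ((contDiff_fst.comp contDiff_fst).mul (hB.comp (contDiff_snd.comp contDiff_fst)))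

/-- the function `u ↦ u Γ(u, θ)` -/
noncomputable def ipart (Γ : ℂ × (Fin d → ℝ) → ℂ) (θ : Fin d → ℝ) (u : ℂ) : ℂ := u * Γ (u, θ)

theorem fderiv_ieq (hΓ : ContDiff ℝ 2 Γ) (hB : ContDiff ℝ 2 B) (v : (ℂ × (Fin d → ℝ)) × ℂ) :
    (fderiv ℝ (ieq Γ B) v ∘L .inr ℝ (ℂ × (Fin d → ℝ)) ℂ) = fderiv ℝ (ipart Γ v.1.2) v.2 := by
  have h1 : HasFDerivAt (ieq Γ B) (fderiv ℝ (ieq Γ B) v) v :=
    (((contDiff_ieq hΓ hB).differentiable (by norm_num)) v).hasFDerivAt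
  have h2 : HasFDerivAt (fun u : ℂ => (v.1, u)) (.inr ℝ (ℂ × (Fin d → ℝ)) ℂ) v.2 :=
    hasFDerivAt_prodMk_right v.1 v.2
  have h3 := HasFDerivAt.comp v.2 (show HasFDerivAt (ieq Γ B) (fderiv ℝ (ieq Γ B) v)
    ((fun u : ℂ => (v.1, u)) v.2) from h1) h2
  have h4 : ((ieq Γ B) ∘ fun u : ℂ => (v.1, u)) = fun u => ipart Γ v.1.2 u - v.1.1 * B v.1.2 :=
    rfl
  rw [h4] at h3
  have h5 := h3.add_const (v.1.1 * B v.1.2)
  have h6 : (fun u => ipart Γ v.1.2 u - v.1.1 * B v.1.2 + v.1.1 * B v.1.2) =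
      ipart Γ v.1.2 := by
    funext u
    ring
  rw [h6] at h5
  exact h5.fderiv.symm

theorem ipart_invertible (hΓ : ContDiff ℝ 2 Γ) {θ : Fin d → ℝ} (h0 : Γ (0, θ) ≠ 0) :
    (fderiv ℝ (ipart Γ θ) 0).IsInvertible := by
  have h1 : HasFDerivAt (fun u : ℂ => Γ (u, θ))
      (fderiv ℝ (fun u : ℂ => Γ (u, θ)) 0) 0 := by
    have : ContDiff ℝ 2 fun u : ℂ => Γ (u, θ) := hΓ.comp (contDiff_id.prodMk contDiff_const)
    exact ((this.differentiable (by norm_num)) 0).hasFDerivAt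
  have h2 := (hasFDerivAt_id (𝕜 := ℝ) (0 : ℂ)).mul h1
  have h3 : fderiv ℝ (ipart Γ θ) 0 = Γ (0, θ) • ContinuousLinearMap.id ℝ ℂ := by
    have h4 : HasFDerivAt (ipart Γ θ) (id (0 : ℂ) • fderiv ℝ (fun u : ℂ => Γ (u, θ)) 0 +
      Γ (0, θ) • ContinuousLinearMap.id ℝ ℂ) 0 := h2
    rw [h4.fderiv]
    simp
  rw [h3]
  refine ⟨ContinuousLinearEquiv.equivOfInverse (Γ (0, θ) • ContinuousLinearMap.id ℝ ℂ)
    ((Γ (0, θ))⁻¹ • ContinuousLinearMap.id ℝ ℂ) (fun x => ?_) (fun x => ?_), ?_⟩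
  · simp [h0]
  · simp [h0]
  · ext
    simp

/-- The implicit function theorem for `u Γ(u, θ) = ε B(θ)`. -/
theorem exists_implicit (hΓ : ContDiff ℝ 2 Γ) (hB : ContDiff ℝ 2 B)
    (hΓp : ∀ u θ i, Γ (u, θ + Pi.single i 1) = Γ (u, θ))
    (hBp : ∀ θ i, B (θ + Pi.single i 1) = B θ) (h0 : ∀ θ, Γ (0, θ) ≠ 0) :
    ∃ U : ℂ × (Fin d → ℝ) → ℂ, ∃ r : ℝ, 0 < r ∧ (∀ θ, U (0, θ) = 0) ∧
      ∀ ε : ℂ, ‖ε‖ < r → ∀ θ, U (ε, θ) * Γ (U (ε, θ), θ) = ε * B θ ∧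
        ContDiffAt ℝ 2 U (ε, θ) ∧ ∀ i, U (ε, θ + Pi.single i 1) = U (ε, θ) := by
  classical
  have hG := contDiff_ieq hΓ hB
  have hG0 : ∀ θ, ieq Γ B ((0, θ), 0) = 0 := by
    intro θ
    unfold ieq
    simp
  have hper : ∀ ε θ i u, ieq Γ B ((ε, θ + Pi.single i 1), u) = ieq Γ B ((ε, θ), u) := by
    intro ε θ i u
    unfold ieq
    simp only [hΓp, hBp]
  have hiper : ∀ θ i, ipart Γ (θ + Pi.single i 1) = ipart Γ θ := by
    intro θ i
    funext u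
    unfold ipart
    rw [hΓp]
  have hinv : ∀ θ, (fderiv ℝ (ieq Γ B) ((0, θ), 0) ∘L
      .inr ℝ (ℂ × (Fin d → ℝ)) ℂ).IsInvertible := by
    intro θ
    rw [fderiv_ieq hΓ hB]
    exact ipart_invertible hΓ (h0 θ)
  have hcdf : ∀ v, ContDiffAt ℝ 2 (ieq Γ B) v := fun v => hG.contDiffAt
  have h2 : (2 : WithTop ℕ∞) ≠ 0 := by norm_num
  -- uniqueness
  have hU1 : ∀ᶠ x : ℂ × ℂ × ℂ in 𝓝 (0, 0, 0), ∀ θ, ieq Γ B ((x.1, θ), x.2.1) = 0 →
      ieq Γ B ((x.1, θ), x.2.2) = 0 → x.2.1 = x.2.2 := by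
    refine eventually_forall_of_per (fun x θ i => by rw [hper, hper]) fun θ => ?_
    have h3 := (hcdf ((0, θ), 0)).eventually_apply_eq_iff_implicitFunction h2 (hinv θ)
    have hc1 : Tendsto (fun z : (ℂ × ℂ × ℂ) × (Fin d → ℝ) => ((z.1.1, z.2), z.1.2.1))
        (𝓝 (((0 : ℂ), (0 : ℂ), (0 : ℂ)), θ)) (𝓝 (((0 : ℂ), θ), (0 : ℂ))) := by
      have : Continuous fun z : (ℂ × ℂ × ℂ) × (Fin d → ℝ) => ((z.1.1, z.2), z.1.2.1) := by
        fun_prop
      exact this.tendsto' _ _ rfl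
    have hc2 : Tendsto (fun z : (ℂ × ℂ × ℂ) × (Fin d → ℝ) => ((z.1.1, z.2), z.1.2.2))
        (𝓝 (((0 : ℂ), (0 : ℂ), (0 : ℂ)), θ)) (𝓝 (((0 : ℂ), θ), (0 : ℂ))) := by
      have : Continuous fun z : (ℂ × ℂ × ℂ) × (Fin d → ℝ) => ((z.1.1, z.2), z.1.2.2) := by
        fun_prop
      exact this.tendsto' _ _ rfl
    filter_upwards [hc1.eventually h3, hc2.eventually h3] with z hz1 hz2 hz3 hz4
    rw [hG0] at hz1 hz2
    rw [← hz1.1 hz3, ← hz2.1 hz4]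
  -- invertibility of the derivative
  have hU2 : ∀ᶠ u : ℂ in 𝓝 0, ∀ θ, (fderiv ℝ (ipart Γ θ) u).IsInvertible := by
    refine eventually_forall_of_per (fun u θ i => by rw [hiper]) fun θ => ?_
    have h3 : Continuous fun v => fderiv ℝ (ieq Γ B) v ∘L .inr ℝ (ℂ × (Fin d → ℝ)) ℂ := by
      have := (hG.fderiv_right (m := 1) (by norm_num)).continuous
      exact this.clm_comp continuous_const
    have h4 : Continuous fun z : ℂ × (Fin d → ℝ) =>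
        fderiv ℝ (ieq Γ B) ((0, z.2), z.1) ∘L .inr ℝ (ℂ × (Fin d → ℝ)) ℂ :=
      h3.comp (by fun_prop)
    obtain ⟨e, he⟩ := hinv θ
    have h5 := ContinuousLinearEquiv.nhds e
    rw [he] at h5
    have h6 := h4.continuousAt (x := ((0 : ℂ), θ)) |>.eventually h5
    filter_upwards [h6] with z hz
    obtain ⟨e', he'⟩ := hz
    rw [fderiv_ieq hΓ hB] at he'
    exact ⟨e', he'⟩
  obtain ⟨R1, hR1, hR1'⟩ := Metric.eventually_nhds_iff.1 hU1
  obtain ⟨R2, hR2, hR2'⟩ := Metric.eventually_nhds_iff.1 hU2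
  set R : ℝ := min R1 R2 with hR
  have hRpos : 0 < R := lt_min hR1 hR2
  have huniq : ∀ ε θ u u', ‖ε‖ < R → ‖u‖ < R → ‖u'‖ < R → ieq Γ B ((ε, θ), u) = 0 →
      ieq Γ B ((ε, θ), u') = 0 → u = u' := by
    intro ε θ u u' hε hu hu' h3 h4
    refine hR1' (y := (ε, u, u')) ?_ θ h3 h4
    simp only [Prod.dist_eq, dist_zero_right]
    exact max_lt (hε.trans_le (min_le_left _ _))
      (max_lt (hu.trans_le (min_le_left _ _)) (hu'.trans_le (min_le_left _ _)))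
  have hinv2 : ∀ θ u, ‖u‖ < R → (fderiv ℝ (ipart Γ θ) u).IsInvertible := by
    intro θ u hu
    refine hR2' ?_ θ
    rw [dist_zero_right]
    exact hu.trans_le (min_le_right _ _)
  -- existence
  have hE : ∀ᶠ ε : ℂ in 𝓝 0, ∀ θ, ∃ u, ‖u‖ < R ∧ ieq Γ B ((ε, θ), u) = 0 := by
    refine eventually_forall_of_per (fun ε θ i => by simp only [hper]) fun θ => ?_
    have h3 := (hcdf ((0, θ), 0)).eventually_apply_implicitFunction h2 (hinv θ)
    have h4 := ((hcdf ((0, θ), 0)).contDiffAt_implicitFunction h2 (hinv θ)).continuousAt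
    have h5 := (hcdf ((0, θ), 0)).implicitFunction_apply_self h2 (hinv θ)
    have h6 : ∀ᶠ z in 𝓝 ((0 : ℂ), θ),
        ‖(hcdf ((0, θ), 0)).implicitFunction h2 (hinv θ) z‖ < R := by
      refine h4.norm.eventually (gt_mem_nhds ?_)
      show ‖(hcdf ((0, θ), 0)).implicitFunction h2 (hinv θ) ((0 : ℂ), θ)‖ < R
      have h7 : (hcdf ((0, θ), 0)).implicitFunction h2 (hinv θ) ((0 : ℂ), θ) = 0 := h5
      rw [h7, norm_zero]
      exact hRpos
    filter_upwards [h3, h6] with z hz1 hz2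
    exact ⟨_, hz2, by rw [hz1, hG0]⟩
  obtain ⟨r0, hr0, hr0'⟩ := Metric.eventually_nhds_iff.1 hE
  set r : ℝ := min r0 R with hr
  have hrpos : 0 < r := lt_min hr0 hRpos
  have hex : ∀ ε θ, ‖ε‖ < r → ∃ u, ‖u‖ < R ∧ ieq Γ B ((ε, θ), u) = 0 := by
    intro ε θ hε
    refine hr0' ?_ θ
    rw [dist_zero_right]
    exact hε.trans_le (min_le_left _ _)
  set U : ℂ × (Fin d → ℝ) → ℂ := fun z =>
    if h : ∃ u, ‖u‖ < R ∧ ieq Γ B (z, u) = 0 then h.choose else 0 with hU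
  have hUs : ∀ ε θ, ‖ε‖ < r → ‖U (ε, θ)‖ < R ∧ ieq Γ B ((ε, θ), U (ε, θ)) = 0 := by
    intro ε θ hε
    have h3 := hex ε θ hε
    simp only [hU]
    rw [dif_pos h3]
    exact h3.choose_spec
  refine ⟨U, r, hrpos, fun θ => ?_, fun ε hε θ => ⟨?_, ?_, fun i => ?_⟩⟩
  · have h3 := hUs 0 θ (by rw [norm_zero]; exact hrpos)
    exact huniq 0 θ _ _ (by rw [norm_zero]; exact hRpos) h3.1 (by rw [norm_zero]; exact hRpos)
      h3.2 (hG0 θ)
  · have h3 := (hUs ε θ hε).2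
    unfold ieq at h3
    exact sub_eq_zero.1 h3
  · obtain ⟨h3, h4⟩ := hUs ε θ hε
    have hi : (fderiv ℝ (ieq Γ B) ((ε, θ), U (ε, θ)) ∘L
        .inr ℝ (ℂ × (Fin d → ℝ)) ℂ).IsInvertible := by
      rw [fderiv_ieq hΓ hB]
      exact hinv2 θ _ h3
    have h5 := (hcdf ((ε, θ), U (ε, θ))).eventually_apply_implicitFunction h2 hi
    have h6 := (hcdf ((ε, θ), U (ε, θ))).contDiffAt_implicitFunction h2 hi
    have h7 := (hcdf ((ε, θ), U (ε, θ))).implicitFunction_apply_self h2 hi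
    have h8 : ∀ᶠ z in 𝓝 (ε, θ),
        ‖(hcdf ((ε, θ), U (ε, θ))).implicitFunction h2 hi z‖ < R := by
      refine h6.continuousAt.norm.eventually (gt_mem_nhds ?_)
      show ‖(hcdf ((ε, θ), U (ε, θ))).implicitFunction h2 hi (ε, θ)‖ < R
      have h9 : (hcdf ((ε, θ), U (ε, θ))).implicitFunction h2 hi (ε, θ) = U (ε, θ) := h7
      rw [h9]
      exact h3
    have h10 : ∀ᶠ z : ℂ × (Fin d → ℝ) in 𝓝 (ε, θ), ‖z.1‖ < r :=
      (continuous_fst.norm.continuousAt).eventually (gt_mem_nhds hε)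
    refine h6.congr_of_eventuallyEq ?_
    filter_upwards [h5, h8, h10] with z hz1 hz2 hz3
    obtain ⟨h11, h12⟩ := hUs z.1 z.2 hz3
    refine huniq z.1 z.2 _ _ (hz3.trans_le (min_le_right _ _)) h11 hz2 h12 ?_
    rw [h4] at hz1
    exact hz1
  · obtain ⟨h3, h4⟩ := hUs ε θ hε
    obtain ⟨h5, h6⟩ := hUs ε (θ + Pi.single i 1) hε
    rw [hper] at h6
    exact huniq ε θ _ _ (hε.trans_le (min_le_right _ _)) h5 h3 h6 h4

end imp

end Pool.Agent.Q212.LF
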