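import Pool.Agent.Q212.LF.Lau
set_option autoImplicit false

/-!
The hypersurfaces `W(z) = Φ(x)` in the product of a torus with the coordinates `z_0, ..., z_{q-1}`
and an affine space with the coordinates `x_0, ..., x_{n-1}`.
-/

namespace Pool.Agent.Q212.LF

section Ring

variable {K : Type*} [Field K] {n q : ℕ} (W : Lau K q) (Φ : MvPolynomial (Fin n) K)

noncomputable instance : Algebra (HRing W Φ) (HOpen W Φ) :=
  inferInstanceAs (Algebra (HRing W Φ) (Localization.Away (hpol W Φ Φ)))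

instance : IsLocalization.Away (hpol W Φ Φ) (HOpen W Φ) :=
  inferInstanceAs (IsLocalization.Away (hpol W Φ Φ) (Localization.Away (hpol W Φ Φ)))

theorem hpol_eq : hpol W Φ Φ = hlau W Φ W := by
  have h : toH W Φ (heqn W Φ) = 0 :=
    Ideal.Quotient.eq_zero_iff_mem.2 (Ideal.subset_span (Set.mem_singleton _))
  unfold heqn at h
  rw [map_sub, sub_eq_zero] at h
  exact h

theorem opol_eq : opol W Φ Φ = olau W Φ W := congrArg (toO W Φ) (hpol_eq W Φ)

theorem mu_add (K : Type*) [Field K] {q : ℕ} (e e' : Fin q → ℤ) :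
    mu K (e + e') = mu K e * mu K e' := by
  refine Units.ext ?_
  rw [Units.val_mul]
  show (lmon (e + e') 1 : Lau K q) = lmon e 1 * lmon e' 1
  rw [lmon_mul, mul_one]

theorem coe_ou (p : MvPolynomial (Fin n) K) (h : p ∣ Φ) :
    (ou W Φ p h : HOpen W Φ) = opol W Φ p := rfl

end Ring

section mono

theorem mo_mu (K : Type*) [Field K] {q : ℕ} (e : Fin q → ℤ) :
    mo (fun l => mu K (Pi.single l (1 : ℤ) : Fin q → ℤ)) e = mu K e := by
  have h : moLin (fun l => mu K (Pi.single l (1 : ℤ) : Fin q → ℤ)) =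
      (AddMonoidHom.mk' (fun e : Fin q → ℤ => Additive.ofMul (mu K e)) (fun a b => by
        rw [mu_add, ofMul_mul])).toIntLinearMap := by
    refine (Pi.basisFun ℤ (Fin q)).ext fun l => ?_
    rw [Pi.basisFun_apply]
    show Additive.ofMul (mo _ (Pi.single l 1)) = Additive.ofMul (mu K (Pi.single l 1))
    rw [mo_single]
  exact congrArg (fun f => (f e).toMul) h

end mono

section point

variable {K : Type*} [Field K] {n q : ℕ} {W : Lau K q} {Φ : MvPolynomial (Fin n) K}
  {S : Type*} [Field S] (f : HOpen W Φ →+* S)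

/-- the constants of a point -/
noncomputable def ptK : K →+* S := f.comp (ocst W Φ)

/-- the coordinates `x_j` of a point -/
noncomputable def ptx (j : Fin n) : S := f (opol W Φ (MvPolynomial.X j))

/-- the coordinates `z_l` of a point -/
noncomputable def ptz (l : Fin q) : Sˣ := Units.map (f : HOpen W Φ →* S) (oz W Φ l)

theorem map_opol (p : MvPolynomial (Fin n) K) :
    f (opol W Φ p) = MvPolynomial.eval₂ (ptK f) (ptx f) p := by
  have h : f.comp (opol W Φ) = MvPolynomial.eval₂Hom (ptK f) (ptx f) := by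
    refine MvPolynomial.ringHom_ext (fun r => ?_) fun j => ?_
    · rw [MvPolynomial.eval₂Hom_C]
      rfl
    · rw [MvPolynomial.eval₂Hom_X']
      rfl
  exact congrFun (congrArg DFunLike.coe h) p

theorem map_olau (w : Lau K q) : f (olau W Φ w) = evL (ptK f) (ptz f) w := by
  have h : f.comp (olau W Φ) = evL (ptK f) (ptz f) := by
    refine AddMonoidAlgebra.ringHom_ext (fun r => ?_) fun e => ?_
    · show f (olau W Φ (lmon 0 r)) = evL (ptK f) (ptz f) (lmon 0 r)
      rw [evL_single, mo_zero, Units.val_one, mul_one]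
      show f (toO W Φ (toH W Φ (MvPolynomial.C (lcst r)))) =
        f (toO W Φ (toH W Φ (MvPolynomial.map _ (MvPolynomial.C r))))
      rw [MvPolynomial.map_C]
    · show f (olau W Φ (lmon e 1)) = evL (ptK f) (ptz f) (lmon e 1)
      rw [evL_single, map_one, one_mul]
      have h1 : ((mu K e : (Lau K q)ˣ) : Lau K q) = lmon e 1 := rfl
      rw [← h1, ← mo_mu K e]
      have h2 := map_mo (Units.map ((f.comp (olau W Φ) : Lau K q →+* S) : Lau K q →* S))
        (fun l => mu K (Pi.single l (1 : ℤ) : Fin q → ℤ)) e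
      exact congrArg Units.val h2
  exact congrFun (congrArg DFunLike.coe h) w

theorem pt_eq : MvPolynomial.eval₂ (ptK f) (ptx f) Φ = evL (ptK f) (ptz f) W := by
  rw [← map_opol, ← map_olau, opol_eq]

theorem map_ou (p : MvPolynomial (Fin n) K) (h : p ∣ Φ) :
    f (ou W Φ p h : HOpen W Φ) = MvPolynomial.eval₂ (ptK f) (ptx f) p := by
  rw [coe_ou, map_opol]

theorem map_oc (c : Kˣ) : f (oc W Φ c : HOpen W Φ) = ptK f c := rfl

end point

section lift

variable {K : Type*} [Field K] {n q : ℕ} {W : Lau K q} {Φ : MvPolynomial (Fin n) K}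
  {S : Type*} [Field S]

/-- Evaluation of polynomials whose coefficients are Laurent polynomials. -/
noncomputable def evM (φ : K →+* S) (x : Fin n → S) (z : Fin q → Sˣ) :
    MvPolynomial (Fin n) (Lau K q) →+* S := MvPolynomial.eval₂Hom (evL φ z) x

theorem evM_map (φ : K →+* S) (x : Fin n → S) (z : Fin q → Sˣ) (p : MvPolynomial (Fin n) K) :
    evM φ x z (MvPolynomial.map lcst p) = MvPolynomial.eval₂ φ x p := by
  unfold evM
  rw [MvPolynomial.coe_eval₂Hom, MvPolynomial.eval₂_map]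
  congr 1
  ext r
  exact evL_lcst φ z r

theorem evM_C (φ : K →+* S) (x : Fin n → S) (z : Fin q → Sˣ) (w : Lau K q) :
    evM φ x z (MvPolynomial.C w) = evL φ z w := MvPolynomial.eval₂Hom_C _ _ _

/-- Points of the open part of the hypersurface. -/
structure Pt (W : Lau K q) (Φ : MvPolynomial (Fin n) K) (φ : K →+* S) (x : Fin n → S)
    (z : Fin q → Sˣ) : Prop where
  eq : MvPolynomial.eval₂ φ x Φ = evL φ z W
  ne : MvPolynomial.eval₂ φ x Φ ≠ 0

variable {φ : K →+* S} {x : Fin n → S} {z : Fin q → Sˣ}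

/-- evaluation of functions on the hypersurface -/
noncomputable def Pt.evH (h : Pt W Φ φ x z) : HRing W Φ →+* S :=
  Ideal.Quotient.lift _ (evM φ x z) (by
    intro p hp
    obtain ⟨r, rfl⟩ := Ideal.mem_span_singleton.1 hp
    rw [map_mul]
    unfold heqn
    rw [map_sub, evM_map, evM_C, h.eq, sub_self, zero_mul])

theorem Pt.evH_toH (h : Pt W Φ φ x z) (p : MvPolynomial (Fin n) (Lau K q)) :
    h.evH (toH W Φ p) = evM φ x z p := Ideal.Quotient.lift_mk _ _ _

theorem Pt.evH_hpol (h : Pt W Φ φ x z) (p : MvPolynomial (Fin n) K) :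
    h.evH (hpol W Φ p) = MvPolynomial.eval₂ φ x p := by
  show h.evH (toH W Φ _) = _
  rw [h.evH_toH, evM_map]

theorem Pt.isUnit (h : Pt W Φ φ x z) : IsUnit (h.evH (hpol W Φ Φ)) := by
  rw [h.evH_hpol]
  exact IsUnit.mk0 _ h.ne

/-- evaluation of functions on the open part -/
noncomputable def Pt.evO (h : Pt W Φ φ x z) : HOpen W Φ →+* S :=
  IsLocalization.Away.lift (hpol W Φ Φ) h.isUnit

theorem Pt.evO_toO (h : Pt W Φ φ x z) (a : HRing W Φ) : h.evO (toO W Φ a) = h.evH a :=
  IsLocalization.Away.lift_eq _ h.isUnit a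

theorem Pt.evO_opol (h : Pt W Φ φ x z) (p : MvPolynomial (Fin n) K) :
    h.evO (opol W Φ p) = MvPolynomial.eval₂ φ x p := by
  show h.evO (toO W Φ (hpol W Φ p)) = _
  rw [h.evO_toO, h.evH_hpol]

theorem Pt.evO_olau (h : Pt W Φ φ x z) (w : Lau K q) : h.evO (olau W Φ w) = evL φ z w := by
  show h.evO (toO W Φ (toH W Φ (MvPolynomial.C w))) = _
  rw [h.evO_toO, h.evH_toH, evM_C]

theorem Pt.evO_ocst (h : Pt W Φ φ x z) (c : K) : h.evO (ocst W Φ c) = φ c := by
  show h.evO (opol W Φ (MvPolynomial.C c)) = _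
  rw [h.evO_opol, MvPolynomial.eval₂_C]

theorem Pt.evO_oz (h : Pt W Φ φ x z) (l : Fin q) : h.evO (oz W Φ l : HOpen W Φ) = z l := by
  show h.evO (olau W Φ (lmon _ 1)) = _
  rw [h.evO_olau, evL_single, map_one, one_mul, mo_single]

theorem Pt.evO_ou (h : Pt W Φ φ x z) (p : MvPolynomial (Fin n) K) (hp : p ∣ Φ) :
    h.evO (ou W Φ p hp : HOpen W Φ) = MvPolynomial.eval₂ φ x p := by
  rw [coe_ou, h.evO_opol]

theorem Pt.evO_oc (h : Pt W Φ φ x z) (c : Kˣ) : h.evO (oc W Φ c : HOpen W Φ) = φ c :=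
  h.evO_ocst c

theorem Pt.evO_congr {x' : Fin n → S} {z' : Fin q → Sˣ} (h : Pt W Φ φ x z)
    (h' : Pt W Φ φ x' z') (hx : x = x') (hz : z = z') : h.evO = h'.evO := by
  subst hx
  subst hz
  rfl

end lift

end Pool.Agent.Q212.LF
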