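import Pool.Agent.Q212.LF.Fib
import Pool.Agent.Q212.LF.Ring
set_option autoImplicit false

/-!
Points of the hypersurfaces `W(z) = λ p(x)` near the zeros of polynomials `p`, for large `λ`.
-/

namespace Pool.Agent.Q212.LF

open Filter Topology

open Pool.Agent.TH826.MK

open Pool.Agent.TH826.SX (good_circ lw_circ circ_ne_zero)

section ix

/-- the parameter of `z_l` -/
def iz (n q : ℕ) : Fin (q + 1) → Fin (n + 1 + q) :=
  Fin.cons (Fin.castAdd q 0) fun l => Fin.natAdd (n + 1) l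

/-- the parameter of `w_j` -/
def iw (n q : ℕ) (j : Fin n) : Fin (n + 1 + q) := Fin.castAdd q j.succ

theorem iz_injective (n q : ℕ) : Function.Injective (iz n q) := by
  intro k l
  refine Fin.cases ?_ (fun k => ?_) k <;> refine Fin.cases ?_ (fun l => ?_) l
  · intro _
    rfl
  · intro h
    have h1 := congrArg Fin.val h
    simp only [iz, Fin.cons_zero, Fin.cons_succ, Fin.val_castAdd, Fin.val_natAdd,
      Fin.val_zero] at h1
    omega
  · intro h
    have h1 := congrArg Fin.val h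
    simp only [iz, Fin.cons_zero, Fin.cons_succ, Fin.val_castAdd, Fin.val_natAdd,
      Fin.val_zero] at h1
    omega
  · intro h
    have h1 := congrArg Fin.val h
    simp only [iz, Fin.cons_succ, Fin.val_natAdd] at h1
    have h2 : k = l := Fin.ext (by omega)
    rw [h2]

theorem iw_injective (n q : ℕ) : Function.Injective (iw n q) := by
  intro k l h
  have h1 := congrArg Fin.val h
  simp only [iw, Fin.val_castAdd, Fin.val_succ] at h1
  exact Fin.ext (by omega)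

theorem iz_ne_iw (n q : ℕ) (l : Fin (q + 1)) (j : Fin n) : iz n q l ≠ iw n q j := by
  refine Fin.cases ?_ (fun l => ?_) l
  · intro h
    have h1 := congrArg Fin.val h
    simp only [iz, iw, Fin.cons_zero, Fin.val_castAdd, Fin.val_succ, Fin.val_zero] at h1
    omega
  · intro h
    have h1 := congrArg Fin.val h
    have h2 := j.isLt
    simp only [iz, iw, Fin.cons_succ, Fin.val_castAdd, Fin.val_succ, Fin.val_natAdd] at h1
    omega

/-- the type of the coordinates `w_0`, ..., `w_n` on the tori -/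
noncomputable def ow (n q : ℕ) (v : Fin (q + 1) → ℤ) (N : Fin (n + 1) → ℕ) :
    Fin (n + 1) → Fin (n + 1 + q + 1) → ℝ :=
  Fin.cons (-Pi.single 0 1 + ∑ l, (v l : ℝ) • Pi.single (iz n q l).succ 1 -
    ∑ j : Fin n, (N j.succ : ℝ) • Pi.single (iw n q j).succ 1)
    fun j => Pi.single (iw n q j).succ 1

/-- the type of the coordinates `z_0`, ..., `z_q` on the tori -/
noncomputable def oi (n q : ℕ) (l : Fin (q + 1)) : Fin (n + 1 + q + 1) → ℝ :=
  Pi.single (iz n q l).succ 1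

end ix

section poly

variable {K : Type*} [Field K]

theorem contDiff_ev (σ : K →+* ℂ) {N : ℕ} (p : MvPolynomial (Fin N) K) :
    ContDiff ℝ 2 fun x : Fin N → ℂ => MvPolynomial.eval₂ σ x p := by
  induction p using MvPolynomial.induction_on with
  | C c => simpa using contDiff_const
  | add p q hp hq => simpa using hp.add hq
  | mul_X p k hp => simpa using hp.mul (contDiff_apply ℝ ℂ k)

theorem exists_fderiv_ev (σ : K →+* ℂ) {N : ℕ} (p : MvPolynomial (Fin N) K) (x : Fin N → ℂ) :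
    ∃ f' : (Fin N → ℂ) →L[ℂ] ℂ, HasFDerivAt (fun x : Fin N → ℂ => MvPolynomial.eval₂ σ x p) f' x ∧
      ∀ y, f' y = ∑ j, MvPolynomial.eval₂ σ x (MvPolynomial.pderiv j p) * y j := by
  classical
  induction p using MvPolynomial.induction_on with
  | C c =>
    have e1 : (fun x : Fin N → ℂ => MvPolynomial.eval₂ σ x (MvPolynomial.C c)) =
        fun _ => σ c := by
      funext y
      rw [MvPolynomial.eval₂_C]
    refine ⟨0, ?_, fun y => ?_⟩
    · rw [e1]
      exact hasFDerivAt_const (σ c) x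
    · refine (Finset.sum_eq_zero fun j _ => ?_).symm
      rw [MvPolynomial.pderiv_C, MvPolynomial.eval₂_zero, zero_mul]
  | add p q hp hq =>
    obtain ⟨f, hf, hf'⟩ := hp
    obtain ⟨g, hg, hg'⟩ := hq
    have e1 : (fun x : Fin N → ℂ => MvPolynomial.eval₂ σ x (p + q)) =
        (fun x : Fin N → ℂ => MvPolynomial.eval₂ σ x p) +
          fun x : Fin N → ℂ => MvPolynomial.eval₂ σ x q := by
      funext y
      rw [MvPolynomial.eval₂_add]
      rfl
    refine ⟨f + g, ?_, fun y => ?_⟩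
    · rw [e1]
      exact hf.add hg
    · show f y + g y = _
      rw [hf', hg', ← Finset.sum_add_distrib]
      refine Finset.sum_congr rfl fun j _ => ?_
      rw [map_add, MvPolynomial.eval₂_add, add_mul]
  | mul_X p k hp =>
    obtain ⟨f, hf, hf'⟩ := hp
    have h1 : HasFDerivAt (fun x : Fin N → ℂ => x k)
        (ContinuousLinearMap.proj k : (Fin N → ℂ) →L[ℂ] ℂ) x :=
      (ContinuousLinearMap.proj k : (Fin N → ℂ) →L[ℂ] ℂ).hasFDerivAt
    have e1 : (fun x : Fin N → ℂ => MvPolynomial.eval₂ σ x (p * MvPolynomial.X k)) =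
        (fun x : Fin N → ℂ => MvPolynomial.eval₂ σ x p) * fun x : Fin N → ℂ => x k := by
      funext y
      rw [MvPolynomial.eval₂_mul, MvPolynomial.eval₂_X]
      rfl
    have h2 := hf.mul h1
    rw [← e1] at h2
    refine ⟨_, h2, fun y => ?_⟩
    · have h3 : ∀ j, MvPolynomial.eval₂ σ x (MvPolynomial.pderiv j (p * MvPolynomial.X k)) =
          MvPolynomial.eval₂ σ x p * (if j = k then 1 else 0) +
            x k * MvPolynomial.eval₂ σ x (MvPolynomial.pderiv j p) := by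
        intro j
        rw [Derivation.leibniz, smul_eq_mul, smul_eq_mul, MvPolynomial.eval₂_add,
          MvPolynomial.eval₂_mul, MvPolynomial.eval₂_mul, MvPolynomial.eval₂_X,
          MvPolynomial.pderiv_X]
        congr 2
        by_cases hjk : j = k
        · subst hjk
          rw [Pi.single_eq_same, MvPolynomial.eval₂_one, if_pos rfl]
        · rw [Pi.single_eq_of_ne (Ne.symm hjk), MvPolynomial.eval₂_zero, if_neg hjk]
      show MvPolynomial.eval₂ σ x p * y k + x k * f y = _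
      simp only [h3, add_mul, Finset.sum_add_distrib]
      rw [hf', Finset.mul_sum]
      congr 1
      · rw [Finset.sum_eq_single k]
        · rw [if_pos rfl, mul_one]
        · intro j _ hj
          rw [if_neg hj, mul_zero, zero_mul]
        · intro h
          exact absurd (Finset.mem_univ _) h
      · refine Finset.sum_congr rfl fun j _ => ?_
        rw [mul_assoc]

end poly

section asyl

variable {d : ℕ} {δ δ' : ℝ} {ω ω' : Fin (d + 1) → ℝ} {f g : ℂ → (Fin d → ℝ) → ℂ}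

theorem Asy.mono (h : Asy δ ω f) (hδ : δ ≤ δ') : Asy δ' ω f :=
  Eventually.mono h fun _ hε => hε.mono hδ

theorem Asy.mul (hf : Asy δ ω f) (hg : Asy δ' ω' g) :
    Asy (δ + δ') (ω + ω') fun ε θ => f ε θ * g ε θ :=
  (Filter.Eventually.and hf hg).mono fun _ h => h.1.mul h.2

theorem Asy.div (hf : Asy δ ω f) (hg : Asy δ' ω' g) :
    Asy (δ + δ') (ω - ω') fun ε θ => f ε θ / g ε θ :=
  (Filter.Eventually.and hf hg).mono fun _ h => h.1.div h.2

theorem Asy.prod {ι : Type*} (t : Finset ι) {F : ι → ℂ → (Fin d → ℝ) → ℂ}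
    {Ω : ι → Fin (d + 1) → ℝ} (h : ∀ i ∈ t, Asy δ (Ω i) (F i)) :
    Asy (t.card * δ) (∑ i ∈ t, Ω i) fun ε θ => ∏ i ∈ t, F i ε θ := by
  have h1 := (Finset.eventually_all t).2 h
  exact h1.mono fun ε hε => Near.prod t (F := fun i => F i ε) hε

theorem Asy.pow (hf : Asy δ ω f) (k : ℕ) :
    Asy (k * δ) ((k : ℝ) • ω) fun ε θ => f ε θ ^ k :=
  Eventually.mono hf fun _ h => h.pow k

theorem Asy.congr (h : Asy δ ω f) (hfg : ∀ᶠ ε in 𝓝[≠] (0 : ℂ), f ε = g ε) : Asy δ ω g := by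
  unfold Asy at h ⊢
  filter_upwards [h, hfg] with ε h1 h2
  rwa [h2] at h1

end asyl

section chart

variable {K : Type*} [Field K] {n : ℕ} {E : Type*}

/-- Coordinates `w_0, ..., w_n` near a point, in which the polynomials `p_e` are products of
monomials of exponents `μ_e` and functions `h_e` with `h_e(0) ≠ 0`, and `w_0` occurs once in the
product of all `p_e`. -/
structure MChart [Fintype E] (σ : K →+* ℂ) (p : E → MvPolynomial (Fin (n + 1)) K)
    (μ : E → Fin (n + 1) → ℕ) (h : E → (Fin (n + 1) → ℂ) → ℂ)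
    (X : (Fin (n + 1) → ℂ) → Fin (n + 1) → ℂ) : Prop where
  smooth : ContDiff ℝ 2 X
  eq : ∀ e w, MvPolynomial.eval₂ σ (X w) (p e) = (∏ j, w j ^ μ e j) * h e w
  hsmooth : ∀ e, ContDiff ℝ 2 (h e)
  ne : ∀ e, h e 0 ≠ 0
  one : ∑ e, μ e 0 = 1

/-- the parameters `w` -/
noncomputable def wpt (n q : ℕ) (ρ : ℝ) (u : ℂ) (θ : Fin (n + 1 + q) → ℝ) : Fin (n + 1) → ℂ :=
  Fin.cons u fun j => circ ρ (θ (iw n q j))

theorem wpt_zero (n q : ℕ) (ρ : ℝ) (u : ℂ) (θ : Fin (n + 1 + q) → ℝ) : wpt n q ρ u θ 0 = u := rfl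

theorem wpt_succ (n q : ℕ) (ρ : ℝ) (u : ℂ) (θ : Fin (n + 1 + q) → ℝ) (j : Fin n) :
    wpt n q ρ u θ j.succ = circ ρ (θ (iw n q j)) := rfl

theorem circ_add_single (ρ : ℝ) {d : ℕ} (θ : Fin d → ℝ) (i k : Fin d) :
    circ ρ ((θ + Pi.single i 1 : Fin d → ℝ) k) = circ ρ (θ k) := by
  by_cases h : k = i
  · subst h
    rw [Pi.add_apply, Pi.single_eq_same, circ_add_one]
  · rw [Pi.add_apply, Pi.single_eq_of_ne h, add_zero]

theorem wpt_per (n q : ℕ) (ρ : ℝ) (u : ℂ) (θ : Fin (n + 1 + q) → ℝ) (i : Fin (n + 1 + q)) :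
    wpt n q ρ u (θ + Pi.single i 1) = wpt n q ρ u θ := by
  unfold wpt
  congr 1
  funext j
  exact circ_add_single _ _ _ _

theorem contDiff_wpt (n q : ℕ) (ρ : ℝ) :
    ContDiff ℝ 2 fun z : ℂ × (Fin (n + 1 + q) → ℝ) => wpt n q ρ z.1 z.2 := by
  refine contDiff_pi.2 fun j => ?_
  refine Fin.cases ?_ (fun j => ?_) j
  · exact contDiff_fst
  · exact (contDiff_circ ρ).comp ((contDiff_apply ℝ ℝ (iw n q j)).comp contDiff_snd)

variable (q : ℕ)

/-- For small radii the functions which do not vanish at the point are almost constant. -/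
theorem exists_radius [Finite E] {h : E → (Fin (n + 1) → ℂ) → ℂ}
    (hs : ∀ e, ContDiff ℝ 2 (h e)) (hne : ∀ e, h e 0 ≠ 0) {δ : ℝ} (hδ : 0 < δ) :
    ∃ ρ : ℝ, 0 < ρ ∧ ∀ e,
      (∀ θ : Fin (n + 1 + q) → ℝ, h e (wpt n q ρ 0 θ) ≠ 0) ∧
      ∀ θ i, ‖lw (fun θ => h e (wpt n q ρ 0 θ)) i θ‖ ≤ δ := by
  classical
  set y : ℂ × (Fin (n + 1 + q) → ℝ) → Fin (n + 1) → ℂ := fun z =>
    Fin.cons 0 fun j => z.1 * circ 1 (z.2 (iw n q j)) with hy
  have hyc : ContDiff ℝ 2 y := by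
    refine contDiff_pi.2 fun j => ?_
    refine Fin.cases ?_ (fun j => ?_) j
    · exact contDiff_const
    · exact contDiff_fst.mul
        ((contDiff_circ 1).comp ((contDiff_apply ℝ ℝ (iw n q j)).comp contDiff_snd))
  have hy0 : ∀ θ, y (0, θ) = 0 := by
    intro θ
    funext j
    refine Fin.cases rfl (fun j => ?_) j
    show (0 : ℂ) * _ = 0
    rw [zero_mul]
  have hF : ∀ e, Fam fun z => h e (y z) := by
    intro e
    have hc : ContDiff ℝ 2 fun z => h e (y z) := (hs e).comp hyc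
    refine ⟨Eventually.of_forall fun ε θ => hc.contDiffAt, Eventually.of_forall fun ε θ i => ?_⟩
    have h1 : y (ε, θ + Pi.single i 1) = y (ε, θ) := by
      simp only [hy, circ_add_single]
    show h e (y (ε, θ + Pi.single i 1)) = _
    rw [h1]
  have hall : ∀ᶠ ε in 𝓝 (0 : ℂ), ∀ e, Good (fun θ => h e (y (ε, θ))) ∧
      ∀ θ i, ‖lw (fun θ => h e (y (ε, θ))) i θ‖ ≤ δ := by
    rw [eventually_all]
    intro e
    have h1 := (hF e).close (fun θ => by rw [hy0]; exact hne e) hδ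
    filter_upwards [h1] with ε hε
    refine ⟨hε.1, fun θ i => ?_⟩
    have h2 := hε.2.2 θ i
    have h3 : (fun θ : Fin (n + 1 + q) → ℝ => h e (y (0, θ))) = fun _ => h e 0 := by
      funext θ
      rw [hy0]
    rwa [h3, lw_const, sub_zero] at h2
  obtain ⟨r, hr, hr'⟩ := Metric.eventually_nhds_iff.1 hall
  have hpos : (0 : ℝ) < r / 2 := by positivity
  refine ⟨r / 2, hpos, fun e => ?_⟩
  obtain ⟨h1, h2⟩ := hr' (y := ((r / 2 : ℝ) : ℂ)) (by
    rw [dist_zero_right, Complex.norm_real, Real.norm_eq_abs, abs_of_pos hpos]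
    linarith) e
  have h3 : ∀ θ : Fin (n + 1 + q) → ℝ, y (((r / 2 : ℝ) : ℂ), θ) = wpt n q (r / 2) 0 θ := by
    intro θ
    simp only [hy]
    unfold wpt circ
    congr 1
    funext j
    push_cast
    ring
  simp only [h3] at h1 h2
  exact ⟨h1.ne_zero, h2⟩

end chart

section points

variable {K : Type*} [Field K] {n q : ℕ} {E : Type*} [Fintype E]
  {σ : K →+* ℂ} {p : E → MvPolynomial (Fin (n + 1)) K} {μ : E → Fin (n + 1) → ℕ}
  {h : E → (Fin (n + 1) → ℂ) → ℂ}
  {X : (Fin (n + 1) → ℂ) → Fin (n + 1) → ℂ} {W : Lau K (q + 1)} {v : Fin (q + 1) → ℤ}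

/-- the type of a monomial -/
noncomputable def oe (n q : ℕ) (v : Fin (q + 1) → ℤ) (N : Fin (n + 1) → ℕ)
    (m : Fin (n + 1) → ℕ) : Fin (n + 1 + q + 1) → ℝ := ∑ j, (m j : ℝ) • ow n q v N j

theorem single_succ {d : ℕ} (i : Fin d) : (Pi.single i.succ 1 : Fin (d + 1) → ℝ) =
    Fin.cons 0 (Pi.single i 1) := by
  funext j
  refine Fin.cases ?_ (fun j => ?_) j
  · rw [Fin.cons_zero, Pi.single_eq_of_ne (Fin.succ_ne_zero _).symm]
  · rw [Fin.cons_succ]
    by_cases hi : j = i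
    · rw [hi, Pi.single_eq_same, Pi.single_eq_same]
    · rw [Pi.single_eq_of_ne hi, Pi.single_eq_of_ne fun h => hi (Fin.succ_injective _ h)]

/-- a coordinate which moves on a circle -/
theorem asy_circ {d : ℕ} {R δ : ℝ} (hR : 0 < R) (hδ : 0 < δ) (k : Fin d) :
    Asy (2 * δ) (Pi.single k.succ 1) fun _ θ => circ R (θ k) := by
  rw [single_succ]
  have hf : Fam fun y : ℂ × (Fin d → ℝ) => circ R (y.2 k) := by
    refine ⟨Eventually.of_forall fun ε θ => ?_, Eventually.of_forall fun ε θ i => ?_⟩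
    · have : ContDiff ℝ 2 fun y : ℂ × (Fin d → ℝ) => circ R (y.2 k) :=
        (contDiff_circ R).comp ((contDiff_apply ℝ ℝ k).comp contDiff_snd)
      exact this.contDiffAt
    · exact circ_add_single _ _ _ _
  refine hf.asy (fun θ => circ_ne_zero hR _) hδ fun θ i => ?_
  show ‖lw (fun θ : Fin d → ℝ => circ R (θ k)) i θ - _‖ ≤ δ
  rw [lw_circ hR]
  by_cases hi : i = k
  · rw [hi, Pi.single_eq_same, if_pos rfl]
    simpa using hδ.le
  · rw [Pi.single_eq_of_ne hi, if_neg hi]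
    simpa using hδ.le

/-- Points of the hypersurfaces near a vertex. -/
theorem MChart.exists_points (hX : MChart σ p μ h X)
    (hv : ∀ δ : ℝ, 0 < δ → ∃ (R : Fin (q + 1) → ℝ) (hR : ∀ l, 0 < R l),
        Good (fun θ => evL σ (zc R hR θ) W) ∧
        ∀ θ j, ‖lw (fun θ => evL σ (zc R hR θ) W) j θ - 2 * Real.pi * Complex.I * v j‖ ≤ δ)
    {δ : ℝ} (hδ : 0 < δ) :
    ∃ (x : ℂ → (Fin (n + 1 + q) → ℝ) → Fin (n + 1) → ℂ)
      (z : (Fin (n + 1 + q) → ℝ) → Fin (q + 1) → ℂˣ),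
      (∀ l, ContDiff ℝ 2 fun θ => (z θ l : ℂ)) ∧ (∀ θ i, z (θ + Pi.single i 1) = z θ) ∧
      (∀ θ, evL σ (z θ) W ≠ 0) ∧
      (∀ θ l, ‖lw (fun θ => evL σ (z θ) W) (iz n q l) θ - 2 * Real.pi * Complex.I * v l‖ ≤ δ) ∧
      (∀ l, Asy δ (oi n q l) fun _ θ => (z θ l : ℂ)) ∧
      (∀ᶠ ε in 𝓝[≠] (0 : ℂ), ContDiff ℝ 2 (x ε) ∧ (∀ θ i, x ε (θ + Pi.single i 1) = x ε θ) ∧
        ∀ θ, ∏ e, MvPolynomial.eval₂ σ (x ε θ) (p e) = ε * evL σ (z θ) W) ∧
      ∀ e, Asy δ (oe n q v (fun j => ∑ e, μ e j) (μ e))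
        fun ε θ => MvPolynomial.eval₂ σ (x ε θ) (p e) := by
  classical
  set N : Fin (n + 1) → ℕ := fun j => ∑ e, μ e j with hN
  set c : ℝ := (Fintype.card E : ℝ) with hc
  have hc0 : 0 ≤ c := Nat.cast_nonneg _
  set M : ℝ := ∑ j, (N j : ℝ) with hM
  have hM0 : 0 ≤ M := Finset.sum_nonneg fun j _ => Nat.cast_nonneg _
  set δ' : ℝ := δ / (2 * (2 + 2 * M + c)) with hδ'
  have hδ'pos : 0 < δ' := by positivity
  have hδ'eq : 2 * δ' * (2 + 2 * M + c) = δ := by
    rw [hδ']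
    field_simp
  have hMδ : 0 ≤ M * δ' := mul_nonneg hM0 hδ'pos.le
  have hcδ : 0 ≤ c * δ' := mul_nonneg hc0 hδ'pos.le
  have hδ'eq2 : 4 * δ' + 4 * (M * δ') + 2 * (c * δ') = δ := by
    rw [← hδ'eq]
    ring
  have h2δ : 2 * δ' ≤ δ := by linarith
  obtain ⟨R, hR, hBg, hBw⟩ := hv δ' hδ'pos
  obtain ⟨ρ, hρ, hρe⟩ := exists_radius (q := q) hX.hsmooth hX.ne hδ'pos
  -- the function `B`
  set z : (Fin (n + 1 + q) → ℝ) → Fin (q + 1) → ℂˣ := fun θ => zc R hR (pl (iz n q) θ) with hz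
  have hzl : ∀ θ l, (z θ l : ℂ) = circ (R l) (θ (iz n q l)) := fun θ l => rfl
  have hzp : ∀ θ i, z (θ + Pi.single i 1) = z θ := by
    intro θ i
    funext l
    refine Units.ext ?_
    rw [hzl, hzl, circ_add_single]
  set B : (Fin (n + 1 + q) → ℝ) → ℂ := fun θ => evL σ (z θ) W with hB
  have hBc : ContDiff ℝ 2 B := hBg.smooth.comp (pl (iz n q)).contDiff
  have hB0 : ∀ θ, B θ ≠ 0 := fun θ => hBg.ne_zero _
  have hBp : ∀ θ i, B (θ + Pi.single i 1) = B θ := by
    intro θ i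
    simp only [hB, hzp]
  set bB : Fin (n + 1 + q) → ℝ := ∑ l, (v l : ℝ) • Pi.single (iz n q l) 1 with hbB
  have hlwB1 : ∀ l θ, lw B (iz n q l) θ =
      lw (fun θ => evL σ (zc R hR θ) W) l (pl (iz n q) θ) := fun l θ =>
    lw_pl (iz_injective n q) hBg.smooth l θ
  have hbB1 : ∀ l, bB (iz n q l) = v l := by
    intro l
    rw [hbB, Finset.sum_apply, Finset.sum_eq_single l]
    · rw [Pi.smul_apply, Pi.single_eq_same, smul_eq_mul, mul_one]
    · intro l' _ hl'
      rw [Pi.smul_apply, Pi.single_eq_of_ne (fun h => hl' (iz_injective n q h).symm), smul_zero]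
    · intro h
      exact absurd (Finset.mem_univ _) h
  have hbB2 : ∀ i, (∀ l, iz n q l ≠ i) → bB i = 0 := by
    intro i hi
    rw [hbB, Finset.sum_apply]
    refine Finset.sum_eq_zero fun l _ => ?_
    rw [Pi.smul_apply, Pi.single_eq_of_ne (Ne.symm (hi l)), smul_zero]
  have hlwB : ∀ θ i, ‖lw B i θ - 2 * Real.pi * Complex.I * bB i‖ ≤ δ' := by
    intro θ i
    by_cases hi : ∃ l, iz n q l = i
    · obtain ⟨l, rfl⟩ := hi
      rw [hlwB1, hbB1]
      have := hBw (pl (iz n q) θ) l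
      push_cast
      exact this
    · push Not at hi
      have h1 : lw B i θ = 0 := lw_pl_of_ne hBg.smooth hi θ
      rw [h1, hbB2 i hi]
      simpa using hδ'pos.le
  have hBfam : Fam fun z : ℂ × (Fin (n + 1 + q) → ℝ) => B z.2 :=
    ⟨Eventually.of_forall fun ε θ => (hBc.comp contDiff_snd).contDiffAt,
      Eventually.of_forall fun ε θ i => hBp θ i⟩
  have hBasy : Asy (2 * δ') (Fin.cons 0 bB) fun _ θ => B θ :=
    hBfam.asy (fun θ => hB0 θ) hδ'pos fun θ j => hlwB θ j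
  -- the equation
  set G : ℂ × (Fin (n + 1 + q) → ℝ) → ℂ := fun y =>
    (∏ j : Fin n, circ ρ (y.2 (iw n q j)) ^ N j.succ) *
      ∏ e, h e (wpt n q ρ y.1 y.2) with hG
  have hwc := contDiff_wpt n q ρ
  have hcc : ∀ j : Fin n, ContDiff ℝ 2
      fun y : ℂ × (Fin (n + 1 + q) → ℝ) => circ ρ (y.2 (iw n q j)) := fun j =>
    (contDiff_circ ρ).comp ((contDiff_apply ℝ ℝ (iw n q j)).comp contDiff_snd)
  have hGc : ContDiff ℝ 2 G :=
    (contDiff_prod fun j _ => (hcc j).pow _).mul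
      (contDiff_prod fun e _ => (hX.hsmooth e).comp hwc)
  have hGp : ∀ u θ i, G (u, θ + Pi.single i 1) = G (u, θ) := by
    intro u θ i
    simp only [hG, wpt_per, circ_add_single]
  have hG0 : ∀ θ, G (0, θ) ≠ 0 := by
    intro θ
    refine mul_ne_zero (Finset.prod_ne_zero_iff.2 fun j _ => pow_ne_zero _ (circ_ne_zero hρ _))
      (Finset.prod_ne_zero_iff.2 fun e _ => (hρe e).1 θ)
  obtain ⟨U, r, hr, hU0, hU⟩ := exists_implicit hGc hBc hGp hBp hG0
  set x : ℂ → (Fin (n + 1 + q) → ℝ) → Fin (n + 1) → ℂ := fun ε θ =>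
    X (wpt n q ρ (U (ε, θ)) θ) with hx
  have hball : ∀ᶠ ε in 𝓝 (0 : ℂ), ‖ε‖ < r :=
    (continuous_norm.continuousAt (x := (0 : ℂ))).eventually
      (gt_mem_nhds (by simpa using hr))
  have hfac : ∀ e ε θ, MvPolynomial.eval₂ σ (x ε θ) (p e) = U (ε, θ) ^ μ e 0 *
      (∏ j : Fin n, circ ρ (θ (iw n q j)) ^ μ e j.succ) *
        h e (wpt n q ρ (U (ε, θ)) θ) := by
    intro e ε θ
    simp only [hx]
    rw [hX.eq, Fin.prod_univ_succ, wpt_zero]
    rfl
  have hprod : ∀ ε θ, ∏ e, MvPolynomial.eval₂ σ (x ε θ) (p e) =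
      U (ε, θ) * G (U (ε, θ), θ) := by
    intro ε θ
    simp only [hfac]
    rw [Finset.prod_mul_distrib, Finset.prod_mul_distrib, Finset.prod_pow_eq_pow_sum, hX.one,
      pow_one, Finset.prod_comm, mul_assoc]
    congr 2
    refine Finset.prod_congr rfl fun j _ => ?_
    rw [Finset.prod_pow_eq_pow_sum]
  have hUc : ∀ ε : ℂ, ‖ε‖ < r → ∀ θ, ContDiffAt ℝ 2
      (fun y : ℂ × (Fin (n + 1 + q) → ℝ) => wpt n q ρ (U (y.1, y.2)) y.2) (ε, θ) := by
    intro ε hε θ
    have h1 : ContDiffAt ℝ 2 (fun y : ℂ × (Fin (n + 1 + q) → ℝ) =>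
        (U (y.1, y.2), y.2)) (ε, θ) := (hU ε hε θ).2.1.prodMk contDiffAt_snd
    exact hwc.contDiffAt.comp (ε, θ) h1
  have hxc : ∀ ε : ℂ, ‖ε‖ < r → ∀ θ, ContDiffAt ℝ 2
      (fun y : ℂ × (Fin (n + 1 + q) → ℝ) => x y.1 y.2) (ε, θ) := fun ε hε θ =>
    hX.smooth.contDiffAt.comp (ε, θ) (hUc ε hε θ)
  have hUp : ∀ ε : ℂ, ‖ε‖ < r → ∀ θ i, wpt n q ρ (U (ε, θ + Pi.single i 1)) (θ + Pi.single i 1) =
      wpt n q ρ (U (ε, θ)) θ := by
    intro ε hε θ i
    rw [wpt_per, (hU ε hε θ).2.2 i]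
  have hxp : ∀ ε : ℂ, ‖ε‖ < r → ∀ θ i, x ε (θ + Pi.single i 1) = x ε θ := by
    intro ε hε θ i
    simp only [hx]
    rw [hUp ε hε]
  have hhF : ∀ e, Fam fun y : ℂ × (Fin (n + 1 + q) → ℝ) =>
      h e (wpt n q ρ (U (y.1, y.2)) y.2) := by
    intro e
    refine ⟨?_, ?_⟩
    · filter_upwards [hball] with ε hε θ
      exact (hX.hsmooth e).contDiffAt.comp (ε, θ) (hUc ε hε θ)
    · filter_upwards [hball] with ε hε θ i
      show h e (wpt n q ρ (U (ε, θ + Pi.single i 1)) (θ + Pi.single i 1)) = _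
      rw [hUp ε hε]
  have hcons0 : (0 : Fin (n + 1 + q + 1) → ℝ) = Fin.cons 0 0 := by
    funext i
    refine Fin.cases rfl (fun i => ?_) i
    rfl
  have hhasy : ∀ e, Asy (2 * δ') (0 : Fin (n + 1 + q + 1) → ℝ)
      fun ε θ => h e (wpt n q ρ (U (ε, θ)) θ) := by
    intro e
    rw [hcons0]
    refine (hhF e).asy (fun θ => ?_) hδ'pos fun θ i => ?_
    · show h e (wpt n q ρ (U (0, θ)) θ) ≠ 0
      rw [hU0]
      exact (hρe e).1 θ
    · have h2 : (fun θ => h e (wpt n q ρ (U (0, θ)) θ)) = fun θ => h e (wpt n q ρ 0 θ) := by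
        funext θ
        rw [hU0]
      show ‖lw (fun θ => h e (wpt n q ρ (U (0, θ)) θ)) i θ - _‖ ≤ δ'
      rw [h2, Pi.zero_apply]
      simpa using (hρe e).2 θ i
  have hcirc : ∀ j : Fin n, Asy (2 * δ') (Pi.single (iw n q j).succ 1)
      fun _ θ => circ ρ (θ (iw n q j)) := fun j => asy_circ hρ hδ'pos _
  have hmon : ∀ (k : Fin n → ℕ), (∀ j, (k j : ℝ) ≤ M) → ∑ j, (k j : ℝ) ≤ M →
      Asy (2 * (M * δ')) (∑ j : Fin n, (k j : ℝ) • (Pi.single (iw n q j).succ 1 :
        Fin (n + 1 + q + 1) → ℝ)) fun _ θ => ∏ j : Fin n, circ ρ (θ (iw n q j)) ^ k j := by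
    intro k _ hk
    have key : ∀ s : Finset (Fin n), Asy ((∑ j ∈ s, (k j : ℝ)) * (2 * δ'))
        (∑ j ∈ s, (k j : ℝ) • (Pi.single (iw n q j).succ 1 : Fin (n + 1 + q + 1) → ℝ))
        fun _ θ => ∏ j ∈ s, circ ρ (θ (iw n q j)) ^ k j := by
      intro s
      induction s using Finset.induction_on with
      | empty =>
        simp only [Finset.sum_empty, zero_mul, Finset.prod_empty]
        exact Eventually.of_forall fun ε => near_one _
      | insert j s hj ih =>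
        rw [Finset.sum_insert hj, Finset.sum_insert hj, add_mul]
        simp only [Finset.prod_insert hj]
        exact ((hcirc j).pow (k j)).mul ih
    refine (key Finset.univ).mono ?_
    have h1 : (∑ j, (k j : ℝ)) * (2 * δ') ≤ M * (2 * δ') :=
      mul_le_mul_of_nonneg_right hk (by linarith)
    linarith
  have hsumN : ∑ j : Fin n, (N j.succ : ℝ) ≤ M := by
    rw [hM, Fin.sum_univ_succ]
    have : (0 : ℝ) ≤ N 0 := Nat.cast_nonneg _
    linarith
  have hμN : ∀ e j, (μ e j : ℝ) ≤ N j := by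
    intro e j
    have : μ e j ≤ N j := Finset.single_le_sum (f := fun e => μ e j)
      (fun e _ => Nat.zero_le _) (Finset.mem_univ e)
    exact_mod_cast this
  have hsumμ : ∀ e, ∑ j : Fin n, (μ e j.succ : ℝ) ≤ M := fun e =>
    (Finset.sum_le_sum fun j _ => hμN e j.succ).trans hsumN
  have hle1 : ∀ k : Fin n → ℕ, ∑ j, (k j : ℝ) ≤ M → ∀ j, (k j : ℝ) ≤ M := fun k hk j =>
    (Finset.single_le_sum (f := fun j => (k j : ℝ)) (fun j _ => Nat.cast_nonneg _)
      (Finset.mem_univ j)).trans hk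
  -- the type of `U`
  have hGasy : Asy (2 * (M * δ') + c * (2 * δ'))
      (∑ j : Fin n, (N j.succ : ℝ) • (Pi.single (iw n q j).succ 1 :
        Fin (n + 1 + q + 1) → ℝ) + ∑ e : E, 0) fun ε θ => G (U (ε, θ), θ) :=
    (hmon (fun j => N j.succ) (hle1 _ hsumN) hsumN).mul
      (Asy.prod Finset.univ fun e _ => hhasy e)
  rw [Finset.sum_const_zero, add_zero] at hGasy
  have hUasy := (asy_eps.mul hBasy).div hGasy
  have hcons : (Fin.cons 0 bB : Fin (n + 1 + q + 1) → ℝ) =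
      ∑ l, (v l : ℝ) • Pi.single (iz n q l).succ 1 := by
    funext i
    rw [Finset.sum_apply]
    refine Fin.cases ?_ (fun i => ?_) i
    · rw [Fin.cons_zero]
      refine (Finset.sum_eq_zero fun l _ => ?_).symm
      rw [Pi.smul_apply, Pi.single_eq_of_ne (Fin.succ_ne_zero _).symm, smul_zero]
    · rw [Fin.cons_succ, hbB, Finset.sum_apply]
      refine Finset.sum_congr rfl fun l _ => ?_
      rw [Pi.smul_apply, Pi.smul_apply, single_succ, Fin.cons_succ]
  have hasyU : Asy (2 * δ' + 2 * (M * δ') + 2 * (c * δ')) (ow n q v N 0)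
      fun ε θ => U (ε, θ) := by
    have h1 : ow n q v N 0 = (Fin.cons (-1) 0 + Fin.cons 0 bB -
        ∑ j : Fin n, (N j.succ : ℝ) • (Pi.single (iw n q j).succ 1 :
        Fin (n + 1 + q + 1) → ℝ)) := by
      rw [hcons]
      unfold ow
      rw [Fin.cons_zero]
      congr 2
      funext i
      refine Fin.cases ?_ (fun i => ?_) i
      · rw [Pi.neg_apply, Pi.single_eq_same, Fin.cons_zero]
      · rw [Pi.neg_apply, Pi.single_eq_of_ne (Fin.succ_ne_zero _), Fin.cons_succ, neg_zero]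
        rfl
    rw [h1]
    refine (hUasy.mono (le_of_eq (by ring))).congr ?_
    have hUasy' := hUasy
    unfold Asy at hUasy'
    filter_upwards [nhdsWithin_le_nhds hball, hUasy'] with ε hε hε2
    funext θ
    rw [← (hU ε hε θ).1]
    have h4 : G (U (ε, θ), θ) ≠ 0 := by
      intro h0
      have h5 := hε2.good.ne_zero θ
      rw [h0, div_zero] at h5
      exact h5 rfl
    rw [mul_div_assoc, div_self h4, mul_one]
  have hμ0 : ∀ e, (μ e 0 : ℝ) ≤ 1 := by
    intro e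
    have h1 := hμN e 0
    have h2 : N 0 = 1 := hX.one
    rw [h2] at h1
    exact_mod_cast h1
  refine ⟨x, z, fun l => ?_, hzp, hB0, fun θ l => ?_, fun l => ?_, ?_, fun e => ?_⟩
  · exact (contDiff_circ (R l)).comp (contDiff_apply ℝ ℝ (iz n q l))
  · have h1 := hlwB θ (iz n q l)
    rw [hbB1] at h1
    push_cast at h1
    refine h1.trans ?_
    linarith
  · exact (asy_circ (hR l) hδ'pos (iz n q l)).mono h2δ
  · filter_upwards [nhdsWithin_le_nhds hball] with ε hε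
    refine ⟨?_, hxp ε hε, fun θ => ?_⟩
    · rw [contDiff_iff_contDiffAt]
      intro θ
      exact (hxc ε hε θ).comp θ (contDiffAt_const.prodMk contDiffAt_id)
    · rw [hprod]
      exact (hU ε hε θ).1
  · have h1 := ((hasyU.pow (μ e 0)).mul (hmon (fun j => μ e j.succ) (hle1 _ (hsumμ e))
      (hsumμ e))).mul (hhasy e)
    have h2 : (μ e 0 : ℝ) • ow n q v N 0 + ∑ j : Fin n, (μ e j.succ : ℝ) •
        (Pi.single (iw n q j).succ 1 : Fin (n + 1 + q + 1) → ℝ) + 0 =
        oe n q v N (μ e) := by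
      unfold oe
      rw [add_zero, Fin.sum_univ_succ]
      congr 1
    rw [h2] at h1
    have h3 : (fun ε θ => U (ε, θ) ^ μ e 0 *
        (∏ j : Fin n, circ ρ (θ (iw n q j)) ^ μ e j.succ) *
        h e (wpt n q ρ (U (ε, θ)) θ)) =
        fun ε θ => MvPolynomial.eval₂ σ (x ε θ) (p e) := by
      funext ε θ
      exact (hfac e ε θ).symm
    rw [← h3]
    refine h1.mono ?_
    have h4 : (μ e 0 : ℝ) * (2 * δ' + 2 * (M * δ') + 2 * (c * δ')) ≤
        1 * (2 * δ' + 2 * (M * δ') + 2 * (c * δ')) :=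
      mul_le_mul_of_nonneg_right (hμ0 e) (by linarith)
    linarith

end points

end Pool.Agent.Q212.LF
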