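import Pool.Agent.Q212.LF.MChart
set_option autoImplicit false

/-!
Tori in the hypersurfaces `W(z) = λ ∏ p_e(x)` and the regulators of symbols on them, for large `λ`.
-/

namespace Pool.Agent.Q212.LF

open Filter Topology

open Pool.Agent.TH826.MK

open Pool.Agent.TH826.SX (det_ne_zero_near pairing_close)

section mk

variable {K : Type*} [Field K] {N q d : ℕ} {W : Lau K q} {Φ : MvPolynomial (Fin N) K}
  {σ : K →+* ℂ}

theorem good_mo {z : (Fin d → ℝ) → Fin q → ℂˣ} (hz : ∀ l, ContDiff ℝ 2 fun θ => (z θ l : ℂ))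
    (e : Fin q → ℤ) : Good fun θ => ((mo (z θ) e : ℂˣ) : ℂ) := by
  have h : (fun θ => ((mo (z θ) e : ℂˣ) : ℂ)) = fun θ => ∏ l, (z θ l : ℂ) ^ e l := by
    funext θ
    unfold mo
    rw [Units.coe_prod]
    exact Finset.prod_congr rfl fun l _ => Units.val_zpow_eq_zpow_val _ _
  rw [h]
  exact good_prod _ fun l => good_zpow ⟨hz l, fun θ => Units.ne_zero _⟩ _

theorem contDiff_evL {z : (Fin d → ℝ) → Fin q → ℂˣ} (hz : ∀ l, ContDiff ℝ 2 fun θ => (z θ l : ℂ))
    (w : Lau K q) : ContDiff ℝ 2 fun θ => evL σ (z θ) w := by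
  simp only [evL_eq]
  exact ContDiff.sum fun e _ => contDiff_const.mul (good_mo hz e).smooth

theorem contDiff_evM {x : (Fin d → ℝ) → Fin N → ℂ} {z : (Fin d → ℝ) → Fin q → ℂˣ}
    (hx : ContDiff ℝ 2 x) (hz : ∀ l, ContDiff ℝ 2 fun θ => (z θ l : ℂ))
    (p : MvPolynomial (Fin N) (Lau K q)) : ContDiff ℝ 2 fun θ => evM σ (x θ) (z θ) p := by
  induction p using MvPolynomial.induction_on with
  | C w =>
    simp only [evM_C]
    exact contDiff_evL hz w
  | add p q hp hq =>
    simp only [map_add]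
    exact hp.add hq
  | mul_X p k hp =>
    simp only [map_mul]
    refine hp.mul ?_
    have h : (fun θ => evM σ (x θ) (z θ) (MvPolynomial.X k)) = fun θ => x θ k := by
      funext θ
      exact MvPolynomial.eval₂Hom_X' _ _ _
    rw [h]
    exact contDiff_pi.1 hx k

theorem contDiff_evO {x : (Fin d → ℝ) → Fin N → ℂ} {z : (Fin d → ℝ) → Fin q → ℂˣ}
    (hx : ContDiff ℝ 2 x) (hz : ∀ l, ContDiff ℝ 2 fun θ => (z θ l : ℂ))
    (hP : ∀ θ, Pt W Φ σ (x θ) (z θ)) (h : HOpen W Φ) :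
    ContDiff ℝ 2 fun θ => (hP θ).evO h := by
  have hH : ∀ a : HRing W Φ, ContDiff ℝ 2 fun θ => (hP θ).evH a := by
    intro a
    obtain ⟨p, rfl⟩ := Ideal.Quotient.mk_surjective a
    exact contDiff_evM hx hz p
  obtain ⟨k, a, ha⟩ := IsLocalization.Away.surj (hpol W Φ Φ) h
  have h1 : (fun θ => (hP θ).evO h) = fun θ => (hP θ).evH a / (hP θ).evH (hpol W Φ Φ) ^ k := by
    funext θ
    have h2 := congrArg (hP θ).evO ha
    rw [map_mul, map_pow] at h2
    have h3 : (hP θ).evO (algebraMap (HRing W Φ) (HOpen W Φ) (hpol W Φ Φ)) =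
        (hP θ).evH (hpol W Φ Φ) := (hP θ).evO_toO _
    have h4 : (hP θ).evO (algebraMap (HRing W Φ) (HOpen W Φ) a) = (hP θ).evH a :=
      (hP θ).evO_toO _
    rw [h3, h4] at h2
    rw [eq_div_iff (pow_ne_zero _ (hP θ).isUnit.ne_zero)]
    exact h2
  rw [h1]
  simp only [div_eq_mul_inv]
  exact (hH a).mul (((hH _).pow k).inv fun θ => pow_ne_zero _ (hP θ).isUnit.ne_zero)

/-- a torus in the open part of the hypersurface -/
noncomputable def mkH (x : (Fin d → ℝ) → Fin N → ℂ) (z : (Fin d → ℝ) → Fin q → ℂˣ)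
    (hx : ContDiff ℝ 2 x) (hz : ∀ l, ContDiff ℝ 2 fun θ => (z θ l : ℂ))
    (hxp : ∀ θ i, x (θ + Pi.single i 1) = x θ) (hzp : ∀ θ i, z (θ + Pi.single i 1) = z θ)
    (hP : ∀ θ, Pt W Φ σ (x θ) (z θ)) : Torus (HOpen W Φ) d where
  e θ := (hP θ).evO
  smooth h := contDiff_evO hx hz hP h
  periodic θ i := Pt.evO_congr _ _ (hxp θ i) (hzp θ i)

end mk

section hent

variable {K : Type*} [Field K] {n q : ℕ} {W : Lau K (q + 1)} {Φ : MvPolynomial (Fin (n + 1)) K}

theorem hent_castAdd (B : Fin (n + 1) → (HOpen W Φ)ˣ) (k : Fin (n + 1)) :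
    hent B (Fin.castAdd (q + 1) k) = B k := Fin.append_left _ _ k

theorem hent_natAdd (B : Fin (n + 1) → (HOpen W Φ)ˣ) (l : Fin (q + 1)) :
    hent B (Fin.natAdd (n + 1) l) = oz W Φ l := Fin.append_right _ _ l

end hent

section mat

variable {n q : ℕ}

/-- the matrix of the types of the coordinates -/
noncomputable def Om (n q : ℕ) (v : Fin (q + 1) → ℤ) (N : Fin (n + 1) → ℕ) :
    Matrix (Fin (n + 1 + (q + 1))) (Fin (n + 1 + (q + 1))) ℝ :=
  Matrix.of (Fin.append (ow n q v N) (oi n q))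

/-- the matrix of the orders of the entries, given the exponents of the numerators and of the
denominators -/
def Mb (num den : Fin (n + 1) → Fin (n + 1) → ℕ) : Matrix (Fin (n + 1)) (Fin (n + 1)) ℝ :=
  Matrix.of fun k j => (num k j : ℝ) - den k j

theorem det_Om_ne_zero (n q : ℕ) (v : Fin (q + 1) → ℤ) (N : Fin (n + 1) → ℕ) :
    (Om n q v N).det ≠ 0 := by
  rw [Ne, ← Matrix.exists_vecMul_eq_zero_iff]
  rintro ⟨y, hy, h0⟩
  apply hy
  have h1 : ∀ i : Fin (n + 1 + q + 1), ∑ j : Fin (n + 1), y (Fin.castAdd (q + 1) j) *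
      ow n q v N j i + ∑ l : Fin (q + 1), y (Fin.natAdd (n + 1) l) * oi n q l i = 0 := by
    intro i
    have h2 := congrFun h0 i
    rw [Matrix.vecMul, dotProduct, Fin.sum_univ_add] at h2
    simp only [Om, Matrix.of_apply, Fin.append_left, Fin.append_right] at h2
    exact h2
  have hoi0 : ∀ l, oi n q l 0 = 0 := fun l => by
    unfold oi
    rw [Pi.single_eq_of_ne (Fin.succ_ne_zero _).symm]
  have how0 : ∀ j : Fin n, ow n q v N j.succ 0 = 0 := fun j => by
    unfold ow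
    rw [Fin.cons_succ, Pi.single_eq_of_ne (Fin.succ_ne_zero _).symm]
  have how00 : ow n q v N 0 0 = -1 := by
    unfold ow
    rw [Fin.cons_zero, Pi.sub_apply, Pi.add_apply, Pi.neg_apply, Pi.single_eq_same,
      Finset.sum_apply, Finset.sum_apply]
    rw [Finset.sum_eq_zero fun l _ => by
      rw [Pi.smul_apply, Pi.single_eq_of_ne (Fin.succ_ne_zero _).symm, smul_zero],
      Finset.sum_eq_zero fun j _ => by
        rw [Pi.smul_apply, Pi.single_eq_of_ne (Fin.succ_ne_zero _).symm, smul_zero]]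
    norm_num
  have hy0 : y (Fin.castAdd (q + 1) 0) = 0 := by
    have h2 := h1 0
    simp only [hoi0, mul_zero, Finset.sum_const_zero, add_zero] at h2
    rw [Fin.sum_univ_succ] at h2
    simp only [how0, mul_zero, Finset.sum_const_zero, add_zero, how00] at h2
    linarith
  have how : ∀ (j : Fin n) (i : Fin (n + 1 + q)), ow n q v N j.succ i.succ =
      if i = iw n q j then 1 else 0 := by
    intro j i
    unfold ow
    rw [Fin.cons_succ]
    split_ifs with h
    · rw [h, Pi.single_eq_same]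
    · rw [Pi.single_eq_of_ne fun h' => h (Fin.succ_injective _ h')]
  have hoi : ∀ (l : Fin (q + 1)) (i : Fin (n + 1 + q)), oi n q l i.succ =
      if i = iz n q l then 1 else 0 := by
    intro l i
    unfold oi
    split_ifs with h
    · rw [h, Pi.single_eq_same]
    · rw [Pi.single_eq_of_ne fun h' => h (Fin.succ_injective _ h')]
  have hyj : ∀ j : Fin n, y (Fin.castAdd (q + 1) j.succ) = 0 := by
    intro j
    have h2 := h1 (iw n q j).succ
    rw [Fin.sum_univ_succ, hy0, zero_mul, zero_add] at h2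
    simp only [how, hoi] at h2
    rw [Finset.sum_eq_zero (s := (Finset.univ : Finset (Fin (q + 1)))) fun l _ => by
      rw [if_neg fun h => iz_ne_iw n q l j h.symm, mul_zero], add_zero,
      Finset.sum_eq_single j] at h2
    · rwa [if_pos rfl, mul_one] at h2
    · intro i _ hi
      rw [if_neg fun h => hi (iw_injective n q h).symm, mul_zero]
    · intro h
      exact absurd (Finset.mem_univ _) h
  have hyl : ∀ l : Fin (q + 1), y (Fin.natAdd (n + 1) l) = 0 := by
    intro l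
    have h2 := h1 (iz n q l).succ
    rw [Fin.sum_univ_succ, hy0, zero_mul, zero_add] at h2
    simp only [hyj, zero_mul, Finset.sum_const_zero, zero_add, hoi] at h2
    rw [Finset.sum_eq_single l] at h2
    · rwa [if_pos rfl, mul_one] at h2
    · intro i _ hi
      rw [if_neg fun h => hi (iz_injective n q h).symm, mul_zero]
    · intro h
      exact absurd (Finset.mem_univ _) h
  funext i
  refine Fin.addCases (fun j => ?_) (fun l => ?_) i
  · refine Fin.cases ?_ (fun j => ?_) j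
    · exact hy0
    · exact hyj j
  · exact hyl l

/-- the matrix of the types of the entries -/
noncomputable def RT (n q : ℕ) (v : Fin (q + 1) → ℤ) (N : Fin (n + 1) → ℕ)
    (num den : Fin (n + 1) → Fin (n + 1) → ℕ) :
    Matrix (Fin (n + 1 + (q + 1))) (Fin (n + 1 + (q + 1))) ℝ :=
  Matrix.of (Fin.append (fun k => oe n q v N (num k) - oe n q v N (den k)) (oi n q))

theorem RT_castAdd (n q : ℕ) (v : Fin (q + 1) → ℤ) (N : Fin (n + 1) → ℕ)
    (num den : Fin (n + 1) → Fin (n + 1) → ℕ)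
    (k : Fin (n + 1)) : RT n q v N num den (Fin.castAdd (q + 1) k) =
      oe n q v N (num k) - oe n q v N (den k) :=
  Fin.append_left (fun k => oe n q v N (num k) - oe n q v N (den k)) (oi n q) k

theorem RT_natAdd (n q : ℕ) (v : Fin (q + 1) → ℤ) (N : Fin (n + 1) → ℕ)
    (num den : Fin (n + 1) → Fin (n + 1) → ℕ)
    (l : Fin (q + 1)) : RT n q v N num den (Fin.natAdd (n + 1) l) = oi n q l :=
  Fin.append_right (fun k => oe n q v N (num k) - oe n q v N (den k)) (oi n q) l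

theorem det_RT (n q : ℕ) (v : Fin (q + 1) → ℤ) (N : Fin (n + 1) → ℕ)
    (num den : Fin (n + 1) → Fin (n + 1) → ℕ) :
    (RT n q v N num den).det = (Mb num den).det * (Om n q v N).det := by
  have h : RT n q v N num den = (Matrix.fromBlocks (Mb num den) 0 0
      (1 : Matrix (Fin (q + 1)) (Fin (q + 1)) ℝ)).reindex finSumFinEquiv finSumFinEquiv *
        Om n q v N := by
    ext i j
    rw [Matrix.mul_apply, Fin.sum_univ_add]
    unfold RT Om
    simp only [Matrix.of_apply, Fin.append_left, Fin.append_right, Matrix.reindex_apply,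
      Matrix.submatrix_apply, finSumFinEquiv_symm_apply_castAdd,
      finSumFinEquiv_symm_apply_natAdd]
    refine Fin.addCases (fun k => ?_) (fun l => ?_) i
    · simp only [Fin.append_left, finSumFinEquiv_symm_apply_castAdd,
        Matrix.fromBlocks_apply₁₁, Matrix.fromBlocks_apply₁₂, Matrix.zero_apply, zero_mul,
        Finset.sum_const_zero, add_zero]
      unfold oe Mb
      rw [Pi.sub_apply, Finset.sum_apply, Finset.sum_apply, ← Finset.sum_sub_distrib]
      refine Finset.sum_congr rfl fun j' _ => ?_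
      rw [Pi.smul_apply, Pi.smul_apply, smul_eq_mul, smul_eq_mul, ← sub_mul, Matrix.of_apply]
    · simp only [Fin.append_right, finSumFinEquiv_symm_apply_natAdd,
        Matrix.fromBlocks_apply₂₁, Matrix.fromBlocks_apply₂₂, Matrix.zero_apply, zero_mul,
        Finset.sum_const_zero, zero_add]
      rw [Finset.sum_eq_single l]
      · rw [Matrix.one_apply_eq, one_mul]
      · intro l' _ hl'
        rw [Matrix.one_apply_ne (Ne.symm hl'), zero_mul]
      · intro h
        exact absurd (Finset.mem_univ _) h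
  rw [h, Matrix.det_mul, Matrix.det_reindex_self, Matrix.det_fromBlocks_zero₁₂, Matrix.det_one,
    mul_one]

end mat

section main

variable {K : Type*} [Field K] {n q : ℕ} {E : Type*} [Fintype E]
  {σ : K →+* ℂ} {p : E → MvPolynomial (Fin (n + 1)) K} {μ : E → Fin (n + 1) → ℕ}
  {h : E → (Fin (n + 1) → ℂ) → ℂ}
  {X : (Fin (n + 1) → ℂ) → Fin (n + 1) → ℂ} {W : Lau K (q + 1)} {v : Fin (q + 1) → ℤ}

theorem exists_lam {Q : ℂ → Prop} (h : ∀ᶠ ε in 𝓝[≠] (0 : ℂ), Q ε) :
    ∃ Λ : ℝ, 1 < Λ ∧ ∀ w : ℂ, Λ ≤ ‖w‖ → w ≠ 0 ∧ Q w⁻¹ := by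
  rw [eventually_nhdsWithin_iff] at h
  obtain ⟨r, hr, hr'⟩ := Metric.eventually_nhds_iff.1 h
  have h1 : 0 < 1 / r := by positivity
  refine ⟨1 / r + 2, by linarith, fun w hw => ?_⟩
  have hw0 : 0 < ‖w‖ := by linarith
  have hw1 : w ≠ 0 := norm_pos_iff.1 hw0
  refine ⟨hw1, hr' ?_ (inv_ne_zero hw1)⟩
  rw [dist_zero_right, norm_inv, inv_lt_comm₀ hw0 hr, ← one_div]
  linarith

/-- The torus near a vertex and the regulators of the symbols on it. -/
theorem MChart.exists_torus {ι : Type*} [Finite ι] (hX : MChart σ p μ h X) (hv0 : v ≠ 0)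
    (hv : ∀ δ : ℝ, 0 < δ → ∃ (R : Fin (q + 1) → ℝ) (hR : ∀ l, 0 < R l),
        Good (fun θ => evL σ (zc R hR θ) W) ∧
        ∀ θ j, ‖lw (fun θ => evL σ (zc R hR θ) W) j θ - 2 * Real.pi * Complex.I * v j‖ ≤ δ)
    (num den : ι → Fin (n + 1) → E) (γ : ι → Fin (n + 1) → K) (hγ : ∀ s k, γ s k ≠ 0)
    {ε : ℝ} (hε : 0 < ε) :
    ∃ Λ : ℝ, 1 < Λ ∧ ∀ lam : K, Λ ≤ ‖σ lam‖ → ∀ Φ : MvPolynomial (Fin (n + 1)) K,
      Φ = MvPolynomial.C lam * ∏ e, p e → ∃ Γ : Torus (HOpen W Φ) (n + 1 + q),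
        (∀ θ c, Γ.e θ (ocst W Φ c) = σ c) ∧
        (∀ θ, ∃ j, Γ.e θ (opol W Φ (MvPolynomial.pderiv j Φ)) ≠ 0) ∧
        ∀ (s : ι) (B : Fin (n + 1) → (HOpen W Φ)ˣ),
          (∀ k, (B k : HOpen W Φ) * opol W Φ (p (den s k)) =
            ocst W Φ (γ s k) * opol W Φ (p (num s k))) →
          |Γ.reg (symb (hent B)) / Real.log ‖σ lam‖ -
            (2 * Real.pi) ^ (n + 1 + q) *
              ((Mb (fun k => μ (num s k)) fun k => μ (den s k)).det *
                (Om n q v fun j => ∑ e, μ e j).det)| ≤ ε := by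
  classical
  set N : Fin (n + 1) → ℕ := fun j => ∑ e, μ e j with hN
  choose δ hδ hclose using fun s : ι =>
    pairing_close (RT n q v N (fun k => μ (num s k)) fun k => μ (den s k)) hε
  obtain ⟨δ0, hδ0pos, hδ0⟩ : ∃ δ0 : ℝ, 0 < δ0 ∧ ∀ s, δ0 < δ s := by
    have h1 : ∀ᶠ t in 𝓝[>] (0 : ℝ), ∀ s, t < δ s :=
      eventually_all.2 fun s => nhdsWithin_le_nhds (gt_mem_nhds (hδ s))
    obtain ⟨t, ht1, ht2⟩ := (h1.and self_mem_nhdsWithin).exists
    exact ⟨t, ht2, ht1⟩
  set δ1 : ℝ := min (δ0 / 3) 1 with hδ1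
  have hδ1pos : 0 < δ1 := lt_min (by positivity) one_pos
  have hδ1a : 3 * δ1 ≤ δ0 := by
    have := min_le_left (δ0 / 3) 1
    rw [← hδ1] at this
    linarith
  have hδ1b : δ1 ≤ 1 := min_le_right _ _
  obtain ⟨x, z, hzc, hzp, hW0, hWlw, hzasy, hxev, hpasy⟩ := hX.exists_points hv hδ1pos
  have hE : ∀ᶠ ε in 𝓝[≠] (0 : ℂ), ∀ (s : ι) (k : Fin (n + 1)),
      Near (-Real.log ‖ε‖) (3 * δ1) (oe n q v N (μ (num s k)) - oe n q v N (μ (den s k)))
        fun θ => σ (γ s k) * MvPolynomial.eval₂ σ (x ε θ) (p (num s k)) /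
          MvPolynomial.eval₂ σ (x ε θ) (p (den s k)) := by
    rw [eventually_all]
    intro s
    rw [eventually_all]
    intro k
    have h1 := ((asy_const (d := n + 1 + q) ((map_ne_zero σ).2 (hγ s k)) hδ1pos).mul
      (hpasy (num s k))).div (hpasy (den s k))
    rw [zero_add] at h1
    refine Asy.mono h1 (le_of_eq ?_)
    ring
  have hZ : ∀ᶠ ε in 𝓝[≠] (0 : ℂ), ∀ l, Near (-Real.log ‖ε‖) δ1 (oi n q l)
      fun θ => (z θ l : ℂ) := by
    rw [eventually_all]
    exact hzasy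
  obtain ⟨Λ, hΛ1, hΛ⟩ := exists_lam (hxev.and (hE.and (hZ.and (eventually_log_ge 1))))
  refine ⟨Λ, hΛ1, fun lam hlam Φ hΦ => ?_⟩
  obtain ⟨hl0, ⟨hxc, hxp, hxe⟩, hE', hZ', hlog1⟩ := hΛ (σ lam) hlam
  have hlog : -Real.log ‖(σ lam)⁻¹‖ = Real.log ‖σ lam‖ := by
    rw [norm_inv, Real.log_inv, neg_neg]
  rw [hlog] at hlog1
  simp only [hlog] at hE' hZ'
  have hs : Real.log ‖σ lam‖ ≠ 0 := by linarith
  have hev : ∀ θ, MvPolynomial.eval₂ σ (x (σ lam)⁻¹ θ) Φ = evL σ (z θ) W := by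
    intro θ
    rw [hΦ, MvPolynomial.eval₂_mul, MvPolynomial.eval₂_C, MvPolynomial.eval₂_prod, hxe θ,
      mul_inv_cancel_left₀ hl0]
  have hP : ∀ θ, Pt W Φ σ (x (σ lam)⁻¹ θ) (z θ) := fun θ =>
    ⟨hev θ, by rw [hev θ]; exact hW0 θ⟩
  set Γ := mkH (x (σ lam)⁻¹) z hxc hzc hxp hzp hP with hΓ
  have hΓe : ∀ θ, Γ.e θ = (hP θ).evO := fun θ => rfl
  refine ⟨Γ, fun θ c => (hP θ).evO_ocst c, fun θ => ?_, fun s B hB => ?_⟩
  · by_contra hcon
    push Not at hcon
    have hz0 : ∀ j, MvPolynomial.eval₂ σ (x (σ lam)⁻¹ θ) (MvPolynomial.pderiv j Φ) = 0 := by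
      intro j
      have h1 := hcon j
      rw [hΓe, (hP θ).evO_opol] at h1
      exact h1
    obtain ⟨f', hf', hf''⟩ := exists_fderiv_ev σ Φ (x (σ lam)⁻¹ θ)
    have hf0 : f' = 0 := by
      ext1 y
      rw [hf'' y]
      exact Finset.sum_eq_zero fun j _ => by rw [hz0, zero_mul]
    have h1 : HasFDerivAt (x (σ lam)⁻¹) (fderiv ℝ (x (σ lam)⁻¹) θ) θ :=
      ((hxc.differentiable (by norm_num)) θ).hasFDerivAt
    have h2 := HasFDerivAt.comp θ (hf'.restrictScalars ℝ) h1
    have h3 : ((fun x : Fin (n + 1) → ℂ => MvPolynomial.eval₂ σ x Φ) ∘ x (σ lam)⁻¹) =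
        fun θ => evL σ (z θ) W := funext hev
    rw [h3, hf0] at h2
    obtain ⟨l, hl⟩ := Function.ne_iff.1 hv0
    have h4 : lw (fun θ => evL σ (z θ) W) (iz n q l) θ = 0 := by
      unfold lw
      rw [h2.fderiv]
      exact zero_div _
    have h5 := hWlw θ l
    rw [h4, zero_sub, norm_neg, norm_mul, norm_mul, norm_mul, Complex.norm_I,
      Complex.norm_real, Complex.norm_ofNat, mul_one, Real.norm_eq_abs,
      abs_of_pos Real.pi_pos, Complex.norm_intCast] at h5
    have h6 : (1 : ℝ) ≤ |(v l : ℝ)| := by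
      exact_mod_cast Int.one_le_abs hl
    have h7 := Real.pi_gt_three
    nlinarith
  · rw [Torus.reg_symb, ← det_RT]
    have hfnB : ∀ k, Γ.fn (B k : HOpen W Φ) = fun θ =>
        σ (γ s k) * MvPolynomial.eval₂ σ (x (σ lam)⁻¹ θ) (p (num s k)) /
          MvPolynomial.eval₂ σ (x (σ lam)⁻¹ θ) (p (den s k)) := by
      intro k
      funext θ
      have h1 := congrArg (hP θ).evO (hB k)
      rw [map_mul, map_mul, (hP θ).evO_opol, (hP θ).evO_opol, (hP θ).evO_ocst] at h1
      have h2 : MvPolynomial.eval₂ σ (x (σ lam)⁻¹ θ) (p (den s k)) ≠ 0 := by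
        intro h0
        have h3 := (hP θ).ne
        rw [hΦ, MvPolynomial.eval₂_mul, MvPolynomial.eval₂_prod,
          Finset.prod_eq_zero (Finset.mem_univ (den s k)) h0, mul_zero] at h3
        exact h3 rfl
      rw [eq_div_iff h2]
      exact h1
    have hfnz : ∀ l, Γ.fn (oz W Φ l : HOpen W Φ) = fun θ => (z θ l : ℂ) := by
      intro l
      funext θ
      exact (hP θ).evO_oz l
    have hnear : ∀ i : Fin (n + 1 + (q + 1)), Near (Real.log ‖σ lam‖) (3 * δ1)
        (RT n q v N (fun k => μ (num s k)) (fun k => μ (den s k)) i)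
        (Γ.fn (hent B i : HOpen W Φ)) := by
      intro i
      refine Fin.addCases (fun k => ?_) (fun l => ?_) i
      · rw [hent_castAdd, hfnB k]
        have h1 : RT n q v N (fun k => μ (num s k)) (fun k => μ (den s k)) (Fin.castAdd (q + 1) k) =
            oe n q v N (μ (num s k)) - oe n q v N (μ (den s k)) := by
          exact RT_castAdd _ _ _ _ _ _ _
        rw [h1]
        exact hE' s k
      · rw [hent_natAdd, hfnz l]
        have h1 : RT n q v N (fun k => μ (num s k)) (fun k => μ (den s k)) (Fin.natAdd (n + 1) l) = oi n q l := by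
          exact RT_natAdd _ _ _ _ _ _ _
        rw [h1]
        exact (hZ' l).mono (by linarith)
    have hlt : 3 * δ1 < δ s := by linarith [hδ0 s]
    refine hclose s _ _ hs (fun i => (hnear i).good) (fun i θ => ?_) fun i j θ => ?_
    · exact ((hnear i).log θ).trans_lt hlt
    · exact ((hnear i).wind j θ).trans_lt hlt

/-- For large `λ` the determinant of the regulators does not vanish. -/
theorem exists_tori {ι : Type*} [Fintype ι] [DecidableEq ι] (hv0 : v ≠ 0)
    (hv : ∀ δ : ℝ, 0 < δ → ∃ (R : Fin (q + 1) → ℝ) (hR : ∀ l, 0 < R l),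
        Good (fun θ => evL σ (zc R hR θ) W) ∧
        ∀ θ j, ‖lw (fun θ => evL σ (zc R hR θ) W) j θ - 2 * Real.pi * Complex.I * v j‖ ≤ δ)
    (μ : ι → E → Fin (n + 1) → ℕ) (hT : ∀ t, ∃ h X, MChart σ p (μ t) h X)
    (num den : ι → Fin (n + 1) → E) (γ : ι → Fin (n + 1) → K) (hγ : ∀ s k, γ s k ≠ 0)
    (hD : (Matrix.of fun t s : ι =>
      (Mb (fun k => μ t (num s k)) fun k => μ t (den s k)).det).det ≠ 0) :
    ∃ C : ℝ, 1 ≤ C ∧ ∀ lam : K, C ≤ ‖σ lam‖ → ∀ Φ : MvPolynomial (Fin (n + 1)) K,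
      Φ = MvPolynomial.C lam * ∏ e, p e → ∃ Γ : ι → Torus (HOpen W Φ) (n + 1 + q),
        (∀ t θ c, (Γ t).e θ (ocst W Φ c) = σ c) ∧
        (∀ t θ, ∃ j, (Γ t).e θ (opol W Φ (MvPolynomial.pderiv j Φ)) ≠ 0) ∧
        ∀ B : ι → Fin (n + 1) → (HOpen W Φ)ˣ,
          (∀ s k, (B s k : HOpen W Φ) * opol W Φ (p (den s k)) =
            ocst W Φ (γ s k) * opol W Φ (p (num s k))) →
          (Matrix.of fun t s : ι => (Γ t).reg (symb (hent (B s)))).det ≠ 0 := by
  classical
  set D0 : ι → ℝ := fun t =>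
    (2 * Real.pi) ^ (n + 1 + q) * (Om n q v fun j => ∑ e, μ t e j).det with hD0
  have hD00 : ∀ t, D0 t ≠ 0 := fun t => by
    have := Real.pi_pos
    exact mul_ne_zero (by positivity) (det_Om_ne_zero n q v _)
  have hlead : (Matrix.of fun t s : ι => D0 t *
      (Matrix.of fun t s : ι =>
        (Mb (fun k => μ t (num s k)) fun k => μ t (den s k)).det) t s).det ≠ 0 := by
    rw [Matrix.det_mul_column]
    exact mul_ne_zero (Finset.prod_ne_zero_iff.2 fun t _ => hD00 t) hD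
  obtain ⟨δ, hδ, hdet'⟩ := det_ne_zero_near _ hlead
  choose h X hX using hT
  choose Λ hΛ1 hΛ using fun t : ι =>
    (hX t).exists_torus hv0 hv num den γ hγ (ε := δ / 2) (by linarith)
  set C : ℝ := ∑ t, |Λ t| + 2 with hC
  have hsum : 0 ≤ ∑ t, |Λ t| := Finset.sum_nonneg fun J _ => abs_nonneg _
  have hΛC : ∀ t, Λ t ≤ C := by
    intro t
    have h1 := Finset.single_le_sum (f := fun t => |Λ t|) (fun t _ => abs_nonneg _)
      (Finset.mem_univ t)
    have h2 := le_abs_self (Λ t)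
    have h3 : |Λ t| ≤ ∑ t, |Λ t| := h1
    linarith
  refine ⟨C, by linarith, fun lam hlam Φ hΦ => ?_⟩
  choose Γ hΓ1 hΓ2 hΓ3 using fun t => hΛ t lam ((hΛC t).trans hlam) Φ hΦ
  refine ⟨Γ, hΓ1, hΓ2, fun B hB => ?_⟩
  have hs : Real.log ‖σ lam‖ ≠ 0 := by
    have : 0 < Real.log ‖σ lam‖ := Real.log_pos (by linarith)
    linarith
  set s : ℝ := Real.log ‖σ lam‖ with hsdef
  have h1 : (Matrix.of fun t i : ι => (Γ t).reg (symb (hent (B i))) / s).det ≠ 0 := by
    refine hdet' _ fun t i => ?_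
    rw [Matrix.of_apply, Matrix.of_apply, Matrix.of_apply]
    refine lt_of_le_of_lt ?_ (show δ / 2 < δ by linarith)
    have h2 := hΓ3 t i (B i) (hB i)
    have e : D0 t * (Mb (fun k => μ t (num i k)) fun k => μ t (den i k)).det =
        (2 * Real.pi) ^ (n + 1 + q) *
          ((Mb (fun k => μ t (num i k)) fun k => μ t (den i k)).det *
            (Om n q v fun j => ∑ e, μ t e j).det) := by
      simp only [hD0]
      ring
    rw [e]
    exact h2
  have h2 : (Matrix.of fun t i : ι => (Γ t).reg (symb (hent (B i)))) =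
      s • (Matrix.of fun t i : ι => (Γ t).reg (symb (hent (B i))) / s) := by
    ext t i
    rw [Matrix.smul_apply, Matrix.of_apply, Matrix.of_apply, smul_eq_mul]
    field_simp
  rw [h2, Matrix.det_smul]
  exact mul_ne_zero (pow_ne_zero _ hs) h1

end main

end Pool.Agent.Q212.LF
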