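import Pool.Agent.TH690.SF.Branch
import Pool.Agent.Q212.LF.Imp
set_option autoImplicit false

/-!
Functions on tori whose logarithms and logarithmic derivatives are almost constant.
-/

namespace Pool.Agent.Q212.LF

open Filter Topology

open Pool.Agent.TH826.MK

open Pool.Agent.TH690.SF (good_pow lw_pow)

section near

variable {d : ℕ} {s δ δ' : ℝ} {ω ω' : Fin (d + 1) → ℝ} {f g : (Fin d → ℝ) → ℂ}

/-- `log |f|` is almost `ω_0 s` and the logarithmic derivatives of `f` are almost `2πi ω_{j+1}`. -/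
structure Near (s δ : ℝ) (ω : Fin (d + 1) → ℝ) (f : (Fin d → ℝ) → ℂ) : Prop where
  good : Good f
  log : ∀ θ, |Real.log ‖f θ‖ / s - ω 0| ≤ δ
  wind : ∀ j θ, ‖lw f j θ - 2 * Real.pi * Complex.I * ω j.succ‖ ≤ δ

theorem Near.mono (h : Near s δ ω f) (hδ : δ ≤ δ') : Near s δ' ω f :=
  ⟨h.good, fun θ => (h.log θ).trans hδ, fun j θ => (h.wind j θ).trans hδ⟩

theorem Near.mul (hf : Near s δ ω f) (hg : Near s δ' ω' g) :
    Near s (δ + δ') (ω + ω') fun θ => f θ * g θ := by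
  refine ⟨hf.good.mul hg.good, fun θ => ?_, fun j θ => ?_⟩
  · rw [norm_mul, Real.log_mul (norm_ne_zero_iff.2 (hf.good.ne_zero θ))
      (norm_ne_zero_iff.2 (hg.good.ne_zero θ)), Pi.add_apply, add_div]
    have e : Real.log ‖f θ‖ / s + Real.log ‖g θ‖ / s - (ω 0 + ω' 0) =
        (Real.log ‖f θ‖ / s - ω 0) + (Real.log ‖g θ‖ / s - ω' 0) := by ring
    rw [e]
    exact (abs_add_le _ _).trans (add_le_add (hf.log θ) (hg.log θ))
  · rw [lw_mul hf.good hg.good, Pi.add_apply]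
    have e : lw f j θ + lw g j θ - 2 * Real.pi * Complex.I * ((ω j.succ + ω' j.succ : ℝ) : ℂ) =
        (lw f j θ - 2 * Real.pi * Complex.I * ω j.succ) +
          (lw g j θ - 2 * Real.pi * Complex.I * ω' j.succ) := by
      push_cast
      ring
    rw [e]
    exact (norm_add_le _ _).trans (add_le_add (hf.wind j θ) (hg.wind j θ))

theorem good_inv (hf : Good f) : Good fun θ => (f θ)⁻¹ :=
  ⟨hf.smooth.inv hf.ne_zero, fun θ => inv_ne_zero (hf.ne_zero θ)⟩

theorem lw_inv (hf : Good f) (j : Fin d) (θ : Fin d → ℝ) :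
    lw (fun θ => (f θ)⁻¹) j θ = -lw f j θ := by
  have h1 := lw_mul hf (good_inv hf) j θ
  have h2 : (fun θ => f θ * (f θ)⁻¹) = fun _ => 1 := by
    funext θ
    exact mul_inv_cancel₀ (hf.ne_zero θ)
  rw [h2, lw_const] at h1
  linear_combination -h1

theorem Near.inv (hf : Near s δ ω f) : Near s δ (-ω) fun θ => (f θ)⁻¹ := by
  refine ⟨good_inv hf.good, fun θ => ?_, fun j θ => ?_⟩
  · rw [norm_inv, Real.log_inv, Pi.neg_apply]
    have e : -Real.log ‖f θ‖ / s - -ω 0 = -(Real.log ‖f θ‖ / s - ω 0) := by ring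
    rw [e, abs_neg]
    exact hf.log θ
  · rw [lw_inv hf.good, Pi.neg_apply]
    have e : -lw f j θ - 2 * Real.pi * Complex.I * ((-ω j.succ : ℝ) : ℂ) =
        -(lw f j θ - 2 * Real.pi * Complex.I * ω j.succ) := by
      push_cast
      ring
    rw [e, norm_neg]
    exact hf.wind j θ

theorem Near.div (hf : Near s δ ω f) (hg : Near s δ' ω' g) :
    Near s (δ + δ') (ω - ω') fun θ => f θ / g θ := by
  have h := hf.mul hg.inv
  rw [← sub_eq_add_neg] at h
  simp only [← div_eq_mul_inv] at h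
  exact h

theorem near_one (s : ℝ) : Near (d := d) s 0 0 fun _ => 1 := by
  refine ⟨good_const one_ne_zero, fun θ => ?_, fun j θ => ?_⟩
  · simp
  · rw [lw_const]
    simp

theorem Near.pow (hf : Near s δ ω f) (k : ℕ) :
    Near s (k * δ) ((k : ℝ) • ω) fun θ => f θ ^ k := by
  induction k with
  | zero => simpa using near_one (d := d) s
  | succ k ih =>
    have h := ih.mul hf
    simp only [← pow_succ] at h
    have e1 : (k : ℝ) * δ + δ = ((k + 1 : ℕ) : ℝ) * δ := by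
      push_cast
      ring
    have e2 : (k : ℝ) • ω + ω = ((k + 1 : ℕ) : ℝ) • ω := by
      push_cast
      rw [add_smul, one_smul]
    rwa [e1, e2] at h

theorem Near.prod {ι : Type*} (t : Finset ι) {F : ι → (Fin d → ℝ) → ℂ}
    {Ω : ι → Fin (d + 1) → ℝ} (h : ∀ i ∈ t, Near s δ (Ω i) (F i)) :
    Near s (t.card * δ) (∑ i ∈ t, Ω i) fun θ => ∏ i ∈ t, F i θ := by
  classical
  induction t using Finset.induction_on with
  | empty => simpa using near_one (d := d) s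
  | insert i t hi ih =>
    have h1 := (h i (Finset.mem_insert_self _ _)).mul
      (ih fun j hj => h j (Finset.mem_insert_of_mem hj))
    have e0 : (fun θ => F i θ * ∏ j ∈ t, F j θ) = fun θ => ∏ j ∈ insert i t, F j θ := by
      funext θ
      rw [Finset.prod_insert hi]
    rw [e0] at h1
    rw [Finset.sum_insert hi, Finset.card_insert_of_notMem hi]
    have e1 : δ + (t.card : ℝ) * δ = ((t.card + 1 : ℕ) : ℝ) * δ := by
      push_cast
      ring
    rwa [e1] at h1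

theorem near_const {c : ℂ} (hc : c ≠ 0) (h : |Real.log ‖c‖ / s| ≤ δ) :
    Near (d := d) s δ 0 fun _ => c := by
  refine ⟨good_const hc, fun θ => ?_, fun j θ => ?_⟩
  · simpa using h
  · rw [lw_const]
    simpa using (abs_nonneg _).trans h

end near

section pull

variable {d m : ℕ}

/-- the restriction of the parameters -/
def pl (ι : Fin m → Fin d) : (Fin d → ℝ) →L[ℝ] (Fin m → ℝ) :=
  ContinuousLinearMap.pi fun i => ContinuousLinearMap.proj (ι i)

theorem pl_apply (ι : Fin m → Fin d) (θ : Fin d → ℝ) (i : Fin m) : pl ι θ i = θ (ι i) := rfl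

theorem pl_add_single {ι : Fin m → Fin d} (hι : Function.Injective ι) {X : Type*}
    {g : (Fin m → ℝ) → X} (hg : ∀ θ i, g (θ + Pi.single i 1) = g θ) (θ : Fin d → ℝ) (j : Fin d) :
    g (pl ι (θ + Pi.single j 1)) = g (pl ι θ) := by
  by_cases h : ∃ i, ι i = j
  · obtain ⟨i, rfl⟩ := h
    have e : pl ι (θ + Pi.single (ι i) 1) = pl ι θ + Pi.single i 1 := by
      funext k
      simp only [pl_apply, Pi.add_apply]
      by_cases hk : k = i
      · subst hk
        rw [Pi.single_eq_same, Pi.single_eq_same]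
      · rw [Pi.single_eq_of_ne (fun h => hk (hι h)), Pi.single_eq_of_ne hk]
    rw [e, hg]
  · push Not at h
    have e : pl ι (θ + Pi.single j 1) = pl ι θ := by
      funext k
      simp only [pl_apply, Pi.add_apply]
      rw [Pi.single_eq_of_ne (h k), add_zero]
    rw [e]

theorem lw_pl {ι : Fin m → Fin d} (hι : Function.Injective ι) {f : (Fin m → ℝ) → ℂ}
    (hf : ContDiff ℝ 2 f) (i : Fin m) (θ : Fin d → ℝ) :
    lw (fun θ => f (pl ι θ)) (ι i) θ = lw f i (pl ι θ) := by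
  unfold lw
  have h1 := ((hf.differentiable (by norm_num)) (pl ι θ)).hasFDerivAt.comp θ (pl ι).hasFDerivAt
  have h2 : fderiv ℝ (fun θ => f (pl ι θ)) θ = (fderiv ℝ f (pl ι θ)).comp (pl ι) := h1.fderiv
  rw [h2, ContinuousLinearMap.comp_apply]
  congr 2
  funext k
  rw [pl_apply]
  by_cases hk : k = i
  · subst hk
    rw [Pi.single_eq_same, Pi.single_eq_same]
  · rw [Pi.single_eq_of_ne (fun h => hk (hι h)), Pi.single_eq_of_ne hk]

theorem lw_pl_of_ne {ι : Fin m → Fin d} {f : (Fin m → ℝ) → ℂ}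
    (hf : ContDiff ℝ 2 f) {j : Fin d} (hj : ∀ i, ι i ≠ j) (θ : Fin d → ℝ) :
    lw (fun θ => f (pl ι θ)) j θ = 0 := by
  unfold lw
  have h1 := ((hf.differentiable (by norm_num)) (pl ι θ)).hasFDerivAt.comp θ (pl ι).hasFDerivAt
  have h2 : fderiv ℝ (fun θ => f (pl ι θ)) θ = (fderiv ℝ f (pl ι θ)).comp (pl ι) := h1.fderiv
  have h3 : pl ι (Pi.single j 1) = 0 := by
    funext k
    rw [pl_apply, Pi.single_eq_of_ne (hj k)]
    rfl
  rw [h2, ContinuousLinearMap.comp_apply, h3, map_zero, zero_div]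

end pull

section close

variable {d : ℕ}

/-- A family of functions depending smoothly on a small parameter `ε`. -/
structure Fam (f : ℂ × (Fin d → ℝ) → ℂ) : Prop where
  smooth : ∀ᶠ ε in 𝓝 (0 : ℂ), ∀ θ, ContDiffAt ℝ 2 f (ε, θ)
  per : ∀ᶠ ε in 𝓝 (0 : ℂ), ∀ θ i, f (ε, θ + Pi.single i 1) = f (ε, θ)

theorem Fam.slice {f : ℂ × (Fin d → ℝ) → ℂ} {ε : ℂ} (h : ∀ θ, ContDiffAt ℝ 2 f (ε, θ)) :
    ContDiff ℝ 2 fun θ => f (ε, θ) := by
  rw [contDiff_iff_contDiffAt]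
  intro θ
  exact (h θ).comp θ (contDiffAt_const.prodMk contDiffAt_id)

theorem fderiv_slice {f : ℂ × (Fin d → ℝ) → ℂ} {ε : ℂ} {θ : Fin d → ℝ}
    (h : ContDiffAt ℝ 2 f (ε, θ)) (y : Fin d → ℝ) :
    fderiv ℝ (fun θ => f (ε, θ)) θ y = fderiv ℝ f (ε, θ) (0, y) := by
  have h1 := (h.differentiableAt (by norm_num)).hasFDerivAt
  have h2 : HasFDerivAt (fun θ : Fin d → ℝ => (ε, θ)) (.inr ℝ ℂ (Fin d → ℝ)) θ :=
    hasFDerivAt_prodMk_right ε θ
  have h3 := HasFDerivAt.comp θ (show HasFDerivAt f (fderiv ℝ f (ε, θ))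
    ((fun θ : Fin d → ℝ => (ε, θ)) θ) from h1) h2
  have h4 : fderiv ℝ (fun θ => f (ε, θ)) θ =
    (fderiv ℝ f (ε, θ)).comp (.inr ℝ ℂ (Fin d → ℝ)) := h3.fderiv
  rw [h4]
  rfl

/-- The values and logarithmic derivatives are close to those at `ε = 0`. -/
theorem Fam.close {f : ℂ × (Fin d → ℝ) → ℂ} (hf : Fam f) (h0 : ∀ θ, f (0, θ) ≠ 0) {δ : ℝ}
    (hδ : 0 < δ) : ∀ᶠ ε in 𝓝 (0 : ℂ), Good (fun θ => f (ε, θ)) ∧
      (∀ θ, |Real.log ‖f (ε, θ)‖ - Real.log ‖f (0, θ)‖| ≤ δ) ∧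
      ∀ θ j, ‖lw (fun θ => f (ε, θ)) j θ - lw (fun θ => f (0, θ)) j θ‖ ≤ δ := by
  obtain ⟨r1, hr1, hr1'⟩ := Metric.eventually_nhds_iff.1 hf.smooth
  obtain ⟨r2, hr2, hr2'⟩ := Metric.eventually_nhds_iff.1 hf.per
  set r : ℝ := min r1 r2 with hr
  have hrpos : 0 < r := lt_min hr1 hr2
  have hsm : ∀ ε : ℂ, ‖ε‖ < r → ∀ θ, ContDiffAt ℝ 2 f (ε, θ) := by
    intro ε hε
    refine hr1' ?_
    rw [dist_zero_right]
    exact hε.trans_le (min_le_left _ _)
  have hpe : ∀ ε : ℂ, ‖ε‖ < r → ∀ θ i, f (ε, θ + Pi.single i 1) = f (ε, θ) := by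
    intro ε hε
    refine hr2' ?_
    rw [dist_zero_right]
    exact hε.trans_le (min_le_right _ _)
  have hpl : ∀ ε : ℂ, ‖ε‖ < r → ∀ θ i j, lw (fun θ => f (ε, θ)) j (θ + Pi.single i 1) =
      lw (fun θ => f (ε, θ)) j θ := fun ε hε θ i j =>
    Per.lw (g := fun θ => f (ε, θ)) (fun θ i => hpe ε hε θ i) j i θ
  have h00 : ‖(0 : ℂ)‖ < r := by rw [norm_zero]; exact hrpos
  have key : ∀ᶠ ε in 𝓝 (0 : ℂ), ∀ θ, ‖ε‖ < r → f (ε, θ) ≠ 0 ∧
      |Real.log ‖f (ε, θ)‖ - Real.log ‖f (0, θ)‖| ≤ δ ∧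
      ∀ j, ‖lw (fun θ => f (ε, θ)) j θ - lw (fun θ => f (0, θ)) j θ‖ ≤ δ := by
    refine eventually_forall_of_per (fun ε θ i => ?_) fun θ => ?_
    · refine forall_congr' fun hε => ?_
      simp only [hpe ε hε, hpe 0 h00, hpl ε hε, hpl 0 h00]
    · have hc : ContinuousAt f (0, θ) := (hsm 0 h00 θ).continuousAt
      have hpr : ContinuousAt (fun z : ℂ × (Fin d → ℝ) => ((0 : ℂ), z.2)) (0, θ) := by
        fun_prop
      have hc0 : ContinuousAt (fun z : ℂ × (Fin d → ℝ) => f (0, z.2)) (0, θ) :=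
        ContinuousAt.comp (f := fun z : ℂ × (Fin d → ℝ) => ((0 : ℂ), z.2)) hc hpr
      have hd : ContinuousAt (fderiv ℝ f) (0, θ) :=
        ((hsm 0 h00 θ).fderiv_right (m := 1) (by norm_num)).continuousAt
      have hd0 : ContinuousAt (fun z : ℂ × (Fin d → ℝ) => fderiv ℝ f (0, z.2)) (0, θ) :=
        ContinuousAt.comp (f := fun z : ℂ × (Fin d → ℝ) => ((0 : ℂ), z.2)) hd hpr
      have e1 : ∀ᶠ z : ℂ × (Fin d → ℝ) in 𝓝 (0, θ), f z ≠ 0 := hc.eventually_ne (h0 θ)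
      have e2 : ∀ᶠ z : ℂ × (Fin d → ℝ) in 𝓝 (0, θ),
          |Real.log ‖f z‖ - Real.log ‖f (0, z.2)‖| < δ := by
        have h1 : ContinuousAt (fun z : ℂ × (Fin d → ℝ) =>
            |Real.log ‖f z‖ - Real.log ‖f (0, z.2)‖|) (0, θ) := by
          refine ContinuousAt.abs (ContinuousAt.sub ?_ ?_)
          · exact hc.norm.log (norm_ne_zero_iff.2 (h0 θ))
          · exact hc0.norm.log (norm_ne_zero_iff.2 (h0 θ))
        refine h1.eventually (gt_mem_nhds ?_)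
        show |Real.log ‖f (0, θ)‖ - Real.log ‖f (0, θ)‖| < δ
        rw [sub_self, abs_zero]
        exact hδ
      have e3 : ∀ j : Fin d, ∀ᶠ z : ℂ × (Fin d → ℝ) in 𝓝 (0, θ),
          ‖fderiv ℝ f z (0, Pi.single j 1) / f z -
            fderiv ℝ f (0, z.2) (0, Pi.single j 1) / f (0, z.2)‖ < δ := by
        intro j
        have h1 : ContinuousAt (fun z : ℂ × (Fin d → ℝ) =>
            ‖fderiv ℝ f z (0, Pi.single j 1) / f z -
            fderiv ℝ f (0, z.2) (0, Pi.single j 1) / f (0, z.2)‖) (0, θ) := by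
          refine ContinuousAt.norm (ContinuousAt.sub ?_ ?_)
          · exact (hd.clm_apply continuousAt_const).div hc (h0 θ)
          · exact (hd0.clm_apply continuousAt_const).div hc0 (h0 θ)
        refine h1.eventually (gt_mem_nhds ?_)
        show ‖fderiv ℝ f (0, θ) (0, Pi.single j 1) / f (0, θ) -
            fderiv ℝ f (0, θ) (0, Pi.single j 1) / f (0, θ)‖ < δ
        rw [sub_self, norm_zero]
        exact hδ
      filter_upwards [e1, e2, eventually_all.2 e3] with z hz1 hz2 hz3 hz4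
      refine ⟨hz1, hz2.le, fun j => ?_⟩
      unfold lw
      rw [fderiv_slice (hsm z.1 hz4 z.2), fderiv_slice (hsm 0 h00 z.2)]
      exact (hz3 j).le
  have hball : ∀ᶠ ε in 𝓝 (0 : ℂ), ‖ε‖ < r :=
    (continuous_norm.continuousAt (x := (0 : ℂ))).eventually (gt_mem_nhds h00)
  filter_upwards [key, hball] with ε hε1 hε2
  exact ⟨⟨Fam.slice (hsm ε hε2), fun θ => (hε1 θ hε2).1⟩, fun θ => (hε1 θ hε2).2.1,
    fun θ j => (hε1 θ hε2).2.2 j⟩

/-- A periodic function without zeros has a bounded logarithm. -/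
theorem exists_log_bound {g : (Fin d → ℝ) → ℂ} (hg : Continuous g) (h0 : ∀ θ, g θ ≠ 0)
    (hp : ∀ θ i, g (θ + Pi.single i 1) = g θ) : ∃ M : ℝ, ∀ θ, |Real.log ‖g θ‖| ≤ M := by
  have h1 : Continuous fun θ => |Real.log ‖g θ‖| :=
    (hg.norm.log fun θ => norm_ne_zero_iff.2 (h0 θ)).abs
  obtain ⟨M, hM⟩ := (isCompact_Icc (a := (0 : Fin d → ℝ)) (b := 1)).exists_bound_of_continuousOn
    h1.continuousOn
  refine ⟨M, fun θ => ?_⟩
  obtain ⟨θ', hθ', he⟩ := per_cube hp θ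
  rw [he]
  have := hM θ' hθ'
  rwa [Real.norm_eq_abs, abs_abs] at this

end close

section asy

variable {d : ℕ}

/-- The estimates hold for all small `ε ≠ 0`, with `s = - log |ε|`. -/
def Asy (δ : ℝ) (ω : Fin (d + 1) → ℝ) (f : ℂ → (Fin d → ℝ) → ℂ) : Prop :=
  ∀ᶠ ε in 𝓝[≠] (0 : ℂ), Near (-Real.log ‖ε‖) δ ω (f ε)

theorem eventually_log_ge (M : ℝ) : ∀ᶠ ε in 𝓝[≠] (0 : ℂ), M ≤ -Real.log ‖ε‖ := by
  have h1 : Tendsto (fun ε : ℂ => -Real.log ‖ε‖) (𝓝[≠] 0) atTop := by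
    refine tendsto_neg_atBot_atTop.comp (Real.tendsto_log_nhdsGT_zero.comp ?_)
    exact tendsto_norm_nhdsNE_zero
  exact h1.eventually (eventually_ge_atTop M)

theorem Fam.asy {f : ℂ × (Fin d → ℝ) → ℂ} (hf : Fam f) (h0 : ∀ θ, f (0, θ) ≠ 0) {δ : ℝ}
    (hδ : 0 < δ) {b : Fin d → ℝ}
    (hb : ∀ θ j, ‖lw (fun θ => f (0, θ)) j θ - 2 * Real.pi * Complex.I * b j‖ ≤ δ) :
    Asy (2 * δ) (Fin.cons 0 b) fun ε θ => f (ε, θ) := by
  have hper : ∀ θ i, f (0, θ + Pi.single i 1) = f (0, θ) := hf.per.self_of_nhds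
  have hsm : ∀ θ, ContDiffAt ℝ 2 f (0, θ) := hf.smooth.self_of_nhds
  obtain ⟨M, hM⟩ := exists_log_bound (g := fun θ => f (0, θ)) (Fam.slice hsm).continuous h0 hper
  unfold Asy
  filter_upwards [(hf.close h0 hδ).filter_mono nhdsWithin_le_nhds,
    eventually_log_ge ((M + δ) / (2 * δ)), eventually_log_ge 1] with ε h1 h2 h3
  have hs : 0 < -Real.log ‖ε‖ := by linarith
  refine ⟨h1.1, fun θ => ?_, fun j θ => ?_⟩
  · rw [Fin.cons_zero, sub_zero, abs_div, abs_of_pos hs, div_le_iff₀ hs]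
    rw [div_le_iff₀ (by linarith)] at h2
    have h4 := abs_le.1 (h1.2.1 θ)
    have h5 := abs_le.1 (hM θ)
    rw [abs_le]
    constructor <;> linarith [h4.1, h4.2, h5.1, h5.2]
  · rw [Fin.cons_succ]
    have h4 := h1.2.2 θ j
    have h5 := hb θ j
    have e : lw (fun θ => f (ε, θ)) j θ - 2 * Real.pi * Complex.I * b j =
        (lw (fun θ => f (ε, θ)) j θ - lw (fun θ => f (0, θ)) j θ) +
          (lw (fun θ => f (0, θ)) j θ - 2 * Real.pi * Complex.I * b j) := by ring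
    rw [e]
    refine (norm_add_le _ _).trans ?_
    linarith

theorem asy_const {c : ℂ} (hc : c ≠ 0) {δ : ℝ} (hδ : 0 < δ) :
    Asy (d := d) δ 0 fun _ _ => c := by
  unfold Asy
  filter_upwards [eventually_log_ge (|Real.log ‖c‖| / δ), eventually_log_ge 1] with ε h1 h2
  refine near_const hc ?_
  have hs : 0 < -Real.log ‖ε‖ := by linarith
  rw [abs_div, abs_of_pos hs, div_le_iff₀ hs]
  rw [div_le_iff₀ hδ] at h1
  linarith

theorem asy_eps : Asy (d := d) 0 (Fin.cons (-1) 0) fun ε _ => ε := by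
  unfold Asy
  filter_upwards [eventually_log_ge 1, self_mem_nhdsWithin] with ε h1 h2
  have hε : ε ≠ 0 := h2
  have hs : Real.log ‖ε‖ ≠ 0 := by
    intro h0
    rw [h0] at h1
    norm_num at h1
  refine ⟨good_const hε, fun θ => ?_, fun j θ => ?_⟩
  · rw [Fin.cons_zero, div_neg, div_self hs]
    simp
  · rw [lw_const, Fin.cons_succ]
    simp

end asy

end Pool.Agent.Q212.LF
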