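import Pool.Agent.Q212.LF.QFib
set_option autoImplicit false

/-!
Points of the hypersurfaces `W(z) = λ p(x)` near the zeros of polynomials `p`, for large `λ`, in
charts in which the first coordinate occurs with an arbitrary exponent.
-/

namespace Pool.Agent.Q212.LF

open Filter Topology

open Pool.Agent.TH826.MK

open Pool.Agent.TH826.SX (good_circ lw_circ circ_ne_zero)

section types

/-- the type of the coordinates `w_0`, ..., `w_n` on the tori -/
noncomputable def qw (n q m : ℕ) (v : Fin (q + 1) → ℤ) (N : Fin (n + 1) → ℕ) :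
    Fin (n + 1) → Fin (n + 1 + q + 1) → ℝ :=
  Fin.cons (ow n q v N 0) fun j => (m : ℝ) • ow n q v N j.succ

/-- the type of the coordinates `z_0`, ..., `z_q` on the tori -/
noncomputable def qi (n q m : ℕ) (l : Fin (q + 1)) : Fin (n + 1 + q + 1) → ℝ := (m : ℝ) • oi n q l

/-- the type of a monomial -/
noncomputable def qe (n q m : ℕ) (v : Fin (q + 1) → ℤ) (N : Fin (n + 1) → ℕ)
    (k : Fin (n + 1) → ℕ) : Fin (n + 1 + q + 1) → ℝ := ∑ j, (k j : ℝ) • qw n q m v N j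

end types

section chart

variable {K : Type*} [Field K] {n : ℕ} {E : Type*}

/-- Coordinates `w_0, ..., w_n` near a point, in which the polynomials `p_e` are products of
monomials of exponents `μ_e` and functions `h_e` with `h_e(0) ≠ 0`, and `w_0` occurs in the
product of all `p_e`. -/
structure QChart [Fintype E] (σ : K →+* ℂ) (p : E → MvPolynomial (Fin (n + 1)) K)
    (μ : E → Fin (n + 1) → ℕ) (h : E → (Fin (n + 1) → ℂ) → ℂ)
    (X : (Fin (n + 1) → ℂ) → Fin (n + 1) → ℂ) : Prop where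
  smooth : ContDiff ℝ 2 X
  eq : ∀ e w, MvPolynomial.eval₂ σ (X w) (p e) = (∏ j, w j ^ μ e j) * h e w
  hsmooth : ∀ e, ContDiff ℝ 2 (h e)
  ne : ∀ e, h e 0 ≠ 0
  pos : ∑ e, μ e 0 ≠ 0

/-- the parameters `w` -/
noncomputable def wqt (n q m : ℕ) (ρ : ℝ) (u : ℂ) (θ : Fin (n + 1 + q) → ℝ) : Fin (n + 1) → ℂ :=
  Fin.cons u fun j => circ ρ (θ (iw n q j)) ^ m

theorem wqt_zero (n q m : ℕ) (ρ : ℝ) (u : ℂ) (θ : Fin (n + 1 + q) → ℝ) :
    wqt n q m ρ u θ 0 = u := rfl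

theorem wqt_succ (n q m : ℕ) (ρ : ℝ) (u : ℂ) (θ : Fin (n + 1 + q) → ℝ) (j : Fin n) :
    wqt n q m ρ u θ j.succ = circ ρ (θ (iw n q j)) ^ m := rfl

theorem wqt_per (n q m : ℕ) (ρ : ℝ) (u : ℂ) (θ : Fin (n + 1 + q) → ℝ) (i : Fin (n + 1 + q)) :
    wqt n q m ρ u (θ + Pi.single i 1) = wqt n q m ρ u θ := by
  unfold wqt
  congr 1
  funext j
  rw [circ_add_single]

theorem contDiff_wqt (n q m : ℕ) (ρ : ℝ) :
    ContDiff ℝ 2 fun z : ℂ × (Fin (n + 1 + q) → ℝ) => wqt n q m ρ z.1 z.2 := by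
  refine contDiff_pi.2 fun j => ?_
  refine Fin.cases ?_ (fun j => ?_) j
  · exact contDiff_fst
  · exact ((contDiff_circ ρ).comp
      ((contDiff_apply ℝ ℝ (iw n q j)).comp contDiff_snd)).pow m

theorem norm_wqt_lt {n q m : ℕ} {ρ r : ℝ} (hm : m ≠ 0) (hρ : 0 < ρ) (hρ1 : ρ ≤ 1) (hρr : ρ < r)
    {u : ℂ} (hu : ‖u‖ < r) (θ : Fin (n + 1 + q) → ℝ) : ‖wqt n q m ρ u θ‖ < r := by
  rw [pi_norm_lt_iff (hρ.trans hρr)]
  intro j
  refine Fin.cases ?_ (fun j => ?_) j
  · exact hu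
  · rw [wqt_succ, norm_pow, norm_circ hρ.le]
    exact (pow_le_of_le_one hρ.le hρ1 hm).trans_lt hρr

variable (q : ℕ)

/-- For small radii the functions which do not vanish at the point are almost constant. -/
theorem exists_qradius [Finite E] {h : E → (Fin (n + 1) → ℂ) → ℂ}
    (hs : ∀ e, ContDiff ℝ 2 (h e)) (hne : ∀ e, h e 0 ≠ 0) {m : ℕ} (hm : m ≠ 0) {δ r0 : ℝ}
    (hδ : 0 < δ) (hr0 : 0 < r0) :
    ∃ ρ : ℝ, 0 < ρ ∧ ρ ≤ 1 ∧ ρ < r0 ∧ ∀ e,
      (∀ θ : Fin (n + 1 + q) → ℝ, h e (wqt n q m ρ 0 θ) ≠ 0) ∧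
      ∀ θ i, ‖lw (fun θ => h e (wqt n q m ρ 0 θ)) i θ‖ ≤ δ := by
  classical
  set y : ℂ × (Fin (n + 1 + q) → ℝ) → Fin (n + 1) → ℂ := fun z =>
    Fin.cons 0 fun j => (z.1 * circ 1 (z.2 (iw n q j))) ^ m with hy
  have hyc : ContDiff ℝ 2 y := by
    refine contDiff_pi.2 fun j => ?_
    refine Fin.cases ?_ (fun j => ?_) j
    · exact contDiff_const
    · exact (contDiff_fst.mul
        ((contDiff_circ 1).comp ((contDiff_apply ℝ ℝ (iw n q j)).comp contDiff_snd))).pow m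
  have hy0 : ∀ θ, y (0, θ) = 0 := by
    intro θ
    funext j
    refine Fin.cases rfl (fun j => ?_) j
    show ((0 : ℂ) * _) ^ m = 0
    rw [zero_mul, zero_pow hm]
  have hF : ∀ e, Fam fun z => h e (y z) := by
    intro e
    have hc : ContDiff ℝ 2 fun z => h e (y z) := (hs e).comp hyc
    refine ⟨Eventually.of_forall fun ε θ => hc.contDiffAt, Eventually.of_forall fun ε θ i => ?_⟩
    have h1 : y (ε, θ + Pi.single i 1) = y (ε, θ) := by
      simp only [hy, circ_add_single]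
    show h e (y (ε, θ + Pi.single i 1)) = _
    rw [h1]
  have hall : ∀ᶠ ε in 𝓝 (0 : ℂ), ∀ e, Good (fun θ => h e (y (ε, θ))) ∧
      ∀ θ i, ‖lw (fun θ => h e (y (ε, θ))) i θ‖ ≤ δ := by
    rw [eventually_all]
    intro e
    have h1 := (hF e).close (fun θ => by rw [hy0]; exact hne e) hδ
    filter_upwards [h1] with ε hε
    refine ⟨hε.1, fun θ i => ?_⟩
    have h2 := hε.2.2 θ i
    have h3 : (fun θ : Fin (n + 1 + q) → ℝ => h e (y (0, θ))) = fun _ => h e 0 := by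
      funext θ
      rw [hy0]
    rwa [h3, lw_const, sub_zero] at h2
  obtain ⟨r, hr, hr'⟩ := Metric.eventually_nhds_iff.1 hall
  set ρ : ℝ := min (r / 2) (min (r0 / 2) 1) with hρdef
  have hpos : 0 < ρ := lt_min (by positivity) (lt_min (by positivity) one_pos)
  have hρr : ρ < r := (min_le_left _ _).trans_lt (by linarith)
  have hρr0 : ρ < r0 := ((min_le_right _ _).trans (min_le_left _ _)).trans_lt (by linarith)
  refine ⟨ρ, hpos, (min_le_right _ _).trans (min_le_right _ _), hρr0, fun e => ?_⟩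
  obtain ⟨h1, h2⟩ := hr' (y := (ρ : ℂ)) (by
    rw [dist_zero_right, Complex.norm_real, Real.norm_eq_abs, abs_of_pos hpos]
    exact hρr) e
  have h3 : ∀ θ : Fin (n + 1 + q) → ℝ, y ((ρ : ℂ), θ) = wqt n q m ρ 0 θ := by
    intro θ
    simp only [hy]
    unfold wqt circ
    congr 1
    funext j
    push_cast
    ring
  simp only [h3] at h1 h2
  exact ⟨h1.ne_zero, h2⟩

end chart

section points

variable {K : Type*} [Field K] {n q : ℕ} {E : Type*} [Fintype E]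
  {σ : K →+* ℂ} {p : E → MvPolynomial (Fin (n + 1)) K} {μ : E → Fin (n + 1) → ℕ}
  {h : E → (Fin (n + 1) → ℂ) → ℂ}
  {X : (Fin (n + 1) → ℂ) → Fin (n + 1) → ℂ} {W : Lau K (q + 1)} {v : Fin (q + 1) → ℤ}

/-- There are suitable tori with roots of the values of `W`. -/
def ZRoot (σ : K →+* ℂ) (W : Lau K (q + 1)) (v : Fin (q + 1) → ℤ) : Prop :=
  ∀ m : ℕ, m ≠ 0 → ∀ δ : ℝ, 0 < δ →
    ∃ (R : Fin (q + 1) → ℝ) (hR : ∀ l, 0 < R l) (b : (Fin (q + 1) → ℝ) → ℂ),
      Good b ∧ (∀ θ i, b (θ + Pi.single i 1) = b θ) ∧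
      (∀ θ, b θ ^ m = evL σ (fun l => zc R hR θ l ^ m) W) ∧
      ∀ θ j, ‖lw b j θ - 2 * Real.pi * Complex.I * v j‖ ≤ δ

/-- Points of the hypersurfaces near a vertex. -/
theorem QChart.exists_points (hX : QChart σ p μ h X) (hv : ZRoot σ W v) {m : ℕ}
    (hmdef : m = ∑ e, μ e 0) {δ : ℝ} (hδ : 0 < δ) :
    ∃ (x : ℂ → (Fin (n + 1 + q) → ℝ) → Fin (n + 1) → ℂ)
      (z : (Fin (n + 1 + q) → ℝ) → Fin (q + 1) → ℂˣ),
      (∀ l, ContDiff ℝ 2 fun θ => (z θ l : ℂ)) ∧ (∀ θ i, z (θ + Pi.single i 1) = z θ) ∧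
      (∀ θ, evL σ (z θ) W ≠ 0) ∧
      (∀ θ l, ‖lw (fun θ => evL σ (z θ) W) (iz n q l) θ -
        2 * Real.pi * Complex.I * (m * v l)‖ ≤ δ) ∧
      (∀ l, Asy δ (qi n q m l) fun _ θ => (z θ l : ℂ)) ∧
      (∀ᶠ η in 𝓝[≠] (0 : ℂ), ContDiff ℝ 2 (x η) ∧ (∀ θ i, x η (θ + Pi.single i 1) = x η θ) ∧
        ∀ θ, ∏ e, MvPolynomial.eval₂ σ (x η θ) (p e) = η ^ m * evL σ (z θ) W) ∧
      ∀ e, Asy δ (qe n q m v (fun j => ∑ e, μ e j) (μ e))
        fun η θ => MvPolynomial.eval₂ σ (x η θ) (p e) := by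
  classical
  set N : Fin (n + 1) → ℕ := fun j => ∑ e, μ e j with hN
  have hmN : m = N 0 := hmdef
  have hm : m ≠ 0 := by
    rw [hmdef]
    exact hX.pos
  set M : ℝ := ∑ j, (N j : ℝ) with hM
  have hM0 : 0 ≤ M := Finset.sum_nonneg fun j _ => Nat.cast_nonneg _
  have hmr : (0 : ℝ) ≤ m := Nat.cast_nonneg _
  set T : ℝ := 2 * m + 4 * M + 2 * (M * M) + 2 * (m * M) + 4 with hT
  have hTpos : 0 < T := by positivity
  set δ' : ℝ := δ / T with hδ'
  have hδ'pos : 0 < δ' := by positivity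
  have hδ'eq : T * δ' = δ := by
    rw [hδ']
    field_simp
  have hp1 : 0 ≤ m * δ' := by positivity
  have hp2 : 0 ≤ M * δ' := by positivity
  have hp3 : 0 ≤ M * M * δ' := by positivity
  have hp4 : 0 ≤ m * M * δ' := by positivity
  have hδ'eq2 : 2 * (m * δ') + 4 * (M * δ') + 2 * (M * M * δ') + 2 * (m * M * δ') + 4 * δ' =
      δ := by
    rw [← hδ'eq, hT]
    ring
  obtain ⟨R, hR, b0, hb0g, hb0p, hb0m, hb0w⟩ := hv m hm δ' hδ'pos
  -- the root of the product of the functions `h`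
  obtain ⟨Q, hQc, hQ0, r0, hr0, hQ⟩ := exists_global_root (P := fun w => ∏ e, h e w)
    (contDiff_prod fun e _ => hX.hsmooth e) (Finset.prod_ne_zero_iff.2 fun e _ => hX.ne e) hm
  obtain ⟨ρ, hρ, hρ1, hρr0, hρe⟩ := exists_qradius (q := q)
    (h := fun e : Option E => e.elim Q h)
    (fun e => by cases e with
      | none => exact hQc
      | some e => exact hX.hsmooth e)
    (fun e => by cases e with
      | none => exact hQ0
      | some e => exact hX.ne e) hm hδ'pos hr0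
  -- the function `b`
  set z : (Fin (n + 1 + q) → ℝ) → Fin (q + 1) → ℂˣ := fun θ l =>
    zc R hR (pl (iz n q) θ) l ^ m with hz
  have hzl : ∀ θ l, (z θ l : ℂ) = circ (R l) (θ (iz n q l)) ^ m := fun θ l => by
    rw [hz, Units.val_pow_eq_pow_val]
    rfl
  have hzp : ∀ θ i, z (θ + Pi.single i 1) = z θ := by
    intro θ i
    funext l
    refine Units.ext ?_
    rw [hzl, hzl, circ_add_single]
  set B : (Fin (n + 1 + q) → ℝ) → ℂ := fun θ => b0 (pl (iz n q) θ) with hB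
  have hBc : ContDiff ℝ 2 B := hb0g.smooth.comp (pl (iz n q)).contDiff
  have hB0 : ∀ θ, B θ ≠ 0 := fun θ => hb0g.ne_zero _
  have hBg : Good B := ⟨hBc, hB0⟩
  have hBm : ∀ θ, B θ ^ m = evL σ (z θ) W := fun θ => hb0m _
  have hBp : ∀ θ i, B (θ + Pi.single i 1) = B θ := fun θ i =>
    pl_add_single (iz_injective n q) hb0p θ i
  set bB : Fin (n + 1 + q) → ℝ := ∑ l, (v l : ℝ) • Pi.single (iz n q l) 1 with hbB
  have hlwB1 : ∀ l θ, lw B (iz n q l) θ = lw b0 l (pl (iz n q) θ) := fun l θ =>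
    lw_pl (iz_injective n q) hb0g.smooth l θ
  have hbB1 : ∀ l, bB (iz n q l) = v l := by
    intro l
    rw [hbB, Finset.sum_apply, Finset.sum_eq_single l]
    · rw [Pi.smul_apply, Pi.single_eq_same, smul_eq_mul, mul_one]
    · intro l' _ hl'
      rw [Pi.smul_apply, Pi.single_eq_of_ne (fun h => hl' (iz_injective n q h).symm), smul_zero]
    · intro h
      exact absurd (Finset.mem_univ _) h
  have hbB2 : ∀ i, (∀ l, iz n q l ≠ i) → bB i = 0 := by
    intro i hi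
    rw [hbB, Finset.sum_apply]
    refine Finset.sum_eq_zero fun l _ => ?_
    rw [Pi.smul_apply, Pi.single_eq_of_ne (Ne.symm (hi l)), smul_zero]
  have hlwB : ∀ θ i, ‖lw B i θ - 2 * Real.pi * Complex.I * bB i‖ ≤ δ' := by
    intro θ i
    by_cases hi : ∃ l, iz n q l = i
    · obtain ⟨l, rfl⟩ := hi
      rw [hlwB1, hbB1]
      have := hb0w (pl (iz n q) θ) l
      push_cast
      exact this
    · push Not at hi
      have h1 : lw B i θ = 0 := lw_pl_of_ne hb0g.smooth hi θ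
      rw [h1, hbB2 i hi]
      simpa using hδ'pos.le
  have hBfam : Fam fun z : ℂ × (Fin (n + 1 + q) → ℝ) => B z.2 :=
    ⟨Eventually.of_forall fun ε θ => (hBc.comp contDiff_snd).contDiffAt,
      Eventually.of_forall fun ε θ i => hBp θ i⟩
  have hBasy : Asy (2 * δ') (Fin.cons 0 bB) fun _ θ => B θ :=
    hBfam.asy (fun θ => hB0 θ) hδ'pos fun θ j => hlwB θ j
  -- the equation
  set G : ℂ × (Fin (n + 1 + q) → ℝ) → ℂ := fun y =>
    (∏ j : Fin n, circ ρ (y.2 (iw n q j)) ^ N j.succ) * Q (wqt n q m ρ y.1 y.2) with hG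
  have hwc := contDiff_wqt n q m ρ
  have hcc : ∀ j : Fin n, ContDiff ℝ 2
      fun y : ℂ × (Fin (n + 1 + q) → ℝ) => circ ρ (y.2 (iw n q j)) := fun j =>
    (contDiff_circ ρ).comp ((contDiff_apply ℝ ℝ (iw n q j)).comp contDiff_snd)
  have hGc : ContDiff ℝ 2 G :=
    (contDiff_prod fun j _ => (hcc j).pow _).mul (hQc.comp hwc)
  have hGp : ∀ u θ i, G (u, θ + Pi.single i 1) = G (u, θ) := by
    intro u θ i
    simp only [hG, wqt_per, circ_add_single]
  have hG0 : ∀ θ, G (0, θ) ≠ 0 := by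
    intro θ
    exact mul_ne_zero (Finset.prod_ne_zero_iff.2 fun j _ => pow_ne_zero _ (circ_ne_zero hρ _))
      ((hρe none).1 θ)
  obtain ⟨U, r, hr, hU0, hU⟩ := exists_implicit hGc hBc hGp hBp hG0
  set x : ℂ → (Fin (n + 1 + q) → ℝ) → Fin (n + 1) → ℂ := fun ε θ =>
    X (wqt n q m ρ (U (ε, θ)) θ) with hx
  have hball : ∀ᶠ ε in 𝓝 (0 : ℂ), ‖ε‖ < r :=
    (continuous_norm.continuousAt (x := (0 : ℂ))).eventually
      (gt_mem_nhds (by simpa using hr))
  have hsmall : ∀ᶠ ε in 𝓝 (0 : ℂ), ∀ θ, ‖ε‖ < r → ‖U (ε, θ)‖ < r0 := by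
    refine eventually_forall_of_per (P := fun ε θ => ‖ε‖ < r → ‖U (ε, θ)‖ < r0)
      (fun ε θ i => ?_) fun θ => ?_
    · refine forall_congr' fun hε => ?_
      rw [(hU ε hε θ).2.2 i]
    · have h00 : ‖(0 : ℂ)‖ < r := by rw [norm_zero]; exact hr
      have h1 : ContinuousAt (fun z : ℂ × (Fin (n + 1 + q) → ℝ) => ‖U z‖) (0, θ) :=
        (hU 0 h00 θ).2.1.continuousAt.norm
      have h2 : ∀ᶠ z in 𝓝 ((0 : ℂ), θ), ‖U z‖ < r0 := by
        refine h1.eventually (gt_mem_nhds ?_)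
        show ‖U (0, θ)‖ < r0
        rw [hU0, norm_zero]
        exact hr0
      filter_upwards [h2] with z hz _
      exact hz
  have hfac : ∀ e ε θ, MvPolynomial.eval₂ σ (x ε θ) (p e) = U (ε, θ) ^ μ e 0 *
      (∏ j : Fin n, circ ρ (θ (iw n q j)) ^ (m * μ e j.succ)) *
        h e (wqt n q m ρ (U (ε, θ)) θ) := by
    intro e ε θ
    simp only [hx]
    rw [hX.eq, Fin.prod_univ_succ, wqt_zero]
    congr 2
    refine Finset.prod_congr rfl fun j _ => ?_
    rw [wqt_succ, ← pow_mul]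
  have hprod : ∀ ε : ℂ, ‖ε‖ < r → ∀ θ, ‖U (ε, θ)‖ < r0 →
      ∏ e, MvPolynomial.eval₂ σ (x ε θ) (p e) = ε ^ m * evL σ (z θ) W := by
    intro ε hε θ hUr
    have h1 : Q (wqt n q m ρ (U (ε, θ)) θ) ^ m = ∏ e, h e (wqt n q m ρ (U (ε, θ)) θ) :=
      hQ _ (norm_wqt_lt hm hρ hρ1 hρr0 hUr θ)
    rw [← hBm, ← mul_pow, ← (hU ε hε θ).1]
    simp only [hfac, hG]
    rw [Finset.prod_mul_distrib, Finset.prod_mul_distrib, Finset.prod_pow_eq_pow_sum,
      Finset.prod_comm, mul_pow, mul_pow, h1, ← Finset.prod_pow, ← hmdef, mul_assoc]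
    congr 2
    refine Finset.prod_congr rfl fun j _ => ?_
    rw [Finset.prod_pow_eq_pow_sum, ← pow_mul, ← Finset.mul_sum, mul_comm]
  have hUc : ∀ ε : ℂ, ‖ε‖ < r → ∀ θ, ContDiffAt ℝ 2
      (fun y : ℂ × (Fin (n + 1 + q) → ℝ) => wqt n q m ρ (U (y.1, y.2)) y.2) (ε, θ) := by
    intro ε hε θ
    have h1 : ContDiffAt ℝ 2 (fun y : ℂ × (Fin (n + 1 + q) → ℝ) =>
        (U (y.1, y.2), y.2)) (ε, θ) := (hU ε hε θ).2.1.prodMk contDiffAt_snd
    exact hwc.contDiffAt.comp (ε, θ) h1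
  have hxc : ∀ ε : ℂ, ‖ε‖ < r → ∀ θ, ContDiffAt ℝ 2
      (fun y : ℂ × (Fin (n + 1 + q) → ℝ) => x y.1 y.2) (ε, θ) := fun ε hε θ =>
    hX.smooth.contDiffAt.comp (ε, θ) (hUc ε hε θ)
  have hUp : ∀ ε : ℂ, ‖ε‖ < r → ∀ θ i,
      wqt n q m ρ (U (ε, θ + Pi.single i 1)) (θ + Pi.single i 1) =
      wqt n q m ρ (U (ε, θ)) θ := by
    intro ε hε θ i
    rw [wqt_per, (hU ε hε θ).2.2 i]
  have hxp : ∀ ε : ℂ, ‖ε‖ < r → ∀ θ i, x ε (θ + Pi.single i 1) = x ε θ := by
    intro ε hε θ i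
    simp only [hx]
    rw [hUp ε hε]
  -- functions which do not vanish at the point
  have hcons0 : (0 : Fin (n + 1 + q + 1) → ℝ) = Fin.cons 0 0 := by
    funext i
    refine Fin.cases rfl (fun i => ?_) i
    rfl
  have hasy0 : ∀ F : (Fin (n + 1) → ℂ) → ℂ, ContDiff ℝ 2 F →
      (∀ θ : Fin (n + 1 + q) → ℝ, F (wqt n q m ρ 0 θ) ≠ 0) →
      (∀ θ i, ‖lw (fun θ => F (wqt n q m ρ 0 θ)) i θ‖ ≤ δ') →
      Asy (2 * δ') (0 : Fin (n + 1 + q + 1) → ℝ) fun ε θ => F (wqt n q m ρ (U (ε, θ)) θ) := by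
    intro F hF hF0 hFl
    have hfam : Fam fun y : ℂ × (Fin (n + 1 + q) → ℝ) => F (wqt n q m ρ (U (y.1, y.2)) y.2) := by
      refine ⟨?_, ?_⟩
      · filter_upwards [hball] with ε hε θ
        exact hF.contDiffAt.comp (ε, θ) (hUc ε hε θ)
      · filter_upwards [hball] with ε hε θ i
        show F (wqt n q m ρ (U (ε, θ + Pi.single i 1)) (θ + Pi.single i 1)) = _
        rw [hUp ε hε]
    rw [hcons0]
    refine hfam.asy (fun θ => ?_) hδ'pos fun θ i => ?_
    · show F (wqt n q m ρ (U (0, θ)) θ) ≠ 0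
      rw [hU0]
      exact hF0 θ
    · have h2 : (fun θ => F (wqt n q m ρ (U (0, θ)) θ)) = fun θ => F (wqt n q m ρ 0 θ) := by
        funext θ
        rw [hU0]
      show ‖lw (fun θ => F (wqt n q m ρ (U (0, θ)) θ)) i θ - _‖ ≤ δ'
      rw [h2, Pi.zero_apply]
      simpa using hFl θ i
  have hhasy : ∀ e, Asy (2 * δ') (0 : Fin (n + 1 + q + 1) → ℝ)
      fun ε θ => h e (wqt n q m ρ (U (ε, θ)) θ) := fun e =>
    hasy0 (h e) (hX.hsmooth e) (hρe (some e)).1 (hρe (some e)).2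
  have hQasy : Asy (2 * δ') (0 : Fin (n + 1 + q + 1) → ℝ)
      fun ε θ => Q (wqt n q m ρ (U (ε, θ)) θ) := hasy0 Q hQc (hρe none).1 (hρe none).2
  have hcirc : ∀ j : Fin n, Asy (2 * δ') (Pi.single (iw n q j).succ 1)
      fun _ θ => circ ρ (θ (iw n q j)) := fun j => asy_circ hρ hδ'pos _
  have hmon : ∀ k : Fin n → ℕ, Asy ((∑ j, (k j : ℝ)) * (2 * δ'))
      (∑ j : Fin n, (k j : ℝ) • (Pi.single (iw n q j).succ 1 :
        Fin (n + 1 + q + 1) → ℝ)) fun _ θ => ∏ j : Fin n, circ ρ (θ (iw n q j)) ^ k j := by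
    intro k
    have key : ∀ s : Finset (Fin n), Asy ((∑ j ∈ s, (k j : ℝ)) * (2 * δ'))
        (∑ j ∈ s, (k j : ℝ) • (Pi.single (iw n q j).succ 1 : Fin (n + 1 + q + 1) → ℝ))
        fun _ θ => ∏ j ∈ s, circ ρ (θ (iw n q j)) ^ k j := by
      intro s
      induction s using Finset.induction_on with
      | empty =>
        simp only [Finset.sum_empty, zero_mul, Finset.prod_empty]
        exact Eventually.of_forall fun ε => near_one _
      | insert j s hj ih =>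
        rw [Finset.sum_insert hj, Finset.sum_insert hj, add_mul]
        simp only [Finset.prod_insert hj]
        exact ((hcirc j).pow (k j)).mul ih
    exact key Finset.univ
  have hsumN : ∑ j : Fin n, (N j.succ : ℝ) ≤ M := by
    rw [hM, Fin.sum_univ_succ]
    have : (0 : ℝ) ≤ N 0 := Nat.cast_nonneg _
    linarith
  have hμN : ∀ e j, (μ e j : ℝ) ≤ N j := by
    intro e j
    have : μ e j ≤ N j := Finset.single_le_sum (f := fun e => μ e j)
      (fun e _ => Nat.zero_le _) (Finset.mem_univ e)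
    exact_mod_cast this
  have hsumμ : ∀ e, ∑ j : Fin n, (μ e j.succ : ℝ) ≤ M := fun e =>
    (Finset.sum_le_sum fun j _ => hμN e j.succ).trans hsumN
  -- the type of `U`
  have hGasy : Asy (2 * (M * δ') + 2 * δ')
      (∑ j : Fin n, (N j.succ : ℝ) • (Pi.single (iw n q j).succ 1 :
        Fin (n + 1 + q + 1) → ℝ) + 0) fun ε θ => G (U (ε, θ), θ) := by
    refine Asy.mul ((hmon fun j => N j.succ).mono ?_) hQasy
    have h1 : (∑ j : Fin n, (N j.succ : ℝ)) * (2 * δ') ≤ M * (2 * δ') :=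
      mul_le_mul_of_nonneg_right hsumN (by linarith)
    linarith
  rw [add_zero] at hGasy
  have hUasy := (asy_eps.mul hBasy).div hGasy
  have hcons : (Fin.cons 0 bB : Fin (n + 1 + q + 1) → ℝ) =
      ∑ l, (v l : ℝ) • Pi.single (iz n q l).succ 1 := by
    funext i
    rw [Finset.sum_apply]
    refine Fin.cases ?_ (fun i => ?_) i
    · rw [Fin.cons_zero]
      refine (Finset.sum_eq_zero fun l _ => ?_).symm
      rw [Pi.smul_apply, Pi.single_eq_of_ne (Fin.succ_ne_zero _).symm, smul_zero]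
    · rw [Fin.cons_succ, hbB, Finset.sum_apply]
      refine Finset.sum_congr rfl fun l _ => ?_
      rw [Pi.smul_apply, Pi.smul_apply, single_succ, Fin.cons_succ]
  have hasyU : Asy (4 * δ' + 2 * (M * δ')) (ow n q v N 0) fun ε θ => U (ε, θ) := by
    have h1 : ow n q v N 0 = (Fin.cons (-1) 0 + Fin.cons 0 bB -
        ∑ j : Fin n, (N j.succ : ℝ) • (Pi.single (iw n q j).succ 1 :
        Fin (n + 1 + q + 1) → ℝ)) := by
      rw [hcons]
      unfold ow
      rw [Fin.cons_zero]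
      congr 2
      funext i
      refine Fin.cases ?_ (fun i => ?_) i
      · rw [Pi.neg_apply, Pi.single_eq_same, Fin.cons_zero]
      · rw [Pi.neg_apply, Pi.single_eq_of_ne (Fin.succ_ne_zero _), Fin.cons_succ, neg_zero]
        rfl
    rw [h1]
    refine (hUasy.mono (le_of_eq (by ring))).congr ?_
    have hUasy' := hUasy
    unfold Asy at hUasy'
    filter_upwards [nhdsWithin_le_nhds hball, hUasy'] with ε hε hε2
    funext θ
    rw [← (hU ε hε θ).1]
    have h4 : G (U (ε, θ), θ) ≠ 0 := by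
      intro h0
      have h5 := hε2.good.ne_zero θ
      rw [h0, div_zero] at h5
      exact h5 rfl
    rw [mul_div_assoc, div_self h4, mul_one]
  have hμ0 : ∀ e, (μ e 0 : ℝ) ≤ M := by
    intro e
    refine (hμN e 0).trans ?_
    rw [hM]
    exact Finset.single_le_sum (f := fun j => (N j : ℝ)) (fun j _ => Nat.cast_nonneg _)
      (Finset.mem_univ 0)
  refine ⟨x, z, fun l => ?_, hzp, fun θ => ?_, fun θ l => ?_, fun l => ?_, ?_, fun e => ?_⟩
  · simp only [hzl]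
    exact ((contDiff_circ (R l)).comp (contDiff_apply ℝ ℝ (iz n q l))).pow m
  · rw [← hBm]
    exact pow_ne_zero _ (hB0 θ)
  · have h1 := hlwB θ (iz n q l)
    rw [hbB1] at h1
    push_cast at h1
    have h2 : (fun θ => evL σ (z θ) W) = fun θ => B θ ^ m := funext fun θ => (hBm θ).symm
    rw [h2, Pool.Agent.TH690.SF.lw_pow hBg]
    have h3 : (m : ℂ) * lw B (iz n q l) θ - 2 * Real.pi * Complex.I * (m * v l) =
        m * (lw B (iz n q l) θ - 2 * Real.pi * Complex.I * v l) := by ring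
    rw [h3, norm_mul, Complex.norm_natCast]
    have h4 := mul_le_mul_of_nonneg_left h1 hmr
    linarith
  · have h1 := (asy_circ (hR l) hδ'pos (iz n q l)).pow m
    have h2 : (fun (_ : ℂ) θ => circ (R l) (θ (iz n q l)) ^ m) =
        fun (_ : ℂ) θ => (z θ l : ℂ) := by
      funext ε θ
      exact (hzl θ l).symm
    rw [h2] at h1
    refine Asy.mono h1 ?_
    linarith
  · filter_upwards [nhdsWithin_le_nhds hball, nhdsWithin_le_nhds hsmall] with ε hε hε2
    refine ⟨?_, hxp ε hε, fun θ => hprod ε hε θ (hε2 θ hε)⟩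
    rw [contDiff_iff_contDiffAt]
    intro θ
    exact (hxc ε hε θ).comp θ (contDiffAt_const.prodMk contDiffAt_id)
  · have h1 := ((hasyU.pow (μ e 0)).mul (hmon fun j => m * μ e j.succ)).mul (hhasy e)
    have h2 : (μ e 0 : ℝ) • ow n q v N 0 + ∑ j : Fin n, ((m * μ e j.succ : ℕ) : ℝ) •
        (Pi.single (iw n q j).succ 1 : Fin (n + 1 + q + 1) → ℝ) + 0 =
        qe n q m v N (μ e) := by
      unfold qe qw
      rw [add_zero, Fin.sum_univ_succ, Fin.cons_zero]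
      congr 1
      refine Finset.sum_congr rfl fun j _ => ?_
      rw [Fin.cons_succ, smul_smul]
      unfold ow
      rw [Fin.cons_succ]
      congr 1
      push_cast
      ring
    rw [h2] at h1
    have h3 : (fun ε θ => U (ε, θ) ^ μ e 0 *
        (∏ j : Fin n, circ ρ (θ (iw n q j)) ^ (m * μ e j.succ)) *
        h e (wqt n q m ρ (U (ε, θ)) θ)) =
        fun ε θ => MvPolynomial.eval₂ σ (x ε θ) (p e) := by
      funext ε θ
      exact (hfac e ε θ).symm
    rw [← h3]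
    refine h1.mono ?_
    have h4 : (μ e 0 : ℝ) * (4 * δ' + 2 * (M * δ')) ≤ M * (4 * δ' + 2 * (M * δ')) :=
      mul_le_mul_of_nonneg_right (hμ0 e) (by linarith)
    have h5 : (∑ j : Fin n, ((m * μ e j.succ : ℕ) : ℝ)) * (2 * δ') ≤ m * M * (2 * δ') := by
      refine mul_le_mul_of_nonneg_right ?_ (by linarith)
      push_cast
      rw [← Finset.mul_sum]
      exact mul_le_mul_of_nonneg_left (hsumμ e) hmr
    linarith

end points

end Pool.Agent.Q212.LF
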