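import Pool.Agent.Q212.LF.MChart
set_option autoImplicit false

/-!
Tori on which a Laurent polynomial in the powers of the coordinates has a root which is almost a
monomial, and roots of functions near a point.
-/

namespace Pool.Agent.Q212.LF

open Filter Topology

open Pool.Agent.TH826.MK

open Pool.Agent.TH690.SF (good_pow lw_pow)

open Pool.Agent.TH826.SX (good_circ lw_circ circ_ne_zero)

section croot

/-- the principal branch of the root -/
noncomputable def croot (m : ℕ) (z : ℂ) : ℂ := Complex.exp (Complex.log z / m)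

theorem croot_pow {m : ℕ} (hm : m ≠ 0) {z : ℂ} (hz : z ≠ 0) : croot m z ^ m = z := by
  unfold croot
  have hm' : (m : ℂ) ≠ 0 := Nat.cast_ne_zero.2 hm
  rw [← Complex.exp_nat_mul, mul_div_cancel₀ _ hm', Complex.exp_log hz]

theorem croot_ne_zero (m : ℕ) (z : ℂ) : croot m z ≠ 0 := Complex.exp_ne_zero _

theorem croot_one (m : ℕ) : croot m 1 = 1 := by
  unfold croot
  rw [Complex.log_one, zero_div, Complex.exp_zero]

theorem contDiffAt_croot (m : ℕ) {z : ℂ} (hz : z ∈ Complex.slitPlane) :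
    ContDiffAt ℝ 2 (croot m) z := by
  have h1 : ContDiffAt ℂ 2 (croot m) z := by
    unfold croot
    exact ((Complex.contDiffAt_log hz).div_const _).cexp
  exact h1.restrict_scalars ℝ

theorem slit_of_near {z : ℂ} (hz : ‖z - 1‖ < 1) : z ∈ Complex.slitPlane := by
  left
  have h1 := Complex.abs_re_le_norm (z - 1)
  rw [Complex.sub_re, Complex.one_re] at h1
  have h2 := abs_le.1 h1
  linarith [h2.1]

/-- A function without zero at the point has a root near the point, which extends to the whole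
space. -/
theorem exists_global_root {N : ℕ} {P : (Fin N → ℂ) → ℂ} (hP : ContDiff ℝ 2 P) (h0 : P 0 ≠ 0)
    {m : ℕ} (hm : m ≠ 0) : ∃ Q : (Fin N → ℂ) → ℂ, ContDiff ℝ 2 Q ∧ Q 0 ≠ 0 ∧
      ∃ r : ℝ, 0 < r ∧ ∀ w, ‖w‖ < r → Q w ^ m = P w := by
  obtain ⟨c0, hc0⟩ := IsAlgClosed.exists_pow_nat_eq (P 0) (Nat.pos_of_ne_zero hm)
  have hc00 : c0 ≠ 0 := by
    rintro rfl
    rw [zero_pow hm] at hc0
    exact h0 hc0.symm
  set g : (Fin N → ℂ) → ℂ := fun w => P w / P 0 with hg
  have hgc : ContDiff ℝ 2 g := hP.div_const _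
  have hg0 : g 0 = 1 := div_self h0
  have hev : ∀ᶠ w in 𝓝 (0 : Fin N → ℂ), ‖g w - 1‖ < 1 := by
    have h1 : ContinuousAt (fun w => ‖g w - 1‖) 0 :=
      ((hgc.continuous.sub continuous_const).norm).continuousAt
    refine h1.eventually (gt_mem_nhds ?_)
    show ‖g 0 - 1‖ < 1
    rw [hg0, sub_self, norm_zero]
    exact one_pos
  obtain ⟨r, hr, hr'⟩ := Metric.eventually_nhds_iff.1 hev
  have hsl : ∀ w : Fin N → ℂ, ‖w‖ < r → g w ∈ Complex.slitPlane := fun w hw =>
    slit_of_near (hr' (by rwa [dist_zero_right]))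
  set χ : ContDiffBump (0 : Fin N → ℂ) := ⟨r / 4, r / 2, by positivity, by linarith⟩ with hχ
  refine ⟨fun w => c0 * (1 + (χ w : ℂ) * (croot m (g w) - 1)), ?_, ?_, r / 4, by positivity,
    fun w hw => ?_⟩
  · rw [contDiff_iff_contDiffAt]
    intro w
    by_cases hw : ‖w‖ < r
    · have h1 : ContDiffAt ℝ 2 (fun w => croot m (g w)) w :=
        (contDiffAt_croot m (hsl w hw)).comp w hgc.contDiffAt
      have h2 : ContDiffAt ℝ 2 (fun w => (χ w : ℂ)) w :=
        Complex.ofRealCLM.contDiff.contDiffAt.comp w (χ.contDiffAt (n := 2))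
      exact contDiffAt_const.mul (contDiffAt_const.add (h2.mul (h1.sub contDiffAt_const)))
    · have h1 : ∀ᶠ w' in 𝓝 w, r / 2 < ‖w'‖ :=
        continuous_norm.continuousAt.eventually (lt_mem_nhds (by linarith [not_lt.1 hw]))
      have h2 : (fun w => c0 * (1 + (χ w : ℂ) * (croot m (g w) - 1))) =ᶠ[𝓝 w] fun _ => c0 := by
        filter_upwards [h1] with w' hw'
        have h3 : χ w' = 0 := χ.zero_of_le_dist (by
          rw [dist_zero_right]
          exact hw'.le)
        rw [h3, Complex.ofReal_zero, zero_mul, add_zero, mul_one]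
      exact contDiffAt_const.congr_of_eventuallyEq h2
  · show c0 * (1 + (χ 0 : ℂ) * (croot m (g 0) - 1)) ≠ 0
    rw [hg0, croot_one, sub_self, mul_zero, add_zero, mul_one]
    exact hc00
  · show (c0 * (1 + (χ w : ℂ) * (croot m (g w) - 1))) ^ m = P w
    have h3 : χ w = 1 := χ.one_of_mem_closedBall (by
      rw [mem_closedBall_zero_iff]
      exact hw.le)
    have h4 : g w ≠ 0 := Complex.slitPlane_ne_zero (hsl w (by linarith))
    rw [h3, Complex.ofReal_one, one_mul, add_sub_cancel, mul_pow, hc0, croot_pow hm h4]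
    exact mul_div_cancel₀ _ h0

end croot

section fibre

variable {K : Type*} [Field K] {q : ℕ}

theorem mo_pow' {q : ℕ} {S : Type*} [Field S] (z : Fin q → Sˣ) (m : ℕ) (e : Fin q → ℤ) :
    mo (fun l => z l ^ m) e = mo z e ^ m := by
  unfold mo
  rw [← Finset.prod_pow]
  refine Finset.prod_congr rfl fun l _ => ?_
  show (z l ^ m) ^ e l = (z l ^ e l) ^ m
  rw [← zpow_natCast (z l), ← zpow_natCast (z l ^ e l), ← zpow_mul, ← zpow_mul, mul_comm]

/-- There is a monomial of `W`, such that on suitable tori the value of `W` at the `m`-th powers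
has an `m`-th root close to this monomial. -/
theorem exists_zroot (W : Lau K q) (hW : W ≠ 0) (σ : K →+* ℂ) :
    ∃ v ∈ lsupp W, (∀ e ∈ lsupp W, ∑ l, e l * e l ≤ ∑ l, v l * v l) ∧
      ∀ m : ℕ, m ≠ 0 → ∀ δ : ℝ, 0 < δ →
        ∃ (R : Fin q → ℝ) (hR : ∀ l, 0 < R l) (b : (Fin q → ℝ) → ℂ),
        Good b ∧ (∀ θ i, b (θ + Pi.single i 1) = b θ) ∧
        (∀ θ, b θ ^ m = evL σ (fun l => zc R hR θ l ^ m) W) ∧
        ∀ θ j, ‖lw b j θ - 2 * Real.pi * Complex.I * v j‖ ≤ δ := by
  classical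
  have hsupp : (lsupp W).Nonempty := by
    rw [Finset.nonempty_iff_ne_empty]
    intro h
    apply hW
    rw [← lsum_eq W, h, Finset.sum_empty]
  obtain ⟨v, hv, hmax⟩ := Finset.exists_max_image (lsupp W) (fun e => ∑ l, e l * e l) hsupp
  refine ⟨v, hv, hmax, fun m hm δ hδ => ?_⟩
  set N : ℤ := ∑ l, v l * v l with hN
  have hlt : ∀ e ∈ lsupp W, e ≠ v → ∑ l, v l * e l < N := by
    intro e he hev
    have h1 := hmax e he
    have h2 : 0 < ∑ l, (v l - e l) * (v l - e l) := by
      obtain ⟨l, hl⟩ := Function.ne_iff.1 hev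
      refine Finset.sum_pos' (fun l _ => mul_self_nonneg _) ⟨l, Finset.mem_univ l, ?_⟩
      exact mul_self_pos.2 (sub_ne_zero.2 (Ne.symm hl))
    have h3 : ∑ l, (v l - e l) * (v l - e l) = N - 2 * ∑ l, v l * e l + ∑ l, e l * e l := by
      rw [hN, Finset.mul_sum, ← Finset.sum_sub_distrib, ← Finset.sum_add_distrib]
      refine Finset.sum_congr rfl fun l _ => ?_
      ring
    rw [h3] at h2
    have h4 : ∑ l, e l * e l ≤ N := h1
    omega
  set k : (Fin q → ℤ) → ℕ := fun e => (N - ∑ l, v l * e l).toNat with hk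
  have hkv : k v = 0 := by
    simp only [hk]
    rw [← hN, sub_self]
    rfl
  have hke : ∀ e ∈ lsupp W, e ≠ v → k e ≠ 0 := by
    intro e he hev
    have := hlt e he hev
    simp only [hk]
    omega
  have hkz : ∀ e ∈ lsupp W, ((k e : ℕ) : ℤ) = N - ∑ l, v l * e l := by
    intro e he
    simp only [hk]
    refine Int.toNat_of_nonneg ?_
    by_cases hev : e = v
    · rw [hev, ← hN, sub_self]
    · have := hlt e he hev
      omega
  have hc0 : σ (lcf W v) ≠ 0 := (map_ne_zero σ).2 (mem_lsupp.1 hv)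
  set f : ℂ × (Fin q → ℝ) → ℂ := fun z =>
    ∑ e ∈ lsupp W, σ (lcf W e) / σ (lcf W v) * (z.1 ^ k e * ch (e - v) z.2) ^ m with hf
  have hfc : ContDiff ℝ 2 f := by
    refine ContDiff.sum fun e _ => ?_
    exact contDiff_const.mul (((contDiff_fst.pow _).mul ((contDiff_ch _).comp contDiff_snd)).pow _)
  have hfF : Fam f := by
    refine ⟨Eventually.of_forall fun ε θ => hfc.contDiffAt, Eventually.of_forall fun ε θ i => ?_⟩
    simp only [hf, ch_add_single]
  have hf0 : ∀ θ, f (0, θ) = 1 := by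
    intro θ
    simp only [hf]
    rw [Finset.sum_eq_single v]
    · rw [hkv, pow_zero, div_self hc0, sub_self]
      unfold ch
      simp
    · intro e he hev
      rw [zero_pow (hke e he hev), zero_mul, zero_pow hm, mul_zero]
    · intro h
      exact absurd hv h
  have hclose := hfF.close (fun θ => by rw [hf0]; exact one_ne_zero) hδ
  have hnear : ∀ᶠ ε in 𝓝 (0 : ℂ), ∀ θ, ‖f (ε, θ) - 1‖ < 1 := by
    refine eventually_forall_of_per (P := fun ε θ => ‖f (ε, θ) - 1‖ < 1)
      (fun ε θ i => ?_) fun θ => ?_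
    · simp only [hf, ch_add_single]
    · have h1 : ContinuousAt (fun z => ‖f z - 1‖) (0, θ) :=
        ((hfc.continuous.sub continuous_const).norm).continuousAt
      refine h1.eventually (gt_mem_nhds ?_)
      show ‖f (0, θ) - 1‖ < 1
      rw [hf0, sub_self, norm_zero]
      exact one_pos
  obtain ⟨r, hr, hr'⟩ := Metric.eventually_nhds_iff.1 (hclose.and hnear)
  set t : ℝ := r / 2 with ht
  have htpos : 0 < t := by positivity
  have ht0 : (t : ℂ) ≠ 0 := by exact_mod_cast htpos.ne'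
  obtain ⟨⟨h1, -, h3⟩, hn⟩ := hr' (y := (t : ℂ)) (by
    rw [dist_zero_right, Complex.norm_real, Real.norm_eq_abs, abs_of_pos htpos]
    linarith)
  set R : Fin q → ℝ := fun l => t ^ (-v l) with hR
  have hRpos : ∀ l, 0 < R l := fun l => zpow_pos htpos _
  have hmain : ∀ θ, evL σ (fun l => zc R hRpos θ l ^ m) W = σ (lcf W v) *
      ((mo (zc R hRpos θ) v : ℂˣ) : ℂ) ^ m * f ((t : ℂ), θ) := by
    intro θ
    rw [evL_eq]
    simp only [hf]
    rw [Finset.mul_sum]
    refine Finset.sum_congr rfl fun e he => ?_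
    have h4 := mo_zc_eq t htpos v e θ
    have h5 := mo_zc_eq t htpos v v θ
    have h6 : ch e θ = ch v θ * ch (e - v) θ := by
      unfold ch
      rw [← Complex.exp_add, ← mul_add, ← Finset.sum_add_distrib]
      congr 2
      refine Finset.sum_congr rfl fun l _ => ?_
      rw [Pi.sub_apply]
      push_cast
      ring
    have h7 : (t : ℂ) ^ (-∑ l, v l * e l) = (t : ℂ) ^ (-∑ l, v l * v l) * (t : ℂ) ^ k e := by
      rw [← zpow_natCast, ← zpow_add₀ ht0, hkz e he, hN]
      congr 1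
      ring
    have h8 : ((mo (zc R hRpos θ) e : ℂˣ) : ℂ) = ((mo (zc R hRpos θ) v : ℂˣ) : ℂ) *
        ((t : ℂ) ^ k e * ch (e - v) θ) := by
      rw [h4, h5, h6, h7]
      ring
    rw [mo_pow', Units.val_pow_eq_pow_val, h8, mul_pow]
    field_simp
  obtain ⟨c1, hc1⟩ := IsAlgClosed.exists_pow_nat_eq (σ (lcf W v)) (Nat.pos_of_ne_zero hm)
  have hc10 : c1 ≠ 0 := by
    rintro rfl
    rw [zero_pow hm] at hc1
    exact hc0 hc1.symm
  set s : (Fin q → ℝ) → ℂ := fun θ => croot m (f ((t : ℂ), θ)) with hs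
  have hsg : Good s := by
    refine ⟨?_, fun θ => croot_ne_zero _ _⟩
    rw [contDiff_iff_contDiffAt]
    intro θ
    exact ContDiffAt.comp (g := croot m) (f := fun θ : Fin q → ℝ => f ((t : ℂ), θ)) θ
      (contDiffAt_croot m (slit_of_near (hn θ))) h1.smooth.contDiffAt
  have hsm : ∀ θ, s θ ^ m = f ((t : ℂ), θ) := fun θ => croot_pow hm (h1.ne_zero θ)
  have hg1 : Good fun θ : Fin q → ℝ => c1 * ((mo (zc R hRpos θ) v : ℂˣ) : ℂ) :=
    (good_const hc10).mul (good_mo_zc R hRpos v)
  refine ⟨R, hRpos, fun θ => c1 * ((mo (zc R hRpos θ) v : ℂˣ) : ℂ) * s θ, hg1.mul hsg,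
    fun θ i => ?_, fun θ => ?_, fun θ j => ?_⟩
  · have h4 : zc R hRpos (θ + Pi.single i 1) = zc R hRpos θ := by
      funext l
      refine Units.ext ?_
      rw [coe_zc, coe_zc, circ_add_single]
    have h5 : f ((t : ℂ), θ + Pi.single i 1) = f ((t : ℂ), θ) := by
      simp only [hf, ch_add_single]
    simp only [hs, h4, h5]
  · rw [hmain, mul_pow, mul_pow, hc1, hsm]
  · rw [lw_mul hg1 hsg, lw_mul (good_const hc10) (good_mo_zc R hRpos v), lw_const, lw_mo_zc,
      zero_add, add_sub_cancel_left]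
    have h4 : (m : ℂ) * lw s j θ = lw (fun θ => f ((t : ℂ), θ)) j θ := by
      rw [← lw_pow hsg]
      congr 1
      funext θ
      exact hsm θ
    have h5 := h3 θ j
    have h9 : lw (fun θ => f (0, θ)) j θ = 0 := by
      have : (fun θ => f (0, θ)) = fun _ => 1 := funext hf0
      rw [this, lw_const]
    rw [h9, sub_zero, ← h4, norm_mul, Complex.norm_natCast] at h5
    have h6 : (1 : ℝ) ≤ m := by exact_mod_cast Nat.one_le_iff_ne_zero.2 hm
    have h7 : 1 * ‖lw s j θ‖ ≤ m * ‖lw s j θ‖ :=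
      mul_le_mul_of_nonneg_right h6 (norm_nonneg _)
    linarith

end fibre

end Pool.Agent.Q212.LF
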