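import Pool.Agent.Q212.LF.QChart
import Pool.Agent.Q212.LF.MTori
set_option autoImplicit false

/-!
Tori in the hypersurfaces `W(z) = λ ∏ p_e(x)` and the regulators of symbols on them, for large `λ`,
in charts in which the first coordinate occurs with an arbitrary exponent.
-/

namespace Pool.Agent.Q212.LF

open Filter Topology

open Pool.Agent.TH826.MK

open Pool.Agent.TH826.SX (det_ne_zero_near pairing_close)

section mat

variable {n q : ℕ}

/-- the matrix of the types of the coordinates -/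
noncomputable def QOm (n q m : ℕ) (v : Fin (q + 1) → ℤ) (N : Fin (n + 1) → ℕ) :
    Matrix (Fin (n + 1 + (q + 1))) (Fin (n + 1 + (q + 1))) ℝ :=
  Matrix.of (Fin.append (qw n q m v N) (qi n q m))

theorem det_QOm_ne_zero (n q : ℕ) {m : ℕ} (hm : m ≠ 0) (v : Fin (q + 1) → ℤ)
    (N : Fin (n + 1) → ℕ) : (QOm n q m v N).det ≠ 0 := by
  have hm' : (m : ℝ) ≠ 0 := Nat.cast_ne_zero.2 hm
  set w : Fin (n + 1 + (q + 1)) → ℝ :=
    Fin.append (Fin.cons 1 fun _ => (m : ℝ)) fun _ => (m : ℝ) with hw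
  have h : QOm n q m v N = Matrix.of fun i j => w i * Om n q v N i j := by
    ext i j
    unfold QOm Om
    rw [Matrix.of_apply, Matrix.of_apply, hw]
    refine Fin.addCases (fun k => ?_) (fun l => ?_) i
    · rw [Fin.append_left, Fin.append_left, Matrix.of_apply, Fin.append_left]
      unfold qw
      refine Fin.cases ?_ (fun k => ?_) k
      · rw [Fin.cons_zero, Fin.cons_zero, one_mul]
      · rw [Fin.cons_succ, Fin.cons_succ]
        rfl
    · rw [Fin.append_right, Fin.append_right, Matrix.of_apply, Fin.append_right]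
      rfl
  rw [h, Matrix.det_mul_column]
  refine mul_ne_zero (Finset.prod_ne_zero_iff.2 fun i _ => ?_) (det_Om_ne_zero n q v N)
  rw [hw]
  refine Fin.addCases (fun k => ?_) (fun l => ?_) i
  · rw [Fin.append_left]
    refine Fin.cases ?_ (fun k => ?_) k
    · rw [Fin.cons_zero]
      exact one_ne_zero
    · rw [Fin.cons_succ]
      exact hm'
  · rw [Fin.append_right]
    exact hm'

/-- the matrix of the types of the entries -/
noncomputable def QRT (n q m : ℕ) (v : Fin (q + 1) → ℤ) (N : Fin (n + 1) → ℕ)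
    (num den : Fin (n + 1) → Fin (n + 1) → ℕ) :
    Matrix (Fin (n + 1 + (q + 1))) (Fin (n + 1 + (q + 1))) ℝ :=
  Matrix.of (Fin.append (fun k => qe n q m v N (num k) - qe n q m v N (den k)) (qi n q m))

theorem QRT_castAdd (n q m : ℕ) (v : Fin (q + 1) → ℤ) (N : Fin (n + 1) → ℕ)
    (num den : Fin (n + 1) → Fin (n + 1) → ℕ)
    (k : Fin (n + 1)) : QRT n q m v N num den (Fin.castAdd (q + 1) k) =
      qe n q m v N (num k) - qe n q m v N (den k) :=
  Fin.append_left (fun k => qe n q m v N (num k) - qe n q m v N (den k)) (qi n q m) k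

theorem QRT_natAdd (n q m : ℕ) (v : Fin (q + 1) → ℤ) (N : Fin (n + 1) → ℕ)
    (num den : Fin (n + 1) → Fin (n + 1) → ℕ)
    (l : Fin (q + 1)) : QRT n q m v N num den (Fin.natAdd (n + 1) l) = qi n q m l :=
  Fin.append_right (fun k => qe n q m v N (num k) - qe n q m v N (den k)) (qi n q m) l

theorem det_QRT (n q m : ℕ) (v : Fin (q + 1) → ℤ) (N : Fin (n + 1) → ℕ)
    (num den : Fin (n + 1) → Fin (n + 1) → ℕ) :
    (QRT n q m v N num den).det = (Mb num den).det * (QOm n q m v N).det := by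
  have h : QRT n q m v N num den = (Matrix.fromBlocks (Mb num den) 0 0
      (1 : Matrix (Fin (q + 1)) (Fin (q + 1)) ℝ)).reindex finSumFinEquiv finSumFinEquiv *
        QOm n q m v N := by
    ext i j
    rw [Matrix.mul_apply, Fin.sum_univ_add]
    unfold QRT QOm
    simp only [Matrix.of_apply, Fin.append_left, Fin.append_right, Matrix.reindex_apply,
      Matrix.submatrix_apply, finSumFinEquiv_symm_apply_castAdd,
      finSumFinEquiv_symm_apply_natAdd]
    refine Fin.addCases (fun k => ?_) (fun l => ?_) i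
    · simp only [Fin.append_left, finSumFinEquiv_symm_apply_castAdd,
        Matrix.fromBlocks_apply₁₁, Matrix.fromBlocks_apply₁₂, Matrix.zero_apply, zero_mul,
        Finset.sum_const_zero, add_zero]
      unfold qe Mb
      rw [Pi.sub_apply, Finset.sum_apply, Finset.sum_apply, ← Finset.sum_sub_distrib]
      refine Finset.sum_congr rfl fun j' _ => ?_
      rw [Pi.smul_apply, Pi.smul_apply, smul_eq_mul, smul_eq_mul, ← sub_mul, Matrix.of_apply]
    · simp only [Fin.append_right, finSumFinEquiv_symm_apply_natAdd,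
        Matrix.fromBlocks_apply₂₁, Matrix.fromBlocks_apply₂₂, Matrix.zero_apply, zero_mul,
        Finset.sum_const_zero, zero_add]
      rw [Finset.sum_eq_single l]
      · rw [Matrix.one_apply_eq, one_mul]
      · intro l' _ hl'
        rw [Matrix.one_apply_ne (Ne.symm hl'), zero_mul]
      · intro h
        exact absurd (Finset.mem_univ _) h
  rw [h, Matrix.det_mul, Matrix.det_reindex_self, Matrix.det_fromBlocks_zero₁₂, Matrix.det_one,
    mul_one]

end mat

section main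

variable {K : Type*} [Field K] {n q : ℕ} {E : Type*} [Fintype E]
  {σ : K →+* ℂ} {p : E → MvPolynomial (Fin (n + 1)) K} {μ : E → Fin (n + 1) → ℕ}
  {h : E → (Fin (n + 1) → ℂ) → ℂ}
  {X : (Fin (n + 1) → ℂ) → Fin (n + 1) → ℂ} {W : Lau K (q + 1)} {v : Fin (q + 1) → ℤ}

theorem exists_lam_root {Q : ℂ → Prop} (h : ∀ᶠ η in 𝓝[≠] (0 : ℂ), Q η) {m : ℕ} (hm : m ≠ 0) :
    ∃ Λ : ℝ, 1 < Λ ∧ ∀ w : ℂ, Λ ≤ ‖w‖ → w ≠ 0 ∧ ∃ η : ℂ, η ^ m = w⁻¹ ∧ Q η := by
  rw [eventually_nhdsWithin_iff] at h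
  obtain ⟨r, hr, hr'⟩ := Metric.eventually_nhds_iff.1 h
  have h1 : 0 < (r ^ m)⁻¹ := by positivity
  refine ⟨(r ^ m)⁻¹ + 2, by linarith, fun w hw => ?_⟩
  have hw0 : 0 < ‖w‖ := by linarith
  have hw1 : w ≠ 0 := norm_pos_iff.1 hw0
  obtain ⟨η, hη⟩ := IsAlgClosed.exists_pow_nat_eq w⁻¹ (Nat.pos_of_ne_zero hm)
  have hη0 : η ≠ 0 := by
    rintro rfl
    rw [zero_pow hm] at hη
    exact inv_ne_zero hw1 hη.symm
  refine ⟨hw1, η, hη, hr' ?_ hη0⟩
  rw [dist_zero_right]
  have h2 : ‖η‖ ^ m < r ^ m := by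
    rw [← norm_pow, hη, norm_inv, inv_lt_comm₀ hw0 (by positivity)]
    linarith
  exact lt_of_pow_lt_pow_left₀ m hr.le h2

/-- The torus near a vertex and the regulators of the symbols on it. -/
theorem QChart.exists_torus {ι : Type*} [Finite ι] (hX : QChart σ p μ h X) (hv0 : v ≠ 0)
    (hv : ZRoot σ W v) {m : ℕ} (hmdef : m = ∑ e, μ e 0)
    (num den : ι → Fin (n + 1) → E) (γ : ι → Fin (n + 1) → K) (hγ : ∀ s k, γ s k ≠ 0)
    {ε : ℝ} (hε : 0 < ε) :
    ∃ Λ : ℝ, 1 < Λ ∧ ∀ lam : K, Λ ≤ ‖σ lam‖ → ∀ Φ : MvPolynomial (Fin (n + 1)) K,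
      Φ = MvPolynomial.C lam * ∏ e, p e → ∃ Γ : Torus (HOpen W Φ) (n + 1 + q),
        (∀ θ c, Γ.e θ (ocst W Φ c) = σ c) ∧
        (∀ θ, ∃ j, Γ.e θ (opol W Φ (MvPolynomial.pderiv j Φ)) ≠ 0) ∧
        ∀ (s : ι) (B : Fin (n + 1) → (HOpen W Φ)ˣ),
          (∀ k, (B k : HOpen W Φ) * opol W Φ (p (den s k)) =
            ocst W Φ (γ s k) * opol W Φ (p (num s k))) →
          |Γ.reg (symb (hent B)) / (Real.log ‖σ lam‖ / m) -
            (2 * Real.pi) ^ (n + 1 + q) *
              ((Mb (fun k => μ (num s k)) fun k => μ (den s k)).det *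
                (QOm n q m v fun j => ∑ e, μ e j).det)| ≤ ε := by
  classical
  set N : Fin (n + 1) → ℕ := fun j => ∑ e, μ e j with hN
  have hm : m ≠ 0 := by
    rw [hmdef]
    exact hX.pos
  have hmr : (m : ℝ) ≠ 0 := Nat.cast_ne_zero.2 hm
  choose δ hδ hclose using fun s : ι =>
    pairing_close (QRT n q m v N (fun k => μ (num s k)) fun k => μ (den s k)) hε
  obtain ⟨δ0, hδ0pos, hδ0⟩ : ∃ δ0 : ℝ, 0 < δ0 ∧ ∀ s, δ0 < δ s := by
    have h1 : ∀ᶠ t in 𝓝[>] (0 : ℝ), ∀ s, t < δ s :=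
      eventually_all.2 fun s => nhdsWithin_le_nhds (gt_mem_nhds (hδ s))
    obtain ⟨t, ht1, ht2⟩ := (h1.and self_mem_nhdsWithin).exists
    exact ⟨t, ht2, ht1⟩
  set δ1 : ℝ := min (δ0 / 3) 1 with hδ1
  have hδ1pos : 0 < δ1 := lt_min (by positivity) one_pos
  have hδ1a : 3 * δ1 ≤ δ0 := by
    have := min_le_left (δ0 / 3) 1
    rw [← hδ1] at this
    linarith
  have hδ1b : δ1 ≤ 1 := min_le_right _ _
  obtain ⟨x, z, hzc, hzp, hW0, hWlw, hzasy, hxev, hpasy⟩ := hX.exists_points hv hmdef hδ1pos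
  have hE : ∀ᶠ ε in 𝓝[≠] (0 : ℂ), ∀ (s : ι) (k : Fin (n + 1)),
      Near (-Real.log ‖ε‖) (3 * δ1) (qe n q m v N (μ (num s k)) - qe n q m v N (μ (den s k)))
        fun θ => σ (γ s k) * MvPolynomial.eval₂ σ (x ε θ) (p (num s k)) /
          MvPolynomial.eval₂ σ (x ε θ) (p (den s k)) := by
    rw [eventually_all]
    intro s
    rw [eventually_all]
    intro k
    have h1 := ((asy_const (d := n + 1 + q) ((map_ne_zero σ).2 (hγ s k)) hδ1pos).mul
      (hpasy (num s k))).div (hpasy (den s k))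
    rw [zero_add] at h1
    refine Asy.mono h1 (le_of_eq ?_)
    ring
  have hZ : ∀ᶠ ε in 𝓝[≠] (0 : ℂ), ∀ l, Near (-Real.log ‖ε‖) δ1 (qi n q m l)
      fun θ => (z θ l : ℂ) := by
    rw [eventually_all]
    exact hzasy
  obtain ⟨Λ, hΛ1, hΛ⟩ := exists_lam_root (hxev.and (hE.and (hZ.and (eventually_log_ge 1)))) hm
  refine ⟨Λ, hΛ1, fun lam hlam Φ hΦ => ?_⟩
  obtain ⟨hl0, η, hη, ⟨hxc, hxp, hxe⟩, hE', hZ', hlog1⟩ := hΛ (σ lam) hlam
  have hlog : -Real.log ‖η‖ = Real.log ‖σ lam‖ / m := by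
    have h1 := congrArg (fun w : ℂ => Real.log ‖w‖) hη
    simp only [norm_pow, norm_inv, Real.log_inv, Real.log_pow] at h1
    rw [eq_div_iff hmr]
    linarith
  rw [hlog] at hlog1
  simp only [hlog] at hE' hZ'
  have hs : Real.log ‖σ lam‖ / m ≠ 0 := by linarith
  have hev : ∀ θ, MvPolynomial.eval₂ σ (x η θ) Φ = evL σ (z θ) W := by
    intro θ
    rw [hΦ, MvPolynomial.eval₂_mul, MvPolynomial.eval₂_C, MvPolynomial.eval₂_prod, hxe θ, hη,
      mul_inv_cancel_left₀ hl0]
  have hP : ∀ θ, Pt W Φ σ (x η θ) (z θ) := fun θ =>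
    ⟨hev θ, by rw [hev θ]; exact hW0 θ⟩
  set Γ := mkH (x η) z hxc hzc hxp hzp hP with hΓ
  have hΓe : ∀ θ, Γ.e θ = (hP θ).evO := fun θ => rfl
  refine ⟨Γ, fun θ c => (hP θ).evO_ocst c, fun θ => ?_, fun s B hB => ?_⟩
  · by_contra hcon
    push Not at hcon
    have hz0 : ∀ j, MvPolynomial.eval₂ σ (x η θ) (MvPolynomial.pderiv j Φ) = 0 := by
      intro j
      have h1 := hcon j
      rw [hΓe, (hP θ).evO_opol] at h1
      exact h1
    obtain ⟨f', hf', hf''⟩ := exists_fderiv_ev σ Φ (x η θ)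
    have hf0 : f' = 0 := by
      ext1 y
      rw [hf'' y]
      exact Finset.sum_eq_zero fun j _ => by rw [hz0, zero_mul]
    have h1 : HasFDerivAt (x η) (fderiv ℝ (x η) θ) θ :=
      ((hxc.differentiable (by norm_num)) θ).hasFDerivAt
    have h2 := HasFDerivAt.comp θ (hf'.restrictScalars ℝ) h1
    have h3 : ((fun x : Fin (n + 1) → ℂ => MvPolynomial.eval₂ σ x Φ) ∘ x η) =
        fun θ => evL σ (z θ) W := funext hev
    rw [h3, hf0] at h2
    obtain ⟨l, hl⟩ := Function.ne_iff.1 hv0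
    have h4 : lw (fun θ => evL σ (z θ) W) (iz n q l) θ = 0 := by
      unfold lw
      rw [h2.fderiv]
      exact zero_div _
    have h5 := hWlw θ l
    rw [h4, zero_sub, norm_neg, norm_mul, norm_mul, norm_mul, norm_mul, Complex.norm_I,
      Complex.norm_real, Complex.norm_ofNat, mul_one, Real.norm_eq_abs,
      abs_of_pos Real.pi_pos, Complex.norm_intCast, Complex.norm_natCast] at h5
    have h6 : (1 : ℝ) ≤ |(v l : ℝ)| := by
      exact_mod_cast Int.one_le_abs hl
    have h7 := Real.pi_gt_three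
    have h8 : (1 : ℝ) ≤ m := by exact_mod_cast Nat.one_le_iff_ne_zero.2 hm
    have h9 : (1 : ℝ) ≤ m * |(v l : ℝ)| := by nlinarith
    nlinarith
  · rw [Torus.reg_symb, ← det_QRT]
    have hfnB : ∀ k, Γ.fn (B k : HOpen W Φ) = fun θ =>
        σ (γ s k) * MvPolynomial.eval₂ σ (x η θ) (p (num s k)) /
          MvPolynomial.eval₂ σ (x η θ) (p (den s k)) := by
      intro k
      funext θ
      have h1 := congrArg (hP θ).evO (hB k)
      rw [map_mul, map_mul, (hP θ).evO_opol, (hP θ).evO_opol, (hP θ).evO_ocst] at h1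
      have h2 : MvPolynomial.eval₂ σ (x η θ) (p (den s k)) ≠ 0 := by
        intro h0
        have h3 := (hP θ).ne
        rw [hΦ, MvPolynomial.eval₂_mul, MvPolynomial.eval₂_prod,
          Finset.prod_eq_zero (Finset.mem_univ (den s k)) h0, mul_zero] at h3
        exact h3 rfl
      rw [eq_div_iff h2]
      exact h1
    have hfnz : ∀ l, Γ.fn (oz W Φ l : HOpen W Φ) = fun θ => (z θ l : ℂ) := by
      intro l
      funext θ
      exact (hP θ).evO_oz l
    have hnear : ∀ i : Fin (n + 1 + (q + 1)), Near (Real.log ‖σ lam‖ / m) (3 * δ1)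
        (QRT n q m v N (fun k => μ (num s k)) (fun k => μ (den s k)) i)
        (Γ.fn (hent B i : HOpen W Φ)) := by
      intro i
      refine Fin.addCases (fun k => ?_) (fun l => ?_) i
      · rw [hent_castAdd, hfnB k]
        have h1 : QRT n q m v N (fun k => μ (num s k)) (fun k => μ (den s k))
            (Fin.castAdd (q + 1) k) =
            qe n q m v N (μ (num s k)) - qe n q m v N (μ (den s k)) := by
          exact QRT_castAdd _ _ _ _ _ _ _ _
        rw [h1]
        exact hE' s k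
      · rw [hent_natAdd, hfnz l]
        have h1 : QRT n q m v N (fun k => μ (num s k)) (fun k => μ (den s k))
            (Fin.natAdd (n + 1) l) = qi n q m l := by
          exact QRT_natAdd _ _ _ _ _ _ _ _
        rw [h1]
        exact (hZ' l).mono (by linarith)
    have hlt : 3 * δ1 < δ s := by linarith [hδ0 s]
    refine hclose s _ _ hs (fun i => (hnear i).good) (fun i θ => ?_) fun i j θ => ?_
    · exact ((hnear i).log θ).trans_lt hlt
    · exact ((hnear i).wind j θ).trans_lt hlt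

/-- For large `λ` the determinant of the regulators does not vanish. -/
theorem exists_qtori {ι : Type*} [Fintype ι] [DecidableEq ι] (hv0 : v ≠ 0)
    (hv : ZRoot σ W v)
    (μ : ι → E → Fin (n + 1) → ℕ) (hT : ∀ t, ∃ h X, QChart σ p (μ t) h X)
    (num den : ι → Fin (n + 1) → E) (γ : ι → Fin (n + 1) → K) (hγ : ∀ s k, γ s k ≠ 0)
    (hD : (Matrix.of fun t s : ι =>
      (Mb (fun k => μ t (num s k)) fun k => μ t (den s k)).det).det ≠ 0) :
    ∃ C : ℝ, 1 ≤ C ∧ ∀ lam : K, C ≤ ‖σ lam‖ → ∀ Φ : MvPolynomial (Fin (n + 1)) K,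
      Φ = MvPolynomial.C lam * ∏ e, p e → ∃ Γ : ι → Torus (HOpen W Φ) (n + 1 + q),
        (∀ t θ c, (Γ t).e θ (ocst W Φ c) = σ c) ∧
        (∀ t θ, ∃ j, (Γ t).e θ (opol W Φ (MvPolynomial.pderiv j Φ)) ≠ 0) ∧
        ∀ B : ι → Fin (n + 1) → (HOpen W Φ)ˣ,
          (∀ s k, (B s k : HOpen W Φ) * opol W Φ (p (den s k)) =
            ocst W Φ (γ s k) * opol W Φ (p (num s k))) →
          (Matrix.of fun t s : ι => (Γ t).reg (symb (hent (B s)))).det ≠ 0 := by
  classical
  choose h X hX using hT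
  set m : ι → ℕ := fun t => ∑ e, μ t e 0 with hm
  have hm0 : ∀ t, m t ≠ 0 := fun t => (hX t).pos
  have hmr : ∀ t, (m t : ℝ) ≠ 0 := fun t => Nat.cast_ne_zero.2 (hm0 t)
  set D0 : ι → ℝ := fun t =>
    (2 * Real.pi) ^ (n + 1 + q) * (QOm n q (m t) v fun j => ∑ e, μ t e j).det with hD0
  have hD00 : ∀ t, D0 t ≠ 0 := fun t => by
    have := Real.pi_pos
    exact mul_ne_zero (by positivity) (det_QOm_ne_zero n q (hm0 t) v _)
  have hlead : (Matrix.of fun t s : ι => D0 t *
      (Matrix.of fun t s : ι =>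
        (Mb (fun k => μ t (num s k)) fun k => μ t (den s k)).det) t s).det ≠ 0 := by
    rw [Matrix.det_mul_column]
    exact mul_ne_zero (Finset.prod_ne_zero_iff.2 fun t _ => hD00 t) hD
  obtain ⟨δ, hδ, hdet'⟩ := det_ne_zero_near _ hlead
  choose Λ hΛ1 hΛ using fun t : ι =>
    (hX t).exists_torus hv0 hv (m := m t) rfl num den γ hγ (ε := δ / 2) (by linarith)
  set C : ℝ := ∑ t, |Λ t| + 2 with hC
  have hsum : 0 ≤ ∑ t, |Λ t| := Finset.sum_nonneg fun J _ => abs_nonneg _
  have hΛC : ∀ t, Λ t ≤ C := by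
    intro t
    have h1 := Finset.single_le_sum (f := fun t => |Λ t|) (fun t _ => abs_nonneg _)
      (Finset.mem_univ t)
    have h2 := le_abs_self (Λ t)
    have h3 : |Λ t| ≤ ∑ t, |Λ t| := h1
    linarith
  refine ⟨C, by linarith, fun lam hlam Φ hΦ => ?_⟩
  choose Γ hΓ1 hΓ2 hΓ3 using fun t => hΛ t lam ((hΛC t).trans hlam) Φ hΦ
  refine ⟨Γ, hΓ1, hΓ2, fun B hB => ?_⟩
  have hs : Real.log ‖σ lam‖ ≠ 0 := by
    have : 0 < Real.log ‖σ lam‖ := Real.log_pos (by linarith)
    linarith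
  set s : ℝ := Real.log ‖σ lam‖ with hsdef
  have h1 : (Matrix.of fun t i : ι =>
      (Γ t).reg (symb (hent (B i))) / (s / m t)).det ≠ 0 := by
    refine hdet' _ fun t i => ?_
    rw [Matrix.of_apply, Matrix.of_apply, Matrix.of_apply]
    refine lt_of_le_of_lt ?_ (show δ / 2 < δ by linarith)
    have h2 := hΓ3 t i (B i) (hB i)
    have e : D0 t * (Mb (fun k => μ t (num i k)) fun k => μ t (den i k)).det =
        (2 * Real.pi) ^ (n + 1 + q) *
          ((Mb (fun k => μ t (num i k)) fun k => μ t (den i k)).det *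
            (QOm n q (m t) v fun j => ∑ e, μ t e j).det) := by
      simp only [hD0]
      ring
    rw [e]
    exact h2
  have h2 : (Matrix.of fun t i : ι => (Γ t).reg (symb (hent (B i)))) =
      Matrix.of fun t i : ι => (s / m t) *
        (Matrix.of fun t i : ι => (Γ t).reg (symb (hent (B i))) / (s / m t)) t i := by
    ext t i
    rw [Matrix.of_apply, Matrix.of_apply, Matrix.of_apply,
      mul_div_cancel₀ _ (div_ne_zero hs (hmr t))]
  rw [h2, Matrix.det_mul_column]
  exact mul_ne_zero (Finset.prod_ne_zero_iff.2 fun t _ => div_ne_zero hs (hmr t)) h1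

/-- The exponent of `exists_zroot` is not zero. -/
theorem exists_zroot' (hW : Tempered W) (σ : K →+* ℂ) : ∃ v, v ≠ 0 ∧ ZRoot σ W v := by
  obtain ⟨v, hv, hmax, hvd⟩ := exists_zroot W (hW.ne_zero (Nat.succ_ne_zero q)) σ
  refine ⟨v, ?_, hvd⟩
  rintro rfl
  obtain ⟨e, he, hpos⟩ := hW.interior (fun _ => 1) (by
    intro h0
    exact one_ne_zero (congrFun h0 0))
  have h1 := hmax e he
  simp only [Pi.zero_apply, mul_zero, Finset.sum_const_zero] at h1
  have h2 : ∀ l, e l = 0 := by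
    intro l
    have h3 : 0 ≤ ∑ l, e l * e l := Finset.sum_nonneg fun l _ => mul_self_nonneg _
    have h4 := (Finset.sum_eq_zero_iff_of_nonneg (fun l _ => mul_self_nonneg (e l))).1
      (le_antisymm h1 h3) l (Finset.mem_univ l)
    exact mul_self_eq_zero.1 h4
  simp only [h2, mul_zero, Finset.sum_const_zero] at hpos
  exact lt_irrefl _ hpos

end main

end Pool.Agent.Q212.LF
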