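import Pool.Agent.Q212.LF.Def
import Pool.Agent.Y797.TW.Def
set_option autoImplicit false

/-!
The hypersurfaces `W(z) = λ g ∏_j ∏_i (x_j - φ_{j,i}(x_{j+1}, ..., x_n))` and the symbols with the
entries `(x_j - φ_{j,k_j+1}) / (x_j - φ_{j,0})` and `z_0, ..., z_q`.
-/

namespace Pool.Agent.Q212.LF

open Pool.Agent.TH826.MK (symb Torus)

open Pool.Agent.Y797.TW (Tower)

variable {K : Type*} [Field K] {n q : ℕ}

/-- The polynomial `λ g ∏_j ∏_i (x_j - φ_{j,i})`. -/
noncomputable def tPhi (A : Tower K n) (lam : K) : MvPolynomial (Fin (n + 1)) K :=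
  MvPolynomial.C lam * A.prod

theorem fac_dvd (A : Tower K n) (lam : K) (j : Fin (n + 1)) (i : Fin (A.r j + 1)) :
    A.fac j i ∣ tPhi A lam := by
  refine Dvd.dvd.mul_left (Dvd.dvd.mul_left ?_ _) _
  exact (Finset.dvd_prod_of_mem (fun i => A.fac j i) (Finset.mem_univ i)).trans
    (Finset.dvd_prod_of_mem (fun j => ∏ i, A.fac j i) (Finset.mem_univ j))

/-- The unit `x_j - φ_{j,i}` on the open part of the hypersurface. -/
noncomputable def tu (W : Lau K (q + 1)) (A : Tower K n) (lam : K) (j : Fin (n + 1))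
    (i : Fin (A.r j + 1)) : (HOpen W (tPhi A lam))ˣ :=
  ou W (tPhi A lam) (A.fac j i) (fac_dvd A lam j i)

/-- The entries `(x_j - φ_{j,k_j+1}) / (x_j - φ_{j,0})`, `0 ≤ k_j < r_j`, `j = 0, ..., n`. -/
noncomputable def tent (W : Lau K (q + 1)) (A : Tower K n) (lam : K) (k : ∀ j, Fin (A.r j))
    (j : Fin (n + 1)) : (HOpen W (tPhi A lam))ˣ :=
  tu W A lam j (k j).succ / tu W A lam j 0

/-- There are `∏_j r_j` tori of dimension `n + 1 + q` in the complex points over `σ` of the open part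
of the hypersurface, such that at each point of the tori some partial derivative `∂Φ/∂x_j` does not
vanish, where `Φ = λ g ∏_j ∏_i (x_j - φ_{j,i})`, and the determinant of the regulators on the tori
of the `∏_j r_j` symbols does not vanish. -/
def TIndepReg (σ : K →+* ℂ) (W : Lau K (q + 1)) (A : Tower K n) (lam : K) : Prop :=
  ∃ Γ : (∀ j, Fin (A.r j)) → Torus (HOpen W (tPhi A lam)) (n + 1 + q),
    (∀ t θ (x : K), (Γ t).e θ (ocst W (tPhi A lam) x) = σ x) ∧
    (∀ t θ, ∃ j, (Γ t).e θ (opol W (tPhi A lam) (MvPolynomial.pderiv j (tPhi A lam))) ≠ 0) ∧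
    (Matrix.of fun t k : (∀ j, Fin (A.r j)) =>
      (Γ t).reg (symb (hent (tent W A lam k)))).det ≠ 0

end Pool.Agent.Q212.LF
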