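import Pool.Agent.Q212.LF.TDef
import Pool.Agent.Q212.LF.Dom
set_option autoImplicit false

/-!
The hypersurfaces `W(z) = λ g ∏_j ∏_i (x_j - φ_{j,i})` are irreducible if there are at least two
variables `x` and the degree of `g` is less than the degree of the product of the other factors.
-/

namespace Pool.Agent.Q212.LF

open Pool.Agent.Y797.TW (Tower)

section point

variable {N : ℕ} {k : Type*} [Field k]

/-- Triangular systems have solutions. -/
theorem exists_tri_point (ψ : Fin N → (Fin N → k) → k)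
    (hψ : ∀ l y y', (∀ l', l < l' → y l' = y' l') → ψ l y = ψ l y') :
    ∃ y : Fin N → k, ∀ l, y l = ψ l y := by
  set F : (Fin N → k) → Fin N → k := fun y l => ψ l y with hF
  have key : ∀ j : ℕ, ∀ l : Fin N, N - j ≤ l → F^[j + 1] 0 l = F^[j] 0 l := by
    intro j
    induction j with
    | zero => exact fun l hl => absurd l.2 (by omega)
    | succ j ih =>
      intro l hl
      rw [Function.iterate_succ_apply' F (j + 1), Function.iterate_succ_apply' F j]
      refine hψ l _ _ fun l' hl' => ?_
      have h1 : (l : ℕ) < l' := hl'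
      have h2 := ih l' (by omega)
      rwa [Function.iterate_succ_apply' F j] at h2
  refine ⟨F^[N] 0, fun l => ?_⟩
  have h1 := key N l (by omega)
  rw [Function.iterate_succ_apply'] at h1
  exact h1.symm

theorem eval_congr_vars {p : MvPolynomial (Fin N) k} {y y' : Fin N → k}
    (h : ∀ l ∈ p.vars, y l = y' l) : MvPolynomial.eval y p = MvPolynomial.eval y' p :=
  MvPolynomial.eval₂Hom_congr' rfl (fun i hi _ => h i hi) rfl

end point

section irr

variable {k : Type*} [Field k] [Infinite k] {n : ℕ} {A : Tower k n}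

omit [Infinite k] in
theorem eval_fac (y : Fin (n + 1) → k) (j : Fin (n + 1)) (i : Fin (A.r j + 1)) :
    MvPolynomial.eval y (A.fac j i) = y j - MvPolynomial.eval y (A.phi j i) := by
  unfold Tower.fac
  rw [map_sub, MvPolynomial.eval_X]

omit [Infinite k] in
/-- A point with given values of one factor for every variable. -/
theorem exists_tower_point (hG : A.Graphs) (i : ∀ j, Fin (A.r j + 1)) (w : Fin (n + 1) → k) :
    ∃ y : Fin (n + 1) → k, ∀ j, MvPolynomial.eval y (A.fac j (i j)) = w j := by
  obtain ⟨y, hy⟩ := exists_tri_point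
    (fun j y => MvPolynomial.eval y (A.phi j (i j)) + w j) fun l y y' h => by
      show MvPolynomial.eval y _ + _ = MvPolynomial.eval y' _ + _
      rw [eval_congr_vars fun l' hl' => h l' (hG.1 l _ l' hl')]
  refine ⟨y, fun j => ?_⟩
  rw [eval_fac]
  nth_rewrite 1 [hy j]
  ring

omit [Infinite k] in
theorem exists_pair (e e' : (j : Fin (n + 1)) × Fin (A.r j + 1)) (hj : e.1 ≠ e'.1) :
    ∃ i : ∀ j, Fin (A.r j + 1), i e.1 = e.2 ∧ i e'.1 = e'.2 := by
  classical
  refine ⟨Function.update (Function.update (fun _ => 0) e.1 e.2) e'.1 e'.2, ?_, ?_⟩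
  · rw [Function.update_of_ne hj, Function.update_self]
  · rw [Function.update_self]

omit [Infinite k] in
theorem exists_single (e : (j : Fin (n + 1)) × Fin (A.r j + 1)) :
    ∃ i : ∀ j, Fin (A.r j + 1), i e.1 = e.2 := by
  classical
  exact ⟨Function.update (fun _ => 0) e.1 e.2, Function.update_self _ _ _⟩

theorem not_fac_dvd (hG : A.Graphs) {e e' : (j : Fin (n + 1)) × Fin (A.r j + 1)}
    (hee : e ≠ e') : ¬ A.fac e.1 e.2 ∣ A.fac e'.1 e'.2 := by
  classical
  rintro ⟨F, hF⟩
  by_cases hj : e.1 = e'.1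
  · obtain ⟨j, i⟩ := e
    obtain ⟨j', i'⟩ := e'
    subst hj
    have hi : i ≠ i' := fun h => hee (by rw [h])
    have h0 : A.phi j i - A.phi j i' ≠ 0 := sub_ne_zero.2 fun h => hi (hG.2.1 j h)
    obtain ⟨y, hy⟩ : ∃ y, MvPolynomial.eval y (A.phi j i - A.phi j i') ≠ 0 := by
      by_contra hcon
      push Not at hcon
      exact h0 (MvPolynomial.funext fun y => by rw [hcon, map_zero])
    set y' : Fin (n + 1) → k := Function.update y j (MvPolynomial.eval y (A.phi j i)) with hy'
    have hc : ∀ i, MvPolynomial.eval y' (A.phi j i) = MvPolynomial.eval y (A.phi j i) :=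
      fun i => eval_congr_vars fun l hl => Function.update_of_ne (hG.1 j i l hl).ne' _ _
    have h1 := congrArg (MvPolynomial.eval y') hF
    rw [map_mul, eval_fac, eval_fac, hc, hc, hy', Function.update_self, sub_self, zero_mul] at h1
    rw [map_sub] at hy
    exact hy h1
  · obtain ⟨i, hi, hi'⟩ := exists_pair e e' hj
    obtain ⟨y, hy⟩ := exists_tower_point hG i (Pi.single e'.1 1)
    have h1 := hy e.1
    have h2 := hy e'.1
    rw [hi, Pi.single_eq_of_ne hj] at h1
    rw [hi', Pi.single_eq_same] at h2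
    have h3 := congrArg (MvPolynomial.eval y) hF
    rw [map_mul, h1, h2, zero_mul] at h3
    exact one_ne_zero h3

theorem irreducible_tower (hG : A.Graphs) (hn : 1 ≤ n) {h : MvPolynomial (Fin (n + 1)) k}
    (hh0 : h ≠ 0) (hdeg : h.totalDegree < (∏ j, ∏ i, A.fac j i).totalDegree) {t : k}
    (ht : t ≠ 0) : Irreducible (h * (∏ j, ∏ i, A.fac j i) - MvPolynomial.C t) := by
  classical
  have hprod : ∏ j, ∏ i, A.fac j i =
      ∏ e : (j : Fin (n + 1)) × Fin (A.r j + 1), A.fac e.1 e.2 := by
    rw [Fintype.prod_sigma]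
  rw [hprod] at hdeg ⊢
  set p : (j : Fin (n + 1)) × Fin (A.r j + 1) → MvPolynomial (Fin (n + 1)) k :=
    fun e => A.fac e.1 e.2 with hp
  set r : (j : Fin (n + 1)) × Fin (A.r j + 1) →
      (MvPolynomial (Fin (n + 1)) k →ₐ[k] MvPolynomial (Fin (n + 1)) k) := fun e =>
    MvPolynomial.aeval fun l => if l = e.1 then A.phi e.1 e.2 else MvPolynomial.X l with hr
  have hrX : ∀ e l, r e (MvPolynomial.X l) =
      if l = e.1 then A.phi e.1 e.2 else MvPolynomial.X l := fun e l =>
    MvPolynomial.aeval_X _ _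
  have hrC : ∀ e y, r e (MvPolynomial.C y) = MvPolynomial.C y := fun e y => (r e).commutes y
  have hrφ : ∀ e, r e (A.phi e.1 e.2) = A.phi e.1 e.2 := by
    intro e
    have h1 : r e (A.phi e.1 e.2) = MvPolynomial.aeval MvPolynomial.X (A.phi e.1 e.2) := by
      refine MvPolynomial.eval₂Hom_congr' rfl (fun i hi _ => ?_) rfl
      rw [if_neg (hG.1 e.1 e.2 i hi).ne']
    rw [h1, MvPolynomial.aeval_X_left_apply]
  have h1 : ∀ e, r e (p e) = 0 := by
    intro e
    simp only [hp]
    unfold Tower.fac
    rw [map_sub, hrX, if_pos rfl, hrφ, sub_self]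
  have h2 : ∀ e f, p e ∣ f - r e f := by
    intro e f
    induction f using MvPolynomial.induction_on with
    | C y =>
      rw [hrC, sub_self]
      exact dvd_zero _
    | add p q hp hq =>
      rw [map_add]
      have e1 : p + q - (r e p + r e q) = (p - r e p) + (q - r e q) := by ring
      rw [e1]
      exact dvd_add hp hq
    | mul_X p' i hp' =>
      rw [map_mul, hrX]
      have e1 : ∀ x, p' * MvPolynomial.X i - r e p' * x =
          (p' - r e p') * MvPolynomial.X i + r e p' * (MvPolynomial.X i - x) := fun x => by ring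
      rw [e1]
      refine dvd_add (hp'.mul_right _) (Dvd.dvd.mul_left ?_ _)
      split_ifs with hi
      · rw [hi]
        exact dvd_refl _
      · rw [sub_self]
        exact dvd_zero _
  have h3 : ∀ e, 0 < (p e).totalDegree := by
    intro e
    rw [Nat.pos_iff_ne_zero]
    intro h0
    have hC := MvPolynomial.totalDegree_eq_zero_iff_eq_C.1 h0
    obtain ⟨i, hi⟩ := exists_single e
    obtain ⟨y, hy⟩ := exists_tower_point hG i 0
    obtain ⟨y', hy'⟩ := exists_tower_point hG i 1
    have h4 := hy e.1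
    have h5 := hy' e.1
    rw [hi] at h4 h5
    have h6 : A.fac e.1 e.2 = _ := hC
    rw [h6, MvPolynomial.eval_C] at h4 h5
    rw [h4] at h5
    exact zero_ne_one h5
  have h5 : ∀ e e', ∃ f, (∃ x : Fin (n + 1) → k, MvPolynomial.eval x (p e) = 0 ∧
      MvPolynomial.eval x (p f) = 0) ∧
      ∃ x : Fin (n + 1) → k, MvPolynomial.eval x (p f) = 0 ∧ MvPolynomial.eval x (p e') = 0 := by
    have hpair : ∀ e e' : (j : Fin (n + 1)) × Fin (A.r j + 1), e.1 ≠ e'.1 →
        ∃ x : Fin (n + 1) → k, MvPolynomial.eval x (p e) = 0 ∧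
          MvPolynomial.eval x (p e') = 0 := by
      intro e e' hj
      obtain ⟨i, hi, hi'⟩ := exists_pair e e' hj
      obtain ⟨y, hy⟩ := exists_tower_point hG i 0
      have h1 := hy e.1
      have h2 := hy e'.1
      rw [hi] at h1
      rw [hi'] at h2
      exact ⟨y, h1, h2⟩
    intro e e'
    by_cases hj : e.1 = e'.1
    · obtain ⟨j, hj'⟩ : ∃ j : Fin (n + 1), j ≠ e.1 := by
        by_cases h0 : e.1 = 0
        · refine ⟨⟨1, by omega⟩, ?_⟩
          rw [h0]
          intro h
          have := congrArg Fin.val h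
          simp at this
        · exact ⟨0, fun h => h0 h.symm⟩
      refine ⟨⟨j, 0⟩, hpair _ _ hj'.symm, hpair _ _ ?_⟩
      rw [← hj]
      exact hj'
    · obtain ⟨x, hx, hx'⟩ := hpair e e' hj
      exact ⟨e', ⟨x, hx, hx'⟩, x, hx', hx'⟩
  exact irreducible_sub_C p r h1 h2 h3 (fun e e' hee => not_fac_dvd hG hee) h5 ⟨0, 0⟩ hh0 hdeg ht

end irr

section dom

variable {K : Type*} [Field K] {n q : ℕ}

/-- the change of the base field -/
noncomputable def mapT {k : Type*} [Field k] (φ : K →+* k) (A : Tower K n) : Tower k n where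
  r := A.r
  phi j i := MvPolynomial.map φ (A.phi j i)
  g := MvPolynomial.map φ A.g

theorem graphs_mapT {k : Type*} [Field k] (φ : K →+* k) {A : Tower K n} (hG : A.Graphs) :
    (mapT φ A).Graphs := by
  refine ⟨fun j i l hl => ?_, fun j => ?_, ?_⟩
  · have h1 : (MvPolynomial.map φ (A.phi j i)).vars = (A.phi j i).vars :=
      MvPolynomial.vars_map_of_injective _ φ.injective
    have h2 : l ∈ (MvPolynomial.map φ (A.phi j i)).vars := hl
    rw [h1] at h2
    exact hG.1 j i l h2
  · exact (MvPolynomial.map_injective φ φ.injective).comp (hG.2.1 j)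
  · intro h0
    exact hG.2.2 (MvPolynomial.map_injective φ φ.injective (by
      rw [map_zero]
      exact h0))

theorem totalDegree_map' {k : Type*} [Field k] (φ : K →+* k) {N : ℕ}
    (p : MvPolynomial (Fin N) K) : (MvPolynomial.map φ p).totalDegree = p.totalDegree := by
  unfold MvPolynomial.totalDegree
  rw [MvPolynomial.support_map_of_injective _ φ.injective]

theorem map_prod_fac {k : Type*} [Field k] (φ : K →+* k) (A : Tower K n) :
    MvPolynomial.map φ (∏ j, ∏ i, A.fac j i) = ∏ j, ∏ i, (mapT φ A).fac j i := by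
  rw [map_prod]
  refine Finset.prod_congr rfl fun j _ => ?_
  rw [map_prod]
  refine Finset.prod_congr rfl fun i _ => ?_
  unfold Tower.fac
  rw [map_sub, MvPolynomial.map_X]
  rfl

theorem isDomain_tower [Infinite K] {W : Lau K q} (hW : W ≠ 0) {lam : K} (hlam : lam ≠ 0)
    {A : Tower K n} (hG : A.Graphs) (hn : 1 ≤ n)
    (hdeg : A.g.totalDegree < (∏ j, ∏ i, A.fac j i).totalDegree) :
    IsDomain (HRing W (tPhi A lam)) := by
  have hC0 : ∀ {k : Type _} [Field k] {x : k}, x ≠ 0 →
      (MvPolynomial.C x : MvPolynomial (Fin (n + 1)) k) ≠ 0 := fun hx h0 =>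
    hx (MvPolynomial.C_injective _ _ (by rw [h0, map_zero]))
  have hirr := irreducible_tower hG hn (h := MvPolynomial.C lam * A.g)
    (mul_ne_zero (hC0 hlam) hG.2.2)
    (lt_of_le_of_lt (MvPolynomial.totalDegree_mul _ _)
      (by rw [MvPolynomial.totalDegree_C]; omega))
    one_ne_zero
  have hΦ : MvPolynomial.C lam * A.g * (∏ j, ∏ i, A.fac j i) = tPhi A lam := by
    unfold tPhi Tower.prod
    rw [mul_assoc]
  refine isDomain_HRing ?_ ?_
  · intro h0
    refine hirr.not_isUnit ?_
    rw [MvPolynomial.totalDegree_eq_zero_iff_eq_C] at h0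
    rw [hΦ, h0, ← map_sub]
    refine IsUnit.map _ (IsUnit.mk0 _ fun h2 => ?_)
    have h3 := hirr.ne_zero
    rw [hΦ, h0, ← map_sub, h2, map_zero] at h3
    exact h3 rfl
  · set φ : K →+* FractionRing (Lau K q) :=
      (algebraMap (Lau K q) (FractionRing (Lau K q))).comp lcst with hφ
    have : Infinite (FractionRing (Lau K q)) := Infinite.of_injective φ φ.injective
    have h1 : MvPolynomial.map φ (tPhi A lam) =
        (MvPolynomial.C (φ lam) * MvPolynomial.map φ A.g) *
          ∏ j, ∏ i, (mapT φ A).fac j i := by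
      rw [← hΦ, map_mul, map_mul, MvPolynomial.map_C, map_prod_fac]
    rw [h1]
    have hlam' : φ lam ≠ 0 := (map_ne_zero φ).2 hlam
    refine irreducible_tower (graphs_mapT φ hG) hn (mul_ne_zero
      (fun h0 => hlam' (MvPolynomial.C_injective _ _ (by rw [h0, map_zero]))) fun h0 => hG.2.2
        (MvPolynomial.map_injective _ φ.injective (by rw [h0, map_zero]))) ?_ ?_
    · refine lt_of_le_of_lt (MvPolynomial.totalDegree_mul _ _) ?_
      rw [MvPolynomial.totalDegree_C, zero_add, totalDegree_map', ← map_prod_fac,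
        totalDegree_map']
      exact hdeg
    · intro h0
      exact hW (IsFractionRing.injective (Lau K q) (FractionRing (Lau K q))
        (by rw [h0, map_zero]))

end dom

end Pool.Agent.Q212.LF
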