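import Pool.Agent.Q212.LF.TDef
import Pool.Agent.Q212.LF.QTori
import Pool.Agent.Y797.TW.Ev
set_option autoImplicit false

/-!
The regulators of the symbols on the hypersurfaces over the towers of graphs.
-/

namespace Pool.Agent.Q212.LF

open Pool.Agent.TH826.MK (symb Torus)

open Pool.Agent.Y797.TW

section chart

variable {K : Type*} [Field K] {n : ℕ} {A : Tower K n}

theorem det_ex' {n : ℕ} (m : Fin (n + 1) → ℕ) :
    (Matrix.of fun j l => ((ex m j l : ℕ) : ℝ)).det = 1 := by
  rw [Matrix.det_of_isUpperTriangular]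
  · refine Finset.prod_eq_one fun i _ => ?_
    simp [ex]
  · intro i j hij
    have hij' : j < i := hij
    simp [ex, hij'.ne', not_lt.2 hij'.le]

/-- the determinant of the orders -/
theorem det_torders {r : Fin (n + 1) → ℕ} (m : Fin (n + 1) → ℕ)
    (al : Option ((j : Fin (n + 1)) × Fin (r j + 1)) → Fin (n + 1) →₀ ℕ)
    (c : ∀ j, Fin (r j)) (h1 : ∀ j, al (some ⟨j, (c j).succ⟩) = Finsupp.single j 1)
    (h2 : ∀ j i, i ≠ (c j).succ → ∀ l, l ≤ j → al (some ⟨j, i⟩) l = 0) (k : ∀ j, Fin (r j)) :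
    (Mb (fun j => nex m fun i => al (some ⟨j, (k j).succ⟩) i)
      fun j => nex m fun i => al (some ⟨j, 0⟩) i).det = if c = k then 1 else 0 := by
  have hz : ∀ j, (0 : Fin (r j + 1)) ≠ (c j).succ := fun j => (Fin.succ_ne_zero _).symm
  have h : Mb (fun j => nex m fun i => al (some ⟨j, (k j).succ⟩) i)
      (fun j => nex m fun i => al (some ⟨j, 0⟩) i) =
      (Matrix.of fun l i => ((al (some ⟨l, (k l).succ⟩) i : ℕ) : ℝ) -
        ((al (some ⟨l, 0⟩) i : ℕ) : ℝ)) *
      (Matrix.of fun j l => ((ex m j l : ℕ) : ℝ)) := by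
    ext l j
    rw [Matrix.mul_apply]
    unfold Mb nex
    simp only [Matrix.of_apply]
    push_cast
    rw [← Finset.sum_sub_distrib]
    exact Finset.sum_congr rfl fun p _ => by ring
  rw [h, Matrix.det_mul, det_ex', mul_one]
  rw [Matrix.det_of_isUpperTriangular]
  · by_cases hk : c = k
    · subst hk
      rw [if_pos rfl]
      refine Finset.prod_eq_one fun l _ => ?_
      rw [Matrix.of_apply, h1, h2 l 0 (hz l) l le_rfl, Finsupp.single_eq_same]
      norm_num
    · rw [if_neg hk]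
      obtain ⟨l, hl⟩ := Function.ne_iff.1 hk
      refine Finset.prod_eq_zero (Finset.mem_univ l) ?_
      rw [Matrix.of_apply, h2 l 0 (hz l) l le_rfl, h2 l (k l).succ ?_ l le_rfl, sub_self]
      exact fun e => hl (Fin.succ_injective _ e).symm
  · intro l j hlj
    have hlj' : j < l := hlj
    rw [Matrix.of_apply, h2 l 0 (hz l) j hlj'.le]
    by_cases hk : k l = c l
    · rw [hk, h1, Finsupp.single_eq_of_ne hlj'.ne]
      simp
    · rw [h2 l (k l).succ (fun e => hk (Fin.succ_injective _ e)) j hlj'.le, sub_self]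

theorem exists_tchart (σ : K →+* ℂ) (hG : A.Graphs) (c : ∀ j, Fin (A.r j)) :
    ∃ μ : Option ((j : Fin (n + 1)) × Fin (A.r j + 1)) → Fin (n + 1) → ℕ,
      (∃ h X, QChart σ (fct A) μ h X) ∧
      ∀ k : ∀ j, Fin (A.r j), (Mb (fun j => μ (some ⟨j, (k j).succ⟩))
        fun j => μ (some ⟨j, 0⟩)).det = if c = k then 1 else 0 := by
  classical
  obtain ⟨x, al, hal, hal1, hal2⟩ := exists_chart A σ hG fun j => (c j).succ
  set D0 : ℕ := ∑ e, ∑ j, al e j with hD0
  have hD : ∀ e j, al e j ≤ D0 := fun e j =>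
    (Finset.single_le_sum (f := fun j => al e j) (fun _ _ => Nat.zero_le _)
      (Finset.mem_univ j)).trans
    (Finset.single_le_sum (f := fun e => ∑ j, al e j) (fun _ _ => Nat.zero_le _)
      (Finset.mem_univ e))
  obtain ⟨m, hm⟩ := exists_rapid D0 (n + 1)
  have hmch : ContDiff ℂ 2 fun w : Fin (n + 1) → ℂ => mch m w := by
    refine contDiff_pi.2 fun j => ?_
    unfold mch
    exact contDiff_prod fun l _ => (contDiff_apply ℂ ℂ l).pow _
  have hpc : ∀ p : MvPolynomial (Fin (n + 1)) ℂ, ContDiff ℂ 2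
      fun w : Fin (n + 1) → ℂ => MvPolynomial.eval (mch m w) p := by
    intro p
    induction p using MvPolynomial.induction_on with
    | C c => simpa using contDiff_const
    | add p q hp hq => simpa using hp.add hq
    | mul_X p k hp => simpa using hp.mul (contDiff_pi.1 hmch k)
  refine ⟨fun e => nex m fun i => al e i, ⟨fun e w => hh m (MvPolynomial.bind₁ x
    (MvPolynomial.map σ (fct A e))) (al e) w,
    fun w j => MvPolynomial.eval (mch m w) (x j), ?_, ?_, ?_, ?_, ?_⟩,
    fun k => det_torders m al c hal1 hal2 k⟩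
  · refine contDiff_pi.2 fun j => ?_
    exact (hpc (x j)).restrict_scalars ℝ
  · intro e w
    rw [← eval_mch hm (hal e) (hD e)]
    unfold MvPolynomial.eval
    rw [MvPolynomial.eval₂Hom_bind₁]
    show _ = MvPolynomial.eval₂ (RingHom.id ℂ) _ (MvPolynomial.map σ (fct A e))
    rw [MvPolynomial.eval₂_map, RingHom.id_comp]
  · intro e
    exact (contDiff_hh m _ _).restrict_scalars ℝ
  · intro e
    exact hh_zero hm (hal e) (hD e)
  · refine Nat.pos_iff_ne_zero.1 (lt_of_lt_of_le one_pos (le_trans ?_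
      (Finset.single_le_sum (f := fun e => nex m (fun i => al e i) 0)
      (fun _ _ => Nat.zero_le _) (Finset.mem_univ (some ⟨0, (c 0).succ⟩)))))
    show 1 ≤ nex m (fun i => al (some ⟨0, (c 0).succ⟩) i) 0
    rw [hal1 0]
    unfold nex
    refine le_trans ?_ (Finset.single_le_sum (f := fun j =>
      (Finsupp.single (0 : Fin (n + 1)) 1) j * ex m j 0) (fun _ _ => Nat.zero_le _)
      (Finset.mem_univ 0))
    simp [ex]

end chart

section main

variable {K : Type*} [Field K] {n q : ℕ}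

theorem prod_fct (A : Tower K n) : ∏ e, fct A e = A.prod := by
  unfold Tower.prod
  rw [Fintype.prod_option, Fintype.prod_sigma]
  rfl

theorem exists_tindep (σ : K →+* ℂ) {W : Lau K (q + 1)} (hW : Tempered W) {A : Tower K n}
    (hG : A.Graphs) :
    ∃ C : ℝ, 1 ≤ C ∧ ∀ lam : K, C ≤ ‖σ lam‖ → TIndepReg σ W A lam := by
  classical
  obtain ⟨v, hv0, hv⟩ := exists_zroot' hW σ
  choose μ hμ hdet using fun c : (∀ j, Fin (A.r j)) => exists_tchart σ hG c
  have hM : (Matrix.of fun t s : (∀ j, Fin (A.r j)) =>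
      (Mb (fun k => μ t (some ⟨k, (s k).succ⟩)) fun k => μ t (some ⟨k, 0⟩)).det) = 1 := by
    ext t s
    rw [Matrix.of_apply, hdet, Matrix.one_apply]
  obtain ⟨C, hC1, hC⟩ := exists_qtori (σ := σ) (p := fct A) (W := W) hv0 hv μ hμ
    (fun s k => some ⟨k, (s k).succ⟩) (fun s k => some ⟨k, 0⟩) (fun _ _ => 1)
    (fun _ _ => one_ne_zero) (by rw [hM, Matrix.det_one]; exact one_ne_zero)
  refine ⟨C, hC1, fun lam hlam => ?_⟩
  obtain ⟨Γ, h1, h2, h3⟩ := hC lam hlam (tPhi A lam) (by
    unfold tPhi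
    rw [prod_fct])
  refine ⟨Γ, h1, h2, h3 (fun k => tent W A lam k) fun k j => ?_⟩
  have e1 : (tent W A lam k j : HOpen W (tPhi A lam)) *
      (tu W A lam j 0 : HOpen W (tPhi A lam)) = tu W A lam j (k j).succ := by
    unfold tent
    rw [← Units.val_mul, div_mul_cancel]
  rw [map_one, one_mul]
  exact e1

end main

end Pool.Agent.Q212.LF
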