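import Pool.Agent.Q212.LF.TDef
import Pool.Agent.Q212.LF.AUnr
import Pool.Agent.Y797.TW.Unr
set_option autoImplicit false

/-!
The symbols on the hypersurfaces over the towers of graphs are unramified.
-/

namespace Pool.Agent.Q212.LF

open scoped WithZero

open Pool.Agent.TH826.MK (KQ symb Unramified unitPart Torus val_le_one_of_integral)

open Pool.Agent.TH826.EF (onePart)

open Pool.Agent.Y797.TW (Tower val_le_one)

theorem unramAt_tent.{u, w} {K : Type u} [Field K] {n q : ℕ} {W : Lau K (q + 1)}
    (hW : Tempered W) {A : Tower K n} (hG : A.Graphs) (hI : A.Integral) {lam : K}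
    (hlam : IsIntegral ℤ lam) (k : ∀ j, Fin (A.r j)) : UnramAt.{u, w} (tent W A lam k) := by
  classical
  refine unramAt_of hW _ fun L _ f v => ?_
  set F : MvPolynomial (Fin (n + 1)) K →+* L := MvPolynomial.eval₂Hom (ptK f) (ptx f) with hF
  have hu : ∀ j i, f (tu W A lam j i : HOpen W (tPhi A lam)) = F (A.fac j i) := fun j i => by
    unfold tu
    rw [map_ou]
    rfl
  have hent1 : ∀ j, ((Units.map (f : HOpen W (tPhi A lam) →* L) (tent W A lam k j) : Lˣ) : L) =
      F (A.fac j (k j).succ) / F (A.fac j 0) := by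
    intro j
    have h : tent W A lam k j = tu W A lam j (k j).succ / tu W A lam j 0 := rfl
    rw [h, map_div, Units.val_div_eq_div_val]
    show f (tu W A lam j (k j).succ : HOpen W (tPhi A lam)) / f (tu W A lam j 0 : HOpen W (tPhi A lam)) = _
    rw [hu, hu]
  have hne : ∀ j i, F (A.fac j i) ≠ 0 := fun j i => by
    rw [← hu]
    exact (((tu W A lam j i).isUnit).map f).ne_zero
  have hΦ : MvPolynomial.eval₂ (ptK f) (ptx f) (tPhi A lam) =
      F (MvPolynomial.C lam) * (F A.g * ∏ j, ∏ i, F (A.fac j i)) := by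
    show F (tPhi A lam) = _
    unfold tPhi Tower.prod
    rw [map_mul, map_mul, map_prod]
    simp only [map_prod]
  by_cases hB : ∃ j, 1 < v (F (MvPolynomial.X j))
  · -- the last one
    refine Or.inl ?_
    have hnem : (Finset.univ.filter fun j : Fin (n + 1) =>
        1 < v (F (MvPolynomial.X j))).Nonempty := by
      obtain ⟨j, hj⟩ := hB
      exact ⟨j, Finset.mem_filter.2 ⟨Finset.mem_univ _, hj⟩⟩
    set j := (Finset.univ.filter fun j : Fin (n + 1) => 1 < v (F (MvPolynomial.X j))).max' hnem
      with hjdef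
    have hj : 1 < v (F (MvPolynomial.X j)) := (Finset.mem_filter.1 (Finset.max'_mem _ hnem)).2
    have hlt : ∀ l, j < l → v (F (MvPolynomial.X l)) ≤ 1 := by
      intro l hl
      by_contra hcon
      refine absurd (Finset.le_max' _ l (Finset.mem_filter.2 ⟨Finset.mem_univ _, ?_⟩))
        (not_le.2 hl)
      exact not_le.1 hcon
    have hphi : ∀ i, v (F (A.phi j i)) ≤ 1 := fun i =>
      val_le_one F v (hI.1 j i) fun l hl => hlt l (hG.1 j i l hl)
    refine Submodule.subset_span ⟨_, j, ?_, rfl⟩
    rw [hent1]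
    have e1 : ∀ i, F (A.fac j i) = F (MvPolynomial.X j) - F (A.phi j i) := fun i => by
      rw [← map_sub]
      rfl
    rw [div_sub_one (hne j 0), map_div₀, e1, e1]
    have h1 : v (F (MvPolynomial.X j) - F (A.phi j 0)) = v (F (MvPolynomial.X j)) :=
      Valuation.map_sub_eq_of_lt_left v ((hphi 0).trans_lt hj)
    have h2 : v (F (MvPolynomial.X j) - F (A.phi j (k j).succ) -
        (F (MvPolynomial.X j) - F (A.phi j 0))) ≤ 1 := by
      have e : F (MvPolynomial.X j) - F (A.phi j (k j).succ) -
          (F (MvPolynomial.X j) - F (A.phi j 0)) =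
        F (A.phi j 0) - F (A.phi j (k j).succ) := by ring
      rw [e]
      exact (v.map_sub _ _).trans (max_le (hphi _) (hphi _))
    rw [h1]
    have h3 : 0 < v (F (MvPolynomial.X j)) := zero_lt_one.trans hj
    rw [div_lt_one₀ h3]
    exact h2.trans_lt hj
  · refine Or.inr ?_
    push Not at hB
    have hphi : ∀ j i, v (F (A.phi j i)) ≤ 1 := fun j i =>
      val_le_one F v (hI.1 j i) fun l _ => hB l
    have hg : v (F A.g) ≤ 1 := val_le_one F v hI.2 fun l _ => hB l
    have hsub : ∀ j i, v (F (A.fac j i)) ≤ 1 := fun j i => by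
      unfold Tower.fac
      rw [map_sub]
      exact (v.map_sub _ _).trans (max_le (hB j) (hphi j i))
    have hlam' : v (F (MvPolynomial.C lam)) ≤ 1 :=
      val_le_one_of_integral v (map_isIntegral_int (F.comp (MvPolynomial.C : K →+* _)) hlam)
    have hprod : ∀ j, v (∏ i, F (A.fac j i)) ≤ 1 := fun j => by
      rw [map_prod]
      exact Finset.prod_le_one' fun i _ => hsub j i
    rw [hΦ, map_mul, map_mul, map_prod]
    refine ⟨mul_le_one' hlam' (mul_le_one' hg (Finset.prod_le_one' fun j _ => hprod j)),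
      fun hone l => ?_⟩
    have hC : ∀ j i, v (F (A.fac j i)) = 1 := by
      intro j i
      refine le_antisymm (hsub j i) ?_
      rw [← hone]
      rw [← Finset.mul_prod_erase _ _ (Finset.mem_univ j), map_prod,
        ← Finset.mul_prod_erase _ _ (Finset.mem_univ i)]
      have h1 : ∏ x ∈ Finset.univ.erase i, v (F (A.fac j x)) ≤ 1 :=
        Finset.prod_le_one' fun i _ => hsub j i
      have h2 : ∏ x ∈ Finset.univ.erase j, v (∏ i, F (A.fac x i)) ≤ 1 :=
        Finset.prod_le_one' fun k _ => hprod k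
      calc v (F (MvPolynomial.C lam)) * (v (F A.g) * (v (F (A.fac j i)) *
            (∏ x ∈ Finset.univ.erase i, v (F (A.fac j x))) *
            ∏ x ∈ Finset.univ.erase j, v (∏ i, F (A.fac x i))))
          ≤ 1 * (1 * (v (F (A.fac j i)) * 1 * 1)) :=
            mul_le_mul' hlam' (mul_le_mul' hg (mul_le_mul' (mul_le_mul' le_rfl h1) h2))
        _ = v (F (A.fac j i)) := by rw [one_mul, one_mul, mul_one, mul_one]
    have h5 : f (tent W A lam k l : HOpen W (tPhi A lam)) =
        F (A.fac l (k l).succ) / F (A.fac l 0) := hent1 l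
    rw [h5, map_div₀, hC, hC, div_one]

end Pool.Agent.Q212.LF
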